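import Pool.Agent.H36.RT.CertDef
import Pool.Agent.H38.ML.Spec

/-!
# [H36 RT CERTEND] consequences of a certificate over a field

`cert_roots`: if `y` is a root of `C.f` in a field extension, the elements `y_g = (r g)(y)` are roots
(`root`), `y_1 = y` (`one`), `(r h)(y_g) = y_(g h)` (`mul`: apply `aeval y`), and they are pairwise
different: `y_g = y_h` gives, applying `r (h⁻¹)`, `y_(g h⁻¹) = y_(h h⁻¹) = y_1 = y`, and by `unit`
(`(y_(g h⁻¹) - y) * w = 1`) `g h⁻¹ = 1`. As `deg f = |G|`, `f = ∏ (X - y_g)`.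

`cert_galois`: let `y ∈ Ω = AlgebraicClosure ℚ` be a root of `C.f`. For `τ ∈ Gal(Ω/K)` the element
`τ y` is a root of `C.f`, so `τ y = y_g` for a unique `g =: ρ τ`. `ρ` is a homomorphism:
`τ (σ y) = τ ((r (ρ σ))(y)) = (r (ρ σ))(τ y) = (r (ρ σ))((r (ρ τ))(y)) = y_(ρ τ * ρ σ)`. It is
surjective because `C.f` is irreducible, hence the minimal polynomial of `y` and of every `y_g`
(`minpoly.eq_of_irreducible_of_monic`), and `Gal(Ω/K)` is transitive on the roots of a minimal
polynomial (`Normal.exists_algEquiv_of_root`/`IsConjRoot`). The kernel contains the fixing subgroup of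
`K(y)`, finite over `K`.
-/

open Polynomial

noncomputable section

namespace H36.RT

/-- the elements `y_g` -/
def cy {G : Type} [Group G] {F F' : Type} [Field F] [Field F'] [Algebra F F'] (C : Cert G F)
    (y : F') (g : G) : F' := aeval y (C.r g)

section cert

variable {G : Type} [Group G] {F F' : Type} [Field F] [Field F'] [Algebra F F'] (C : Cert G F)
  (y : F')

theorem cert_dvd (hy : aeval y C.f = 0) {p : F[X]} (h : C.f ∣ p) : aeval y p = 0 := by
  obtain ⟨q, rfl⟩ := h
  rw [map_mul, hy, zero_mul]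

theorem cy_one (hy : aeval y C.f = 0) : cy C y 1 = y := by
  have h := cert_dvd C y hy C.one
  rw [map_sub, aeval_X, sub_eq_zero] at h
  exact h

theorem cy_root (hy : aeval y C.f = 0) (g : G) : aeval (cy C y g) C.f = 0 := by
  have h := cert_dvd C y hy (C.root g)
  rwa [aeval_comp] at h

theorem cy_mul (hy : aeval y C.f = 0) (g h : G) : aeval (cy C y g) (C.r h) = cy C y (g * h) := by
  have h := cert_dvd C y hy (C.mul g h)
  rw [map_sub, aeval_comp, sub_eq_zero] at h
  exact h

theorem cy_inj (hy : aeval y C.f = 0) : Function.Injective (cy C y) := by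
  intro g h hgh
  by_contra hne
  have h1 : g * h⁻¹ ≠ 1 := fun h2 => hne (mul_inv_eq_one.1 h2)
  have h2 := cy_mul C y hy g h⁻¹
  have h3 := cy_mul C y hy h h⁻¹
  rw [hgh, h3, mul_inv_cancel, cy_one C y hy] at h2
  have h4 := cert_dvd C y hy (C.unit _ h1)
  rw [map_sub, map_mul, map_sub, aeval_X, map_one] at h4
  have h5 : aeval y (C.r (g * h⁻¹)) = y := h2.symm
  rw [h5, sub_self, zero_mul, zero_sub, neg_eq_zero] at h4
  exact one_ne_zero h4

end cert

theorem cert_roots {G : Type} [Group G] [Fintype G] {F F' : Type} [Field F] [Field F']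
    [Algebra F F'] (C : Cert G F) (y : F') (hy : aeval y C.f = 0) :
    C.f.map (algebraMap F F') = ∏ g : G, (X - Polynomial.C (aeval y (C.r g))) ∧
      Function.Injective (fun g => aeval y (C.r g)) := by
  have hinj : Function.Injective (fun g => aeval y (C.r g)) := cy_inj C y hy
  refine ⟨?_, hinj⟩
  have hdvd : ∏ g : G, (X - Polynomial.C (aeval y (C.r g))) ∣ C.f.map (algebraMap F F') := by
    apply Finset.prod_dvd_of_coprime
    · intro g _ h _ hgh
      exact pairwise_coprime_X_sub_C hinj hgh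
    · intro g _
      rw [dvd_iff_isRoot, IsRoot.def, eval_map_algebraMap]
      exact cy_root C y hy g
  apply eq_of_monic_of_dvd_of_natDegree_le
  · exact monic_prod_of_monic _ _ fun g _ => monic_X_sub_C _
  · exact C.monic.map _
  · exact hdvd
  · rw [natDegree_finsetProd_X_sub_C_eq_card, C.monic.natDegree_map, C.deg,
      Nat.card_eq_fintype_card]
    exact le_rfl

theorem cert_galois {G : Type} [Group G] [Finite G]
    (K : IntermediateField ℚ (AlgebraicClosure ℚ)) (C : Cert G K) (hirr : Irreducible C.f) :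
    H38.ML.Spec.IsGaloisGroup K (AlgebraicClosure ℚ) G := by
  classical
  have := Fintype.ofFinite G
  have hdeg : C.f.degree ≠ 0 := by
    intro h
    have h1 := natDegree_eq_of_degree_eq_some h
    rw [C.deg] at h1
    exact Nat.card_pos.ne' h1
  obtain ⟨y, hy⟩ := IsAlgClosed.exists_aeval_eq_zero (AlgebraicClosure ℚ) C.f hdeg
  obtain ⟨hprod, -⟩ := cert_roots C y hy
  have hinj := cy_inj C y hy
  have hex : ∀ τ : Gal((AlgebraicClosure ℚ)/K), ∃ g : G, τ y = cy C y g := by
    intro τ
    have h1 : aeval (τ y) C.f = 0 := by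
      rw [aeval_algHom_apply τ y C.f, hy, map_zero]
    rw [← eval_map_algebraMap, hprod, eval_prod, Finset.prod_eq_zero_iff] at h1
    obtain ⟨g, -, h2⟩ := h1
    rw [eval_sub, eval_X, eval_C, sub_eq_zero] at h2
    exact ⟨g, h2⟩
  choose ρ hρ using hex
  have hρmul : ∀ τ σ, ρ (τ * σ) = ρ τ * ρ σ := by
    intro τ σ
    apply hinj
    rw [← hρ, AlgEquiv.mul_apply, hρ σ, ← cy_mul C y hy, ← hρ τ]
    exact (aeval_algHom_apply τ y (C.r (ρ σ))).symm
  have hρone : ρ 1 = 1 := by
    apply hinj
    rw [← hρ, cy_one C y hy]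
    rfl
  let R : Gal((AlgebraicClosure ℚ)/K) →* G :=
    { toFun := ρ
      map_one' := hρone
      map_mul' := hρmul }
  have hmin : minpoly K y = C.f := (minpoly.eq_of_irreducible_of_monic hirr hy C.monic).symm
  have hint : IsIntegral K y := ⟨C.f, C.monic, hy⟩
  have : Algebra.IsAlgebraic ℚ (AlgebraicClosure ℚ) := AlgebraicClosure.isAlgebraic ℚ
  have : IsAlgClosure K (AlgebraicClosure ℚ) :=
    { isAlgClosed := inferInstance
      isAlgebraic := Algebra.IsAlgebraic.tower_top (K := ℚ) K }
  have : Normal K (AlgebraicClosure ℚ) := IsAlgClosure.normal K (AlgebraicClosure ℚ)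
  refine ⟨R, ?_, IntermediateField.adjoin K {y}, IntermediateField.adjoin.finiteDimensional hint, ?_⟩
  · intro g
    have h1 : aeval (cy C y g) (minpoly K y) = 0 := by
      rw [hmin]
      exact cy_root C y hy g
    obtain ⟨σ, hσ⟩ := minpoly.exists_algEquiv_of_root' hint.isAlgebraic h1
    refine ⟨σ, hinj ?_⟩
    change cy C y (ρ σ) = _
    rw [← hρ, hσ]
  · intro τ hτ
    rw [MonoidHom.mem_ker]
    apply hinj
    change cy C y (ρ τ) = _
    rw [← hρ, cy_one C y hy]
    rw [IntermediateField.mem_fixingSubgroup_iff] at hτ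
    exact hτ y (IntermediateField.subset_adjoin K {y} rfl)

end H36.RT
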