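import Pool.Agent.H36.RT.HitZero

/-!
# [H36 RT HIT] Hilbert irreducibility at a totally split point

Proof. Let `n = natDegree f`; the polynomial `f(a, Y)` splits with simple roots `r i`, `i : Fin n`
(`Polynomial.Splits`, `Polynomial.nodup_roots`, a numbering of the `n` roots). Let
`f' = f.map (Polynomial.compRingHom (X + C a))` (translation `z ↦ z + a` on the coefficients), again
monic of degree `n` and irreducible (the translation is a ring automorphism of `K[X]`, with inverse
`z ↦ z - a`; `Polynomial.mapEquiv`, `MulEquiv.irreducible_iff`), and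
`f'.map (evalRingHom x) = f.map (evalRingHom (x + a))`. Choose `B` such that `δ (t⁻¹ + a) ≠ 0` for all
`t ≥ B` (finitely many roots; `t ↦ t⁻¹ + a` is injective), apply `hit_zero` and put `c = t⁻¹ + a`.
-/

open Polynomial

noncomputable section

namespace H36.RT

theorem hit (K : Type) [Field K] [NumberField K] (f : K[X][X]) (hf : f.Monic)
    (hirr : Irreducible f) (a : K) (hs : (f.map (Polynomial.evalRingHom a)).Splits)
    (hsep : (f.map (Polynomial.evalRingHom a)).Separable) (δ : K[X]) (hδ : δ ≠ 0) :
    ∃ c : K, δ.eval c ≠ 0 ∧ Irreducible (f.map (Polynomial.evalRingHom c)) := by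
  classical
  set g : K[X] := f.map (Polynomial.evalRingHom a) with hg
  have hgm : g.Monic := hf.map _
  have hgd : g.natDegree = f.natDegree := hf.natDegree_map _
  -- the roots of `g`
  have hnd : g.roots.Nodup := nodup_roots hsep
  have hcard : g.roots.toFinset.card = f.natDegree := by
    rw [Multiset.toFinset_card_of_nodup hnd, ← hgd]
    exact hs.natDegree_eq_card_roots.symm
  set e := (g.roots.toFinset.equivFinOfCardEq hcard).symm with he
  set r : Fin f.natDegree → K := fun i => (e i : K) with hr
  have hri : Function.Injective r := fun i j hij => e.injective (Subtype.ext hij)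
  have hprod : g = ∏ i, (X - C (r i)) := by
    have h1 : ∏ i, (X - C (r i)) = ∏ x ∈ g.roots.toFinset, (X - C x) := by
      rw [← Finset.prod_coe_sort g.roots.toFinset (fun x => (X - C x : K[X]))]
      exact Fintype.prod_equiv e _ _ (fun i => rfl)
    have h2 : g = (g.roots.map (fun x => X - C x)).prod := hs.eq_prod_roots_of_monic hgm
    rw [h1]
    conv_lhs => rw [h2]
    rw [Finset.prod, Multiset.toFinset_val, Multiset.dedup_eq_self.2 hnd]
  -- translation
  set τ : K[X] ≃+* K[X] := (algEquivAevalXAddC a).toRingEquiv with hτ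
  have hτe : ∀ (x : K) (p : K[X]), (τ p).eval x = p.eval (x + a) := by
    intro x p
    show (aeval (X + C a) p).eval x = _
    rw [← comp_eq_aeval, eval_comp]
    simp
  set f' : K[X][X] := f.map (τ : K[X] →+* K[X]) with hf'
  have hmap : ∀ x : K, f'.map (Polynomial.evalRingHom x) =
      f.map (Polynomial.evalRingHom (x + a)) := by
    intro x
    rw [hf', map_map]
    congr 1
    ext1
    · ext p
      simp [hτe]
    · simp [hτe]
  have hm' : f'.Monic := hf.map _
  have hd' : f'.natDegree = f.natDegree := hf.natDegree_map _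
  have hirr' : Irreducible f' := by
    have h1 : f' = mapEquiv τ f := rfl
    rw [h1]
    exact (MulEquiv.irreducible_iff (mapEquiv τ)).2 hirr
  have h0' : f'.map (Polynomial.evalRingHom 0) = ∏ i, (X - C (r i)) := by
    rw [hmap, zero_add]
    exact hprod
  -- the bound
  have hfin : {t : ℕ | δ.eval ((t : K)⁻¹ + a) = 0}.Finite := by
    refine Set.Finite.of_finite_image (f := fun t : ℕ => (t : K)⁻¹ + a) ?_ ?_
    · refine (δ.roots.toFinset.finite_toSet).subset ?_
      rintro _ ⟨t, ht, rfl⟩
      rw [Finset.mem_coe, Multiset.mem_toFinset, mem_roots hδ]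
      exact ht
    · intro t _ t' _ htt
      have h1 : (t : K)⁻¹ = (t' : K)⁻¹ := add_right_cancel htt
      exact_mod_cast inv_injective h1
  obtain ⟨B, hB⟩ := hfin.bddAbove
  obtain ⟨t, hBt, -, ht⟩ := hit_zero K f' hm' hirr' f.natDegree hd' r hri h0' (B + 1)
  refine ⟨(t : K)⁻¹ + a, fun h => ?_, ?_⟩
  · have := hB h
    omega
  · rw [← hmap]
    exact ht

end H36.RT
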