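import Pool.Agent.H36.RT.PartB
import Pool.Agent.H36.RT.CertEnd
import Pool.Agent.H36.RT.Hit

/-!
# Every finite group is a Galois group over every sufficiently large number field
-/

open Polynomial

noncomputable section

namespace H36.RT

theorem realizable_all (G : Type) [Group G] [Finite G] : H38.ML.Spec.Realizable G := by
  classical
  haveI : Fintype G := Fintype.ofFinite G
  obtain ⟨D⟩ := partB G
  haveI := D.fin
  -- a rational number `a` with `δ(a) ≠ 0`
  obtain ⟨a, ha⟩ : ∃ a : ℚ, D.δ.eval (algebraMap ℚ D.K₁ a) ≠ 0 := by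
    by_contra hcon
    push Not at hcon
    apply D.δ_ne
    refine Polynomial.eq_zero_of_infinite_isRoot _ ?_
    refine Set.Infinite.mono ?_ (Set.infinite_range_of_injective
      (algebraMap ℚ D.K₁).injective)
    rintro _ ⟨q, rfl⟩
    exact hcon q
  -- a root `y` of `f(a, Y)`
  have hfm : (D.f.map (mapRingHom (algebraMap D.K₁ (AlgebraicClosure ℚ)))).Monic := D.monic.map _
  obtain ⟨y, hy⟩ : ∃ y : AlgebraicClosure ℚ,
      (D.f.map (aeval (algebraMap ℚ (AlgebraicClosure ℚ) a) :
        Polynomial D.K₁ →ₐ[D.K₁] AlgebraicClosure ℚ).toRingHom).eval y = 0 := by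
    apply IsAlgClosed.exists_root
    rw [Polynomial.degree_eq_natDegree (D.monic.map _).ne_zero, D.monic.natDegree_map, D.deg]
    have : 0 < Nat.card G := Nat.card_pos
    exact_mod_cast this.ne'
  refine ⟨D.K₁ ⊔ IntermediateField.adjoin ℚ {y}, ?_, ?_⟩
  · haveI : FiniteDimensional ℚ (IntermediateField.adjoin ℚ {y}) :=
      IntermediateField.adjoin.finiteDimensional
        ((AlgebraicClosure.isAlgebraic ℚ).isAlgebraic y).isIntegral
    haveI : FiniteDimensional ℚ
      (D.K₁ ⊔ IntermediateField.adjoin ℚ {y} : IntermediateField ℚ (AlgebraicClosure ℚ)) :=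
      IntermediateField.finiteDimensional_sup _ _
    exact NumberField.of_module_finite ℚ _
  intro K hK hKf
  have hK1 : D.K₁ ≤ K := le_sup_left.trans hK
  have hyK : y ∈ K := hK ((le_sup_right : IntermediateField.adjoin ℚ {y} ≤ _)
    (IntermediateField.mem_adjoin_simple_self ℚ y))
  let ι : D.K₁ →+* K := (IntermediateField.inclusion hK1).toRingHom
  letI : Algebra D.K₁ K := ι.toAlgebra
  have hcomp : ∀ x : D.K₁, ((algebraMap D.K₁ K x : K) : AlgebraicClosure ℚ) = x := fun x => rfl
  set fK : Polynomial (Polynomial K) := D.f.map (mapRingHom (algebraMap D.K₁ K)) with hfK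
  have hev : ∀ c : K, fK.map (evalRingHom c) =
      D.f.map (aeval c : Polynomial D.K₁ →ₐ[D.K₁] K).toRingHom := by
    intro c
    rw [hfK, Polynomial.map_map]
    congr 1
    apply Polynomial.ringHom_ext
    · intro x
      simp
    · simp
  have hirrK : Irreducible fK := by
    have h1 : fK.map (mapRingHom (algebraMap K (AlgebraicClosure ℚ))) =
        D.f.map (mapRingHom (algebraMap D.K₁ (AlgebraicClosure ℚ))) := by
      rw [hfK, Polynomial.map_map]
      congr 1
      apply Polynomial.ringHom_ext
      · intro x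
        simp only [RingHom.comp_apply, coe_mapRingHom, map_C]
        rfl
      · simp
    refine Polynomial.Monic.irreducible_of_irreducible_map
      (mapRingHom (algebraMap K (AlgebraicClosure ℚ))) fK (D.monic.map _) ?_
    rw [h1]
    exact D.irr
  have hδ : ∀ c : K, (D.δ.map (algebraMap D.K₁ K)).eval c = aeval c D.δ := by
    intro c
    rw [Polynomial.eval_map, Polynomial.aeval_def]
  -- the point `a`
  have haK : aeval (algebraMap ℚ K a) D.δ ≠ 0 := by
    have h1 : algebraMap ℚ K a = algebraMap D.K₁ K (algebraMap ℚ D.K₁ a) := by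
      simp
    rw [h1, Polynomial.aeval_algebraMap_apply]
    simpa using ha
  obtain ⟨Ca, hCa⟩ := D.cert K (algebraMap ℚ K a) haK
  have hya : aeval (⟨y, hyK⟩ : K) Ca.f = 0 := by
    have h2 : algebraMap K (AlgebraicClosure ℚ) (aeval (⟨y, hyK⟩ : K) Ca.f) = 0 := by
      rw [← Polynomial.aeval_algebraMap_apply, hCa, Polynomial.aeval_def, Polynomial.eval₂_map]
      rw [Polynomial.eval_map] at hy
      convert hy using 2
      · apply Polynomial.ringHom_ext
        · intro x
          simp only [RingHom.comp_apply, AlgHom.toRingHom_eq_coe, RingHom.coe_coe, aeval_C]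
          rfl
        · simp
      · rfl
    exact (map_eq_zero _).1 h2
  obtain ⟨hprod, hinj⟩ := cert_roots Ca (⟨y, hyK⟩ : K) hya
  rw [Algebra.algebraMap_self, Polynomial.map_id] at hprod
  obtain ⟨c, hc, hcirr⟩ := hit K fK (D.monic.map _) hirrK (algebraMap ℚ K a)
    (by
      rw [hev, ← hCa, hprod]
      exact Polynomial.Splits.prod fun g _ => Polynomial.Splits.X_sub_C _)
    (by
      rw [hev, ← hCa, hprod]
      exact Polynomial.separable_prod_X_sub_C_iff.2 hinj)
    (D.δ.map (algebraMap D.K₁ K)) (by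
      rw [Ne, Polynomial.map_eq_zero]; exact D.δ_ne)
  rw [hδ] at hc
  obtain ⟨Cc, hCc⟩ := D.cert K c hc
  exact cert_galois K Cc (by rw [hCc, ← hev]; exact hcirr)

end H36.RT
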