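import Mathlib

/-!
# [H36 RT ABSIRR] absolute irreducibility from a power series root

`hmin` says that no monic polynomial of smaller degree over `K[x]` has the root `θ`.

Proof. `θ` is integral over `K⟦x⟧`, an integrally closed domain (a discrete valuation ring, a PID), so
`θ` is (the image of) a power series, again called `θ ∈ K⟦x⟧`. Suppose `f' = f.map _` over `K'[x]` is
not irreducible: it is monic of positive degree, so `f' = g h` with monic `g, h` of degree
`< natDegree f` (`Polynomial.Monic.irreducible_iff_natDegree` or `..._iff'`). In `K'⟦x⟧`: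
`g(θ) h(θ) = 0` (`θ` mapped by `PowerSeries.map (algebraMap K K')`), say `g(θ) = 0` (symmetric). Let
`l : K' →ₗ[K] K` be linear with `l 1 = 1` (exists: `K'` is a nonzero `K`-vector space;
`LinearMap.exists_leftInverse_of_injective` for `Algebra.linearMap K K'`). Let
`Λ : K'⟦x⟧ → K⟦x⟧` be coefficientwise `l`; it is additive and `Λ (c F) = c Λ F` for `c ∈ K⟦x⟧`
(`PowerSeries.coeff_mul`). So `0 = Λ (g(θ)) = ∑ Λ(g_i) θ^i`, `Λ(g_i) ∈ K[x]` the polynomial with
coefficients `l(…)`, and `Λ(1) = 1`: the polynomial `∑ Λ(g_i) Y^i ∈ K[x][Y]` is monic of the degree of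
`g` and has the root `θ`, contradicting `hmin`.
-/

open Polynomial

noncomputable section

namespace H36.RT

/-- The inclusion of `K[x]` in the field of fractions of `K⟦x⟧`. -/
def toFW (K : Type) [Field K] : K[X] →+* FractionRing (PowerSeries K) :=
  (algebraMap (PowerSeries K) (FractionRing (PowerSeries K))).comp
    (Polynomial.coeToPowerSeries.ringHom : K[X] →+* PowerSeries K)

theorem abs_irr_functional (K K' : Type) [Field K] [Field K'] [Algebra K K'] :
    ∃ l : K' →ₗ[K] K, l 1 = 1 := by
  obtain ⟨l, hl⟩ := LinearMap.exists_leftInverse_of_injective (Algebra.linearMap K K')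
    (LinearMap.ker_eq_bot.2 (algebraMap K K').injective)
  refine ⟨l, ?_⟩
  have h := LinearMap.congr_fun hl 1
  simpa using h

/-- coefficientwise application of a linear functional -/
def absLam {K K' : Type} [Field K] [Field K'] [Algebra K K'] (l : K' →ₗ[K] K)
    (F : PowerSeries K') : PowerSeries K := PowerSeries.mk (fun n => l (PowerSeries.coeff n F))

theorem absLam_zero {K K' : Type} [Field K] [Field K'] [Algebra K K'] (l : K' →ₗ[K] K) :
    absLam l (0 : PowerSeries K') = 0 := by
  ext n
  simp [absLam]

theorem absLam_sum {K K' : Type} [Field K] [Field K'] [Algebra K K'] (l : K' →ₗ[K] K)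
    (s : Finset ℕ) (F : ℕ → PowerSeries K') :
    absLam l (∑ i ∈ s, F i) = ∑ i ∈ s, absLam l (F i) := by
  ext n
  simp [absLam, map_sum]

theorem absLam_mul {K K' : Type} [Field K] [Field K'] [Algebra K K'] (l : K' →ₗ[K] K)
    (F : PowerSeries K') (c : PowerSeries K) :
    absLam l (F * PowerSeries.map (algebraMap K K') c) = absLam l F * c := by
  ext n
  rw [absLam, PowerSeries.coeff_mk, PowerSeries.coeff_mul, PowerSeries.coeff_mul, map_sum]
  refine Finset.sum_congr rfl (fun x _ => ?_)
  rw [absLam, PowerSeries.coeff_mk, PowerSeries.coeff_map, mul_comm, ← Algebra.smul_def,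
    map_smul, smul_eq_mul, mul_comm]

/-- coefficientwise application of a linear functional to a polynomial -/
def absPol {K K' : Type} [Field K] [Field K'] [Algebra K K'] (l : K' →ₗ[K] K)
    (q : K'[X]) : K[X] := ∑ j ∈ Finset.range (q.natDegree + 1), monomial j (l (q.coeff j))

theorem absPol_coeff {K K' : Type} [Field K] [Field K'] [Algebra K K'] (l : K' →ₗ[K] K)
    (q : K'[X]) (j : ℕ) : (absPol l q).coeff j = l (q.coeff j) := by
  unfold absPol
  rw [finsetSum_coeff]
  simp only [coeff_monomial]
  rw [Finset.sum_ite_eq']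
  split_ifs with h
  · rfl
  · rw [Finset.mem_range, Nat.lt_succ_iff, not_le] at h
    rw [coeff_eq_zero_of_natDegree_lt h, map_zero]

theorem absPol_coe {K K' : Type} [Field K] [Field K'] [Algebra K K'] (l : K' →ₗ[K] K)
    (q : K'[X]) : (Polynomial.coeToPowerSeries.ringHom (absPol l q) : PowerSeries K) =
      absLam l (Polynomial.coeToPowerSeries.ringHom q) := by
  ext n
  rw [Polynomial.coeToPowerSeries.ringHom_apply, Polynomial.coeToPowerSeries.ringHom_apply,
    Polynomial.coeff_coe, absPol_coeff, absLam, PowerSeries.coeff_mk, Polynomial.coeff_coe]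

theorem abs_irr_descend (K K' : Type) [Field K] [Field K'] [Algebra K K'] (g : K'[X][X])
    (hg : g.Monic) (p : PowerSeries K)
    (h : g.eval₂ (Polynomial.coeToPowerSeries.ringHom : K'[X] →+* PowerSeries K')
      (PowerSeries.map (algebraMap K K') p) = 0) :
    ∃ G : K[X][X], G.Monic ∧ G.natDegree = g.natDegree ∧
      G.eval₂ (Polynomial.coeToPowerSeries.ringHom : K[X] →+* PowerSeries K) p = 0 := by
  obtain ⟨l, hl⟩ := abs_irr_functional K K'
  set e := g.natDegree with he
  set G : K[X][X] := ∑ i ∈ Finset.range (e + 1), monomial i (absPol l (g.coeff i)) with hG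
  have hGc : ∀ i, G.coeff i = absPol l (g.coeff i) := by
    intro i
    rw [hG, finsetSum_coeff]
    simp only [coeff_monomial]
    rw [Finset.sum_ite_eq']
    split_ifs with hi
    · rfl
    · rw [Finset.mem_range, Nat.lt_succ_iff, not_le] at hi
      rw [coeff_eq_zero_of_natDegree_lt hi]
      ext j
      rw [absPol_coeff, coeff_zero, coeff_zero, map_zero]
  have hGe : G.coeff e = 1 := by
    rw [hGc, he, hg.coeff_natDegree]
    ext j
    rw [absPol_coeff, coeff_one, coeff_one]
    split_ifs
    · exact hl
    · exact map_zero l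
  have hGd : G.natDegree ≤ e := by
    rw [natDegree_le_iff_coeff_eq_zero]
    intro i hi
    rw [hGc, coeff_eq_zero_of_natDegree_lt (by rw [← he]; exact hi)]
    ext j
    rw [absPol_coeff, coeff_zero, coeff_zero, map_zero]
  have hGm : G.Monic := monic_of_natDegree_le_of_coeff_eq_one e hGd hGe
  have hGn : G.natDegree = e :=
    natDegree_eq_of_le_of_coeff_ne_zero hGd (by rw [hGe]; exact one_ne_zero)
  refine ⟨G, hGm, hGn, ?_⟩
  rw [eval₂_eq_sum_range, hGn]
  rw [eval₂_eq_sum_range, ← he] at h
  have h2 : absLam l (∑ i ∈ Finset.range (e + 1),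
      (Polynomial.coeToPowerSeries.ringHom (g.coeff i) : PowerSeries K') *
        PowerSeries.map (algebraMap K K') p ^ i) = 0 := by
    rw [h, absLam_zero]
  rw [absLam_sum] at h2
  rw [← h2]
  refine Finset.sum_congr rfl (fun i _ => ?_)
  rw [hGc, absPol_coe, ← map_pow, absLam_mul]

theorem abs_irr (K K' : Type) [Field K] [Field K'] [Algebra K K'] (f : K[X][X]) (hf : f.Monic)
    (hdeg : 0 < f.natDegree) (θ : FractionRing (PowerSeries K))
    (hθ : f.eval₂ (toFW K) θ = 0)
    (hmin : ∀ g : K[X][X], g.Monic → g.eval₂ (toFW K) θ = 0 → f.natDegree ≤ g.natDegree) :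
    Irreducible (f.map (Polynomial.mapRingHom (algebraMap K K'))) := by
  -- the root is a power series
  have hint : IsIntegral (PowerSeries K) θ := by
    refine ⟨f.map (Polynomial.coeToPowerSeries.ringHom : K[X] →+* PowerSeries K), hf.map _, ?_⟩
    rw [eval₂_map]
    exact hθ
  obtain ⟨p, hp⟩ := IsIntegrallyClosed.isIntegral_iff.1 hint
  have hev : ∀ g : K[X][X], g.eval₂ (toFW K) θ =
      algebraMap (PowerSeries K) (FractionRing (PowerSeries K))
        (g.eval₂ (Polynomial.coeToPowerSeries.ringHom : K[X] →+* PowerSeries K) p) := by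
    intro g
    rw [hom_eval₂, hp]
    rfl
  have hinj : Function.Injective (algebraMap (PowerSeries K) (FractionRing (PowerSeries K))) :=
    IsFractionRing.injective _ _
  have hfp : f.eval₂ (Polynomial.coeToPowerSeries.ringHom : K[X] →+* PowerSeries K) p = 0 := by
    apply hinj
    rw [← hev, hθ, map_zero]
  set f' := f.map (Polynomial.mapRingHom (algebraMap K K')) with hf'
  have hf'm : f'.Monic := hf.map _
  have hf'd : f'.natDegree = f.natDegree := hf.natDegree_map _
  have hhom : (Polynomial.coeToPowerSeries.ringHom : K'[X] →+* PowerSeries K').comp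
      (Polynomial.mapRingHom (algebraMap K K')) =
      (PowerSeries.map (algebraMap K K')).comp
        (Polynomial.coeToPowerSeries.ringHom : K[X] →+* PowerSeries K) := by
    refine RingHom.ext fun q => ?_
    ext n
    simp
  have hf'p : f'.eval₂ (Polynomial.coeToPowerSeries.ringHom : K'[X] →+* PowerSeries K')
      (PowerSeries.map (algebraMap K K') p) = 0 := by
    rw [hf', eval₂_map, hhom, ← hom_eval₂, hfp, map_zero]
  rw [hf'm.irreducible_iff_natDegree]
  constructor
  · intro h1
    rw [h1, natDegree_one] at hf'd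
    omega
  · intro g h hg hh hgh
    have hdeg2 : g.natDegree + h.natDegree = f.natDegree := by
      rw [← hf'd, ← hgh, hg.natDegree_mul hh]
    rw [← hgh, eval₂_mul] at hf'p
    have key : ∀ q : K'[X][X], q.Monic →
        q.eval₂ (Polynomial.coeToPowerSeries.ringHom : K'[X] →+* PowerSeries K')
          (PowerSeries.map (algebraMap K K') p) = 0 → f.natDegree ≤ q.natDegree := by
      intro q hq hq0
      obtain ⟨G, hG1, hG2, hG3⟩ := abs_irr_descend K K' q hq p hq0
      rw [← hG2]
      apply hmin G hG1
      rw [hev, hG3, map_zero]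
    rcases mul_eq_zero.1 hf'p with h0 | h0
    · right
      have := key g hg h0
      omega
    · left
      have := key h hh h0
      omega

end H36.RT
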