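import Pool.Agent.H36.RT.Defs

/-!
# [H36 RT BDD] elements with bounded degree in `x`

* `i1_mem_S0`: if all coefficients of `p` have degree `≤ d` then
  `p = ∑_{i ≤ d} b_i(t) x^i` with `b_i = mk (fun j => (coeff j p).coeff i)`, so `i1 k p = i0 k (...)`
  (compare coefficients of `t^j`: `Polynomial.as_sum_range' `).
* `bdd_mem`: from `i1_mem_S0` and `T_mem`.
* `two_sided`: if `T(-D) * i1 a = T(D') * i2 b` then for each `j` the Laurent polynomial
  `T(D) * (coefficient)` is the polynomial `a_j` and `T(-D') * (coefficient)` is a polynomial in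
  `1/x`, so `natDegree a_j ≤ D + D'`; use `i1_mem_S0`.
* `injective_i0`: the coefficient of `x^i` of the coefficient of `t^j` of `i0 k a` is
  `coeff j (a.coeff i)`.
* `EE_le_P1`: `S0 ≤ S1`. `EE_le_P2`: an element `i0 k a`, `natDegree a ≤ D`, is
  `(x^(-1))^(-D) * i2 k (...)`: `x^(-D) i0 k a = ∑ b_i(t) x^(i-D)` is a power series in `t` with
  coefficients in `k[1/x]`; and `x^(-1) ∈ P2`.
* `T_mem`: the image of `x` lies in `EE`, and so does its inverse.
-/

open Polynomial

namespace H36.RT

variable (k : Type) [Field k]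

/-- the inclusion `k⟦t⟧[x] → k[x]⟦t⟧` -/
noncomputable def i01 : (PowerSeries k)[X] →+* PowerSeries k[X] :=
  Polynomial.eval₂RingHom (PowerSeries.map Polynomial.C) (PowerSeries.C Polynomial.X)

theorem i01_C (b : PowerSeries k) : i01 k (Polynomial.C b) = PowerSeries.map Polynomial.C b := by
  simp [i01]

theorem i01_X : i01 k Polynomial.X = PowerSeries.C Polynomial.X := by
  simp [i01]

theorem i0_C (b : PowerSeries k) :
    i0 k (Polynomial.C b) = PowerSeries.map LaurentPolynomial.C b := by
  simp [i0]

theorem i0_X : i0 k Polynomial.X = PowerSeries.C (LaurentPolynomial.T 1) := by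
  simp [i0]

theorem i0_eq : i0 k = (i1 k).comp (i01 k) := by
  refine Polynomial.ringHom_ext (fun b => ?_) ?_
  · rw [RingHom.comp_apply, i01_C, i0_C]
    ext j : 1
    simp [i1]
  · rw [RingHom.comp_apply, i01_X, i0_X]
    simp [i1]

theorem i0_apply (a : (PowerSeries k)[X]) : i0 k a = i1 k (i01 k a) := by
  rw [i0_eq, RingHom.comp_apply]

theorem i01_coeff (a : (PowerSeries k)[X]) (i j : ℕ) :
    (PowerSeries.coeff j (i01 k a)).coeff i = PowerSeries.coeff j (a.coeff i) := by
  induction a using Polynomial.induction_on' with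
  | add p q hp hq => simp only [map_add, Polynomial.coeff_add, hp, hq]
  | monomial n b =>
    rw [← Polynomial.C_mul_X_pow_eq_monomial, map_mul, map_pow, i01_C, i01_X, ← map_pow,
      PowerSeries.coeff_mul_C, PowerSeries.coeff_map, Polynomial.coeff_C_mul,
      Polynomial.coeff_X_pow, Polynomial.coeff_C_mul, Polynomial.coeff_X_pow]
    split_ifs <;> simp

theorem i01_injective : Function.Injective (i01 k) := by
  intro a b hab
  ext i j
  rw [← i01_coeff, ← i01_coeff, hab]

theorem i1_mem_S0 (d : ℕ) (p : PowerSeries k[X])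
    (hp : ∀ j, (PowerSeries.coeff j p).natDegree ≤ d) : i1 k p ∈ S0 k := by
  let a : (PowerSeries k)[X] := ∑ i ∈ Finset.range (d + 1),
    Polynomial.monomial i (PowerSeries.mk (fun j => (PowerSeries.coeff j p).coeff i))
  have ha : i01 k a = p := by
    ext j i
    rw [i01_coeff]
    simp only [a, Polynomial.finset_sum_coeff, Polynomial.coeff_monomial]
    rw [Finset.sum_ite_eq']
    by_cases hi : i ∈ Finset.range (d + 1)
    · rw [if_pos hi, PowerSeries.coeff_mk]
    · rw [if_neg hi]
      rw [Finset.mem_range] at hi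
      rw [Polynomial.coeff_eq_zero_of_natDegree_lt (by have := hp j; omega), map_zero]
  refine ⟨a, ?_⟩
  rw [i0_apply, ha]

theorem i1_injective : Function.Injective (i1 k) :=
  PowerSeries.map_injective _ Polynomial.toLaurent_injective

theorem i0_injective : Function.Injective (i0 k) := by
  rw [i0_eq]
  exact (i1_injective k).comp (i01_injective k)

theorem i2_injective : Function.Injective (i2 k) := by
  refine PowerSeries.map_injective _ ?_
  rw [RingHom.coe_comp]
  refine Function.Injective.comp ?_ Polynomial.toLaurent_injective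
  exact (LaurentPolynomial.invert : LaurentPolynomial k ≃ₐ[k] LaurentPolynomial k).injective

theorem mem_EE_of_S0 {a : RR k} (ha : a ∈ S0 k) : algebraMap (RR k) (QQ k) a ∈ EE k :=
  Subfield.subset_closure ⟨a, ha, rfl⟩

theorem mem_P2_of_S2 {a : RR k} (ha : a ∈ S2 k) : algebraMap (RR k) (QQ k) a ∈ P2 k :=
  Subfield.subset_closure ⟨a, ha, rfl⟩

theorem EE_le_P1 : EE k ≤ P1 k := by
  refine fr_mono ?_
  rintro _ ⟨a, rfl⟩
  exact ⟨i01 k a, (i0_apply k a).symm⟩

theorem EE_le_P2 : EE k ≤ P2 k := by
  unfold EE fr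
  rw [Subfield.closure_le]
  rintro _ ⟨_, ⟨a, rfl⟩, rfl⟩
  have hX : algebraMap (RR k) (QQ k) (i0 k Polynomial.X) ∈ P2 k := by
    have h1 : algebraMap (RR k) (QQ k) (PowerSeries.C (LaurentPolynomial.T (-1))) ∈ P2 k := by
      refine mem_P2_of_S2 k ⟨PowerSeries.C Polynomial.X, ?_⟩
      simp [i2]
    have h2 : algebraMap (RR k) (QQ k) (i0 k Polynomial.X) =
        (algebraMap (RR k) (QQ k) (PowerSeries.C (LaurentPolynomial.T (-1))))⁻¹ := by
      rw [i0_X]
      refine eq_inv_of_mul_eq_one_left ?_
      rw [← map_mul, ← map_mul, ← LaurentPolynomial.T_add]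
      simp
    rw [h2]
    exact (P2 k).inv_mem h1
  have hC : ∀ b, algebraMap (RR k) (QQ k) (i0 k (Polynomial.C b)) ∈ P2 k := by
    intro b
    refine mem_P2_of_S2 k ⟨PowerSeries.map Polynomial.C b, ?_⟩
    rw [i0_C]
    ext j : 1
    simp [i2]
  rw [SetLike.mem_coe]
  induction a using Polynomial.induction_on' with
  | add p q hp hq =>
    rw [map_add, map_add]
    exact (P2 k).add_mem hp hq
  | monomial n b =>
    rw [← Polynomial.C_mul_X_pow_eq_monomial, map_mul, map_pow, map_mul, map_pow]
    exact (P2 k).mul_mem (hC b) ((P2 k).pow_mem hX n)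

theorem T_mem (i : ℤ) :
    algebraMap (RR k) (QQ k) (PowerSeries.C (LaurentPolynomial.T i)) ∈ EE k := by
  have hn : ∀ n : ℕ, algebraMap (RR k) (QQ k) (PowerSeries.C (LaurentPolynomial.T (n : ℤ))) ∈
      EE k := by
    intro n
    refine mem_EE_of_S0 k ⟨Polynomial.X ^ n, ?_⟩
    rw [map_pow, i0_X, ← map_pow, LaurentPolynomial.T_pow]
    simp
  rcases Int.le_total 0 i with h | h
  · obtain ⟨n, rfl⟩ := Int.eq_ofNat_of_zero_le h
    exact hn n
  · obtain ⟨n, hn'⟩ := Int.eq_ofNat_of_zero_le (show 0 ≤ -i by omega)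
    have h2 : algebraMap (RR k) (QQ k) (PowerSeries.C (LaurentPolynomial.T i)) =
        (algebraMap (RR k) (QQ k) (PowerSeries.C (LaurentPolynomial.T (n : ℤ))))⁻¹ := by
      refine eq_inv_of_mul_eq_one_left ?_
      rw [← map_mul, ← map_mul, ← LaurentPolynomial.T_add]
      have : i + (n : ℤ) = 0 := by omega
      rw [this]
      simp
    rw [h2]
    exact (EE k).inv_mem (hn n)

theorem bdd_mem (n : ℤ) (d : ℕ) (p : PowerSeries k[X])
    (hp : ∀ j, (PowerSeries.coeff j p).natDegree ≤ d) :
    algebraMap (RR k) (QQ k) (PowerSeries.C (LaurentPolynomial.T n) * i1 k p) ∈ EE k := by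
  rw [map_mul]
  exact (EE k).mul_mem (T_mem k n) (mem_EE_of_S0 k (i1_mem_S0 k d p hp))

theorem two_sided_deg (m : ℤ) (a b : k[X])
    (h : Polynomial.toLaurent a =
      LaurentPolynomial.T m * LaurentPolynomial.invert (Polynomial.toLaurent b)) :
    a.natDegree ≤ m.toNat := by
  by_cases ha : a = 0
  · rw [ha]
    simp
  have hr := LaurentPolynomial.toLaurent_reverse b
  have h1 : Polynomial.toLaurent a * LaurentPolynomial.T (b.natDegree : ℤ) =
      LaurentPolynomial.T m * Polynomial.toLaurent b.reverse := by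
    rw [h, hr]
    ring
  have hrev : b.reverse.natDegree ≤ b.natDegree := Polynomial.reverse_natDegree_le b
  rcases Int.le_total 0 m with hm | hm
  · obtain ⟨n, rfl⟩ := Int.eq_ofNat_of_zero_le hm
    have h2 : a * Polynomial.X ^ b.natDegree = Polynomial.X ^ n * b.reverse := by
      apply Polynomial.toLaurent_injective
      rw [map_mul, map_mul, Polynomial.toLaurent_X_pow, Polynomial.toLaurent_X_pow]
      exact h1
    have h3 := congrArg Polynomial.natDegree h2
    rw [Polynomial.natDegree_mul_X_pow _ ha] at h3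
    have h4 : (Polynomial.X ^ n * b.reverse : k[X]).natDegree ≤ n + b.reverse.natDegree := by
      refine (Polynomial.natDegree_mul_le).trans ?_
      simp
    rw [Int.toNat_natCast]
    omega
  · obtain ⟨n, hn⟩ := Int.eq_ofNat_of_zero_le (show 0 ≤ -m by omega)
    have h2 : a * Polynomial.X ^ (b.natDegree + n) = b.reverse := by
      apply Polynomial.toLaurent_injective
      rw [map_mul, Polynomial.toLaurent_X_pow]
      push_cast
      rw [LaurentPolynomial.T_add, ← mul_assoc, h1]
      have e : LaurentPolynomial.T m * Polynomial.toLaurent b.reverse *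
          LaurentPolynomial.T (n : ℤ) = (LaurentPolynomial.T m * LaurentPolynomial.T (n : ℤ)) *
            Polynomial.toLaurent b.reverse := by ring
      rw [e, ← LaurentPolynomial.T_add, show m + (n : ℤ) = 0 by omega, LaurentPolynomial.T_zero,
        one_mul]
    have h3 := congrArg Polynomial.natDegree h2
    rw [Polynomial.natDegree_mul_X_pow _ ha] at h3
    omega

theorem two_sided (D D' : ℤ) (a b : PowerSeries k[X])
    (h : PowerSeries.C (LaurentPolynomial.T D) * i1 k a =
      PowerSeries.C (LaurentPolynomial.T D') * i2 k b) :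
    algebraMap (RR k) (QQ k) (PowerSeries.C (LaurentPolynomial.T D) * i1 k a) ∈ EE k := by
  refine bdd_mem k D (D' - D).toNat a ?_
  intro j
  refine two_sided_deg k (D' - D) _ (PowerSeries.coeff j b) ?_
  have hj := congrArg (PowerSeries.coeff j) h
  rw [PowerSeries.coeff_C_mul, PowerSeries.coeff_C_mul] at hj
  have e1 : PowerSeries.coeff j (i1 k a) = Polynomial.toLaurent (PowerSeries.coeff j a) := by
    simp [i1]
  have e2 : PowerSeries.coeff j (i2 k b) =
      LaurentPolynomial.invert (Polynomial.toLaurent (PowerSeries.coeff j b)) := by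
    simp [i2]
  rw [e1, e2] at hj
  have h0 : (LaurentPolynomial.T (-D) : LaurentPolynomial k) * LaurentPolynomial.T D = 1 := by
    rw [← LaurentPolynomial.T_add]
    simp
  calc Polynomial.toLaurent (PowerSeries.coeff j a)
      = (LaurentPolynomial.T (-D) * LaurentPolynomial.T D) *
          Polynomial.toLaurent (PowerSeries.coeff j a) := by rw [h0, one_mul]
    _ = LaurentPolynomial.T (-D) * (LaurentPolynomial.T D *
          Polynomial.toLaurent (PowerSeries.coeff j a)) := by ring
    _ = LaurentPolynomial.T (-D) * (LaurentPolynomial.T D' *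
          LaurentPolynomial.invert (Polynomial.toLaurent (PowerSeries.coeff j b))) := by rw [hj]
    _ = (LaurentPolynomial.T D' * LaurentPolynomial.T (-D)) *
          LaurentPolynomial.invert (Polynomial.toLaurent (PowerSeries.coeff j b)) := by ring
    _ = _ := by rw [← LaurentPolynomial.T_add, sub_eq_add_neg]

theorem X_mem : algebraMap (RR k) (QQ k) PowerSeries.X ∈ EE k := by
  refine mem_EE_of_S0 k ⟨Polynomial.C PowerSeries.X, ?_⟩
  rw [i0_C]
  simp

end H36.RT
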