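import Pool.Agent.H36.RT.WPrep1
import Pool.Agent.H36.RT.Bdd

/-!
# [H36 RT K1] `P1 ∩ P2 = E`

Proof. `≥`: `EE_le_P1`, `EE_le_P2`. `≤`: let `q` be in both. By `mem_fr` `q = i1 f₁ / i1 g₁`
(`S1 k` is the range of `i1 k`), `g₁ ≠ 0`, and by `wprep1` `g₁ = t^m u p₁`, `u` a unit, `p₁ ≠ 0` with
coefficients of degree `≤ d₁`; so `q = i1 (u⁻¹ f₁) / (t^m i1 p₁)`. In the same way
`q = i2 (v⁻¹ f₂) / (t^m' i2 p₂)` (`i2 k X = X`), the coefficients of `p₂` of degree `≤ d₂`.
Put `F = q * t^(m+m') * i1 p₁ * i2 p₂`. Then `F` is the image of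
`i1 (u⁻¹ f₁) * t^m' * i2 p₂` and of `i2 (v⁻¹ f₂) * t^m * i1 p₁`, and the two are equal in `RR k`
(the map to `QQ k` is injective). Moreover `i2 p₂ = T(-d₂) * i1 (reversed p₂)` (reverse the
coefficients with respect to `d₂`: `Polynomial.reflect d₂`) and `i1 p₁ = T(d₁) * i2 (reflected p₁)`.
So `F ∈ EE` by `two_sided`, and `t`, `i1 p₁`, `i2 p₂` are nonzero elements of `EE`
(`X_mem`, `i1_mem_S0`, `bdd_mem`), so `q ∈ EE`.
-/

open Polynomial

namespace H36.RT

/-- reflection of polynomials is inversion of Laurent polynomials -/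
theorem invert_toLaurent_eq {k : Type} [Field k] (d : ℕ) (c : k[X]) (hc : c.natDegree ≤ d) :
    LaurentPolynomial.invert (toLaurent c) =
      LaurentPolynomial.T (-(d : ℤ)) * toLaurent (reflect d c) := by
  refine induction_with_natDegree_le (motive := fun c : k[X] =>
    LaurentPolynomial.invert (toLaurent c) =
      LaurentPolynomial.T (-(d : ℤ)) * toLaurent (reflect d c)) d ?_ ?_ ?_ c hc
  · simp
  · intro n r _ hn
    rw [reflect_C_mul_X_pow, revAt_le hn, toLaurent_C_mul_X_pow, toLaurent_C_mul_X_pow, map_mul,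
      LaurentPolynomial.invert_C, LaurentPolynomial.invert_T, mul_left_comm,
      ← LaurentPolynomial.T_add]
    congr 2
    push_cast [Nat.cast_sub hn]
    ring
  · intro f g _ _ hf hg
    rw [reflect_add, map_add, map_add, map_add, mul_add, hf, hg]

theorem toLaurent_eq_invert {k : Type} [Field k] (d : ℕ) (c : k[X]) (hc : c.natDegree ≤ d) :
    toLaurent c = LaurentPolynomial.T (d : ℤ) *
      LaurentPolynomial.invert (toLaurent (reflect d c)) := by
  have h := congrArg LaurentPolynomial.invert (invert_toLaurent_eq d c hc)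
  rw [map_mul, LaurentPolynomial.invert_T, neg_neg] at h
  rw [← h, LaurentPolynomial.involutive_invert]

/-- the reflected power series -/
noncomputable def refl' {k : Type} [Field k] (d : ℕ) (p : PowerSeries k[X]) : PowerSeries k[X] :=
  PowerSeries.mk fun j => reflect d (PowerSeries.coeff j p)

theorem i2_eq_refl {k : Type} [Field k] (d : ℕ) (p : PowerSeries k[X])
    (hp : ∀ j, (PowerSeries.coeff j p).natDegree ≤ d) :
    i2 k p = PowerSeries.C (LaurentPolynomial.T (-(d : ℤ))) * i1 k (refl' d p) := by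
  ext j : 1
  rw [PowerSeries.coeff_C_mul]
  simp only [i1, i2, refl', PowerSeries.coeff_map, PowerSeries.coeff_mk]
  exact invert_toLaurent_eq d _ (hp j)

theorem i1_eq_refl {k : Type} [Field k] (d : ℕ) (p : PowerSeries k[X])
    (hp : ∀ j, (PowerSeries.coeff j p).natDegree ≤ d) :
    i1 k p = PowerSeries.C (LaurentPolynomial.T (d : ℤ)) * i2 k (refl' d p) := by
  ext j : 1
  rw [PowerSeries.coeff_C_mul]
  simp only [i1, i2, refl', PowerSeries.coeff_map, PowerSeries.coeff_mk]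
  exact toLaurent_eq_invert d _ (hp j)

theorem natDegree_reflect_le' {k : Type} [Field k] (d : ℕ) (c : k[X]) (hc : c.natDegree ≤ d) :
    (reflect d c).natDegree ≤ d := by
  rw [natDegree_le_iff_coeff_eq_zero]
  intro N hN
  rw [coeff_reflect, revAt_eq_self_of_lt hN]
  exact coeff_eq_zero_of_natDegree_lt (lt_of_le_of_lt hc hN)

theorem i1_X (k : Type) [Field k] : i1 k PowerSeries.X = PowerSeries.X := by
  simp [i1]

theorem i2_X (k : Type) [Field k] : i2 k PowerSeries.X = PowerSeries.X := by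
  simp [i2]

theorem P1_inf_P2 (k : Type) [Field k] : P1 k ⊓ P2 k = EE k := by
  refine le_antisymm ?_ (le_inf (EE_le_P1 k) (EE_le_P2 k))
  rintro q ⟨hq1, hq2⟩
  have hinj : Function.Injective (algebraMap (RR k) (QQ k)) := IsFractionRing.injective _ _
  obtain ⟨_, ⟨f1, rfl⟩, _, ⟨g1, rfl⟩, hg1, hqa⟩ := mem_fr.1 hq1
  obtain ⟨_, ⟨f2, rfl⟩, _, ⟨g2, rfl⟩, hg2, hqb⟩ := mem_fr.1 hq2
  have hg1' : g1 ≠ 0 := by
    rintro rfl
    exact hg1 (map_zero _)
  have hg2' : g2 ≠ 0 := by
    rintro rfl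
    exact hg2 (map_zero _)
  obtain ⟨m, u, d1, p1, hp1, hp10, hu⟩ := wprep1 k g1 hg1'
  obtain ⟨m', v, d2, p2, hp2, hp20, hv⟩ := wprep1 k g2 hg2'
  set A := algebraMap (RR k) (QQ k) with hA
  have hX0 : A PowerSeries.X ≠ 0 := by
    rw [Ne, map_eq_zero_iff A hinj]
    exact PowerSeries.X_ne_zero
  have hA1 : A (i1 k p1) ≠ 0 := by
    rw [Ne, map_eq_zero_iff A hinj, map_eq_zero_iff (i1 k) (i1_injective k)]
    exact hp10
  have hA2 : A (i2 k p2) ≠ 0 := by
    rw [Ne, map_eq_zero_iff A hinj, map_eq_zero_iff (i2 k) (i2_injective k)]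
    exact hp20
  -- the two expressions of q
  have e1 : q * (A PowerSeries.X ^ m * A (i1 k p1)) =
      A (i1 k (((u⁻¹ : (PowerSeries k[X])ˣ) : PowerSeries k[X]) * f1)) := by
    have h1 : A (i1 k g1) = A PowerSeries.X ^ m * A (i1 k (u : PowerSeries k[X])) *
        A (i1 k p1) := by
      rw [hu]
      simp only [map_mul, map_pow, i1_X]
    have h2 : A (i1 k (u : PowerSeries k[X])) *
        A (i1 k ((u⁻¹ : (PowerSeries k[X])ˣ) : PowerSeries k[X])) = 1 := by
      rw [← map_mul, ← map_mul, Units.mul_inv, map_one, map_one]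
    have h3 : A (i1 k g1) ≠ 0 := by
      rw [Ne, map_eq_zero_iff A hinj]; exact hg1
    have h4 : q * A (i1 k g1) = A (i1 k f1) := by
      rw [hqa]; field_simp
    rw [map_mul, map_mul, ← h4, h1]
    linear_combination (-q * A PowerSeries.X ^ m * A (i1 k p1)) * h2
  have e2 : q * (A PowerSeries.X ^ m' * A (i2 k p2)) =
      A (i2 k (((v⁻¹ : (PowerSeries k[X])ˣ) : PowerSeries k[X]) * f2)) := by
    have h1 : A (i2 k g2) = A PowerSeries.X ^ m' * A (i2 k (v : PowerSeries k[X])) *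
        A (i2 k p2) := by
      rw [hv]
      simp only [map_mul, map_pow, i2_X]
    have h2 : A (i2 k (v : PowerSeries k[X])) *
        A (i2 k ((v⁻¹ : (PowerSeries k[X])ˣ) : PowerSeries k[X])) = 1 := by
      rw [← map_mul, ← map_mul, Units.mul_inv, map_one, map_one]
    have h3 : A (i2 k g2) ≠ 0 := by
      rw [Ne, map_eq_zero_iff A hinj]; exact hg2
    have h4 : q * A (i2 k g2) = A (i2 k f2) := by
      rw [hqb]; field_simp
    rw [map_mul, map_mul, ← h4, h1]
    linear_combination (-q * A PowerSeries.X ^ m' * A (i2 k p2)) * h2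
  set a1 := ((u⁻¹ : (PowerSeries k[X])ˣ) : PowerSeries k[X]) * f1 with ha1
  set a2 := ((v⁻¹ : (PowerSeries k[X])ˣ) : PowerSeries k[X]) * f2 with ha2
  clear_value a1 a2
  -- equality in RR k
  have e3 : i1 k a1 * PowerSeries.X ^ m' * i2 k p2 = i2 k a2 * PowerSeries.X ^ m * i1 k p1 := by
    apply hinj
    simp only [map_mul, map_pow]
    rw [← e1, ← e2]
    ring
  have e4 : PowerSeries.C (LaurentPolynomial.T (-(d2 : ℤ))) *
      i1 k (a1 * PowerSeries.X ^ m' * refl' d2 p2) =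
      PowerSeries.C (LaurentPolynomial.T (d1 : ℤ)) *
      i2 k (a2 * PowerSeries.X ^ m * refl' d1 p1) := by
    rw [i2_eq_refl d2 p2 hp2, i1_eq_refl d1 p1 hp1] at e3
    simp only [map_mul, map_pow, i1_X, i2_X]
    linear_combination e3
  have e5 := two_sided k _ _ _ _ e4
  have e6 : A (PowerSeries.C (LaurentPolynomial.T (-(d2 : ℤ))) *
      i1 k (a1 * PowerSeries.X ^ m' * refl' d2 p2)) =
      q * (A PowerSeries.X ^ m * A (i1 k p1) * (A PowerSeries.X ^ m' * A (i2 k p2))) := by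
    have h1 : PowerSeries.C (LaurentPolynomial.T (-(d2 : ℤ))) *
      i1 k (a1 * PowerSeries.X ^ m' * refl' d2 p2) =
      i1 k a1 * PowerSeries.X ^ m' * i2 k p2 := by
      rw [i2_eq_refl d2 p2 hp2]
      simp only [map_mul, map_pow, i1_X]
      ring
    rw [h1]
    simp only [map_mul, map_pow]
    rw [← e1]
    ring
  rw [← hA, e6] at e5
  have hXE : A PowerSeries.X ∈ EE k := X_mem k
  have h1E : A (i1 k p1) ∈ EE k := by
    refine Subfield.subset_closure ?_
    exact ⟨i1 k p1, i1_mem_S0 k d1 p1 hp1, rfl⟩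
  have h2E : A (i2 k p2) ∈ EE k := by
    rw [i2_eq_refl d2 p2 hp2]
    refine bdd_mem k _ d2 _ fun j => ?_
    rw [refl', PowerSeries.coeff_mk]
    exact natDegree_reflect_le' d2 _ (hp2 j)
  have hden : A PowerSeries.X ^ m * A (i1 k p1) * (A PowerSeries.X ^ m' * A (i2 k p2)) ∈ EE k :=
    mul_mem (mul_mem (pow_mem hXE _) h1E) (mul_mem (pow_mem hXE _) h2E)
  have hden0 : A PowerSeries.X ^ m * A (i1 k p1) * (A PowerSeries.X ^ m' * A (i2 k p2)) ≠ 0 :=
    mul_ne_zero (mul_ne_zero (pow_ne_zero _ hX0) hA1) (mul_ne_zero (pow_ne_zero _ hX0) hA2)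
  have hq : q = q * (A PowerSeries.X ^ m * A (i1 k p1) *
      (A PowerSeries.X ^ m' * A (i2 k p2))) /
      (A PowerSeries.X ^ m * A (i1 k p1) * (A PowerSeries.X ^ m' * A (i2 k p2))) := by
    rw [mul_div_assoc, div_self hden0, mul_one]
  rw [hq]
  exact div_mem e5 hden

end H36.RT
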