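import Pool.Agent.H36.RT.Defs

/-!
# [H36 RT CARTAN] Cartan's lemma for matrices over `k[x, 1/x]⟦t⟧` that are `1` modulo `t`

Proof. Every Laurent polynomial `a` is `toLaurent u + invert (toLaurent v)` with polynomials
`u = A a`, `v = B a` (`LaurentPolynomial.induction_on'` or split the support); we may take
`A 0 = 0` and `B 0 = 0` but this is not needed. Look for `Y = ∑ Y_j t^j`, `Z = ∑ Z_j t^j` with
`Y_0 = Z_0 = 1` and, for `j ≥ 1`,
`X_j = Y_j + Z_j + ∑_{(i, l) ∈ antidiagonal j, i ≠ 0, l ≠ 0} Y_i Z_l` (matrices over the Laurent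
polynomials, `X_j i i' = coeff j (X i i')`): strong recursion on `j`, take for `Y_j` the entrywise
`toLaurent (A _)` and for `Z_j` the entrywise `invert (toLaurent (B _))` of
`X_j - ∑_{i ≠ 0, l ≠ 0} Y_i Z_l`. Then `Y i i' = i1 k (mk (polynomials))`,
`Z i i' = i2 k (mk (polynomials))`, and `X = Y * Z` coefficientwise
(`Matrix.mul_apply`, `map_sum`, `PowerSeries.coeff_mul`, exchange the two sums).
-/

open Polynomial

namespace H36.RT

/-- splitting a Laurent polynomial -/
theorem split_laurent (k : Type) [Field k] (a : LaurentPolynomial k) :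
    ∃ u v : k[X], a = Polynomial.toLaurent u + LaurentPolynomial.invert (Polynomial.toLaurent v) := by
  induction a using LaurentPolynomial.induction_on' with
  | add p q hp hq =>
    obtain ⟨u, v, h⟩ := hp
    obtain ⟨u', v', h'⟩ := hq
    refine ⟨u + u', v + v', ?_⟩
    rw [h, h', map_add, map_add, map_add]
    ring
  | C_mul_T n c =>
    rcases Int.eq_nat_or_neg n with ⟨m, rfl | rfl⟩
    · exact ⟨Polynomial.C c * Polynomial.X ^ m, 0, by simp⟩
    · exact ⟨0, Polynomial.C c * Polynomial.X ^ m, by simp⟩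

/-- definition by strong recursion -/
theorem exists_strong_rec {α : Type} [Inhabited α] (Φ : (ℕ → α) → ℕ → α)
    (h : ∀ f g j, (∀ i < j, f i = g i) → Φ f j = Φ g j) : ∃ f, ∀ j, f j = Φ f j := by
  let F : (j : ℕ) → ((i : ℕ) → i < j → α) → α := fun j g =>
    Φ (fun i => if hi : i < j then g i hi else default) j
  refine ⟨fun j => WellFounded.fix Nat.lt_wfRel.wf F j, fun j => ?_⟩
  have h1 := WellFounded.fix_eq Nat.lt_wfRel.wf F j
  refine h1.trans (h _ _ j fun i hi => ?_)
  rw [dif_pos hi]

/-- the recursion -/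
theorem cartan_rec (k : Type) [Field k] (n : ℕ)
    (W : ℕ → Matrix (Fin n) (Fin n) (LaurentPolynomial k)) :
    ∃ U V : ℕ → Matrix (Fin n) (Fin n) k[X], ∀ j,
      W j = ∑ x ∈ Finset.HasAntidiagonal.antidiagonal (j + 1),
        (if x.1 = 0 then 1 else (U (x.1 - 1)).map Polynomial.toLaurent) *
        (if x.2 = 0 then 1 else (V (x.2 - 1)).map
          (fun p => LaurentPolynomial.invert (Polynomial.toLaurent p))) := by
  classical
  choose A B hAB using split_laurent k
  -- the sum of the middle terms
  let mid : (ℕ → Matrix (Fin n) (Fin n) k[X] × Matrix (Fin n) (Fin n) k[X]) → ℕ →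
      Matrix (Fin n) (Fin n) (LaurentPolynomial k) := fun f j =>
    ∑ x ∈ (Finset.HasAntidiagonal.antidiagonal (j + 1)).filter (fun x => x.1 ≠ 0 ∧ x.2 ≠ 0),
      ((f (x.1 - 1)).1.map Polynomial.toLaurent) *
      ((f (x.2 - 1)).2.map (fun p => LaurentPolynomial.invert (Polynomial.toLaurent p)))
  have hmid : ∀ f g j, (∀ i < j, f i = g i) → mid f j = mid g j := by
    intro f g j hfg
    refine Finset.sum_congr rfl fun x hx => ?_
    rw [Finset.mem_filter, Finset.HasAntidiagonal.mem_antidiagonal] at hx
    rw [hfg (x.1 - 1) (by omega), hfg (x.2 - 1) (by omega)]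
  obtain ⟨f, hf⟩ := exists_strong_rec (fun f j => ((W j - mid f j).map A, (W j - mid f j).map B))
    (fun f g j hfg => by simp only [hmid f g j hfg])
  refine ⟨fun j => (f j).1, fun j => (f j).2, fun j => ?_⟩
  have h1 : W j - mid f j = ((f j).1.map Polynomial.toLaurent) +
      ((f j).2.map (fun p => LaurentPolynomial.invert (Polynomial.toLaurent p))) := by
    rw [hf j]
    ext a b : 1
    simp only [Matrix.add_apply, Matrix.map_apply]
    exact hAB _
  have h2 : W j = mid f j + ((f j).1.map Polynomial.toLaurent +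
      (f j).2.map (fun p => LaurentPolynomial.invert (Polynomial.toLaurent p))) := by
    rw [← h1]
    abel
  rw [h2, ← Finset.sum_filter_add_sum_filter_not (Finset.HasAntidiagonal.antidiagonal (j + 1))
    (fun x => x.1 ≠ 0 ∧ x.2 ≠ 0)]
  congr 1
  · refine Finset.sum_congr rfl fun x hx => ?_
    rw [Finset.mem_filter] at hx
    rw [if_neg hx.2.1, if_neg hx.2.2]
  · have h3 : (Finset.HasAntidiagonal.antidiagonal (j + 1)).filter (fun x => ¬ (x.1 ≠ 0 ∧ x.2 ≠ 0)) =
        {(j + 1, 0), (0, j + 1)} := by
      ext x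
      rw [Finset.mem_filter, Finset.HasAntidiagonal.mem_antidiagonal, Finset.mem_insert, Finset.mem_singleton,
        Prod.ext_iff, Prod.ext_iff]
      simp only
      omega
    rw [h3, Finset.sum_pair (by simp)]
    simp

theorem cartan (k : Type) [Field k] (n : ℕ) (X : Matrix (Fin n) (Fin n) (RR k))
    (hX : ∀ i j, PowerSeries.constantCoeff (X i j) = (1 : Matrix (Fin n) (Fin n) _) i j) :
    ∃ Y Z : Matrix (Fin n) (Fin n) (RR k), (∀ i j, Y i j ∈ S1 k) ∧ (∀ i j, Z i j ∈ S2 k) ∧
      X = Y * Z := by
  obtain ⟨U, V, hUV⟩ := cartan_rec k n (fun j => Matrix.of fun a b =>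
    PowerSeries.coeff (j + 1) (X a b))
  refine ⟨Matrix.of fun a b => i1 k (PowerSeries.mk fun j =>
      if j = 0 then (1 : Matrix (Fin n) (Fin n) k[X]) a b else U (j - 1) a b),
    Matrix.of fun a b => i2 k (PowerSeries.mk fun j =>
      if j = 0 then (1 : Matrix (Fin n) (Fin n) k[X]) a b else V (j - 1) a b),
    fun a b => ⟨_, rfl⟩, fun a b => ⟨_, rfl⟩, ?_⟩
  ext a b : 1
  refine PowerSeries.ext (R := LaurentPolynomial k) fun j => ?_
  rw [Matrix.mul_apply, map_sum]
  simp only [Matrix.of_apply, PowerSeries.coeff_mul, i1, i2, PowerSeries.coeff_map,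
    PowerSeries.coeff_mk]
  rcases j with _ | j
  · have h1 := hX a b
    rw [← PowerSeries.coeff_zero_eq_constantCoeff_apply] at h1
    rw [h1]
    simp only [Finset.Nat.antidiagonal_zero, Finset.sum_singleton, if_true]
    by_cases hab : a = b
    · subst hab
      rw [Finset.sum_eq_single a]
      · simp
      · intro c _ hc
        simp [Matrix.one_apply_ne hc.symm]
      · simp
    · rw [Matrix.one_apply_ne hab]
      symm
      refine Finset.sum_eq_zero fun c _ => ?_
      by_cases hc : a = c
      · subst hc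
        simp [Matrix.one_apply_ne hab]
      · simp [Matrix.one_apply_ne hc]
  · have h1 := congrFun (congrFun (hUV j) a) b
    simp only [Matrix.of_apply] at h1
    rw [h1, Matrix.sum_apply, Finset.sum_comm]
    refine Finset.sum_congr rfl fun x _ => ?_
    rw [Matrix.mul_apply]
    refine Finset.sum_congr rfl fun c _ => ?_
    congr 1
    · by_cases hx : x.1 = 0
      · rw [if_pos hx, if_pos hx]
        by_cases hac : a = c
        · subst hac; simp
        · simp [Matrix.one_apply_ne hac]
      · rw [if_neg hx, if_neg hx]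
        rfl
    · by_cases hx : x.2 = 0
      · rw [if_pos hx, if_pos hx]
        by_cases hac : c = b
        · subst hac; simp
        · simp [Matrix.one_apply_ne hac]
      · rw [if_neg hx, if_neg hx]
        rfl

end H36.RT
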