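import Pool.Agent.H36.RT.WPrep
import Pool.Agent.H36.RT.Cartan
import Pool.Agent.H36.RT.Bdd

/-!
# [H36 RT K2] factorisation of invertible matrices over `Q`

Proof. Let `M` be invertible over `Q = QQ k`. The entries of `M` and `M⁻¹` have a common denominator
`h ∈ RR k`, `h ≠ 0` (`IsLocalization.exist_integer_multiples_of_finset` or induction); by `wprep`
`h = t^m u (i1 p)` with a unit `u`, and we may replace `h` by `h u⁻¹ = t^m i1 p`. So
`h M = B'`, `h M⁻¹ = B''` with matrices over `RR k`, and `B' B'' = h² = t^(2m) i1 (p²)`.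
`p²` satisfies the hypotheses of `div_laurent` with `2 d`. For each entry `b` of `B''`:
`b = q * i1 (p²) + i1 r`, the coefficients of `r` of degree `≤ 2 d`. Split
`q = q' + t^(2m+1) q''` with `q'` a polynomial in `t` of degree `≤ 2m` over `k[x,1/x]` (`PowerSeries.trunc`
or `PowerSeries.X_pow_dvd_iff`: `q' = mk (fun j => if j < 2m+1 then coeff j q else 0)`). Then
`c := q' * i1 (p²) + i1 r` has image in `EE k`: all coefficients of `q'` are
`T(-N) * toLaurent (polynomial of degree ≤ N')` for a common `N, N'` (finitely many nonzero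
coefficients), so `q' i1(p²)` is as in `bdd_mem`; and `b = c + t^(2m+1) i1 (p²) q'' = c + t h² q''`.
So `B'' = C' + t h² N'` with `C'` over `EE k` and `N'` over `RR k`. Put `C = C'/h`. Then
`M C = (B'/h)(B'' - t h² N')/h = 1 - t B' N'`, to which `cartan` applies:
`M C = A Z`, `A` over `P1 k`, `Z` over `P2 k` (`i1`/`i2` images: `mem_fr` with denominator `1`).
`det (1 - t B' N')` is a unit of `RR k` (constant coefficient `1`), so `det C ≠ 0` and `C⁻¹` has
entries in `EE k ≤ P2 k` (a matrix over the subfield `EE k`: `Matrix.map` of an invertible matrix over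
`EE k`, or `C⁻¹ = (det C)⁻¹ • adjugate C`), and `M = A (Z C⁻¹)`.
-/

open Polynomial

namespace H36.RT

theorem fr_of_mem {A : Type} [CommRing A] [IsDomain A] {S : Subring A} {a : A} (ha : a ∈ S) :
    algebraMap A (FractionRing A) a ∈ fr S :=
  Subfield.subset_closure ⟨a, ha, rfl⟩

theorem C_mem_EE (k : Type) [Field k] (a : LaurentPolynomial k) :
    algebraMap (RR k) (QQ k) (PowerSeries.C a) ∈ EE k := by
  induction a using LaurentPolynomial.induction_on' with
  | add p q hp hq =>
    rw [map_add, map_add]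
    exact (EE k).add_mem hp hq
  | C_mul_T n c =>
    rw [map_mul, map_mul]
    refine (EE k).mul_mem (fr_of_mem ?_) (T_mem k n)
    refine ⟨Polynomial.C (PowerSeries.C c), ?_⟩
    simp [i0]

theorem trunc_mem_EE (k : Type) [Field k] (q : RR k) (s : ℕ) :
    ∃ q' q'' : RR k, algebraMap (RR k) (QQ k) q' ∈ EE k ∧ q = q' + PowerSeries.X ^ s * q'' := by
  induction s generalizing q with
  | zero => exact ⟨0, q, by simp [(EE k).zero_mem], by simp⟩
  | succ s ih =>
    obtain ⟨a, b, ha, hb⟩ := ih q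
    refine ⟨a + PowerSeries.X ^ s * PowerSeries.C (PowerSeries.constantCoeff b),
      PowerSeries.mk fun i => PowerSeries.coeff (i + 1) b, ?_, ?_⟩
    · rw [map_add, map_mul, map_pow]
      exact (EE k).add_mem ha ((EE k).mul_mem ((EE k).pow_mem (X_mem k) s) (C_mem_EE k _))
    · rw [hb]
      have h := PowerSeries.eq_X_mul_shift_add_const b
      rw [pow_succ]
      nth_rewrite 1 [h]
      ring

theorem split_EE (k : Type) [Field k] (d : ℕ) (p : PowerSeries k[X])
    (hp : ∀ j, (PowerSeries.coeff j p).natDegree ≤ d)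
    (hd : (PowerSeries.constantCoeff p).natDegree = d)
    (h0 : (PowerSeries.constantCoeff p).coeff 0 ≠ 0) (s : ℕ) (b : RR k) :
    ∃ c q : RR k, algebraMap (RR k) (QQ k) c ∈ EE k ∧
      b = c + PowerSeries.X ^ s * i1 k p * q := by
  obtain ⟨q, r, hr, hb⟩ := div_laurent k d p hp hd h0 b
  obtain ⟨q', q'', hq', hq⟩ := trunc_mem_EE k q s
  refine ⟨q' * i1 k p + i1 k r, q'', ?_, ?_⟩
  · rw [map_add, map_mul]
    exact (EE k).add_mem ((EE k).mul_mem hq' (fr_of_mem (i1_mem_S0 k d p hp)))
      (fr_of_mem (i1_mem_S0 k d r hr))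
  · rw [hb, hq]
    ring

theorem factor_P1_P2 (k : Type) [Field k] : Factor (P1 k) (P2 k) := by
  intro n M hM
  set φ := algebraMap (RR k) (QQ k) with hφ
  have hinj : Function.Injective φ := IsFractionRing.injective (RR k) (QQ k)
  have hMunit : IsUnit M.det := isUnit_iff_ne_zero.2 hM
  -- common denominator
  obtain ⟨h, hh⟩ := IsLocalization.exist_integer_multiples_of_finite (S := QQ k)
    (nonZeroDivisors (RR k)) (ι := (Fin n × Fin n) ⊕ (Fin n × Fin n))
    (Sum.elim (fun x => M x.1 x.2) (fun x => M⁻¹ x.1 x.2))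
  have hh0 : (h : RR k) ≠ 0 := nonZeroDivisors.ne_zero h.2
  obtain ⟨m, u, d, p, hp, hd, h0, hhp⟩ := wprep k h hh0
  set H : RR k := PowerSeries.X ^ m * i1 k p with hH
  have hHu : H = (h : RR k) * ((u⁻¹ : (RR k)ˣ) : RR k) := by
    rw [hhp, hH]
    have : (u : RR k) * ((u⁻¹ : (RR k)ˣ) : RR k) = 1 := u.mul_inv
    calc PowerSeries.X ^ m * i1 k p = PowerSeries.X ^ m * i1 k p * 1 := by ring
      _ = PowerSeries.X ^ m * i1 k p * ((u : RR k) * ((u⁻¹ : (RR k)ˣ) : RR k)) := by rw [this]
      _ = _ := by ring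
  have hH0 : H ≠ 0 := by
    rw [hHu]
    exact mul_ne_zero hh0 (Units.ne_zero _)
  have hφH : φ H ≠ 0 := by
    intro h'
    exact hH0 (hinj (by rw [h', map_zero]))
  have hB1 : ∀ i j, ∃ b : RR k, φ b = φ H * M i j := by
    intro i j
    obtain ⟨b, hb⟩ := hh (Sum.inl (i, j))
    refine ⟨((u⁻¹ : (RR k)ˣ) : RR k) * b, ?_⟩
    simp only [Sum.elim_inl, Algebra.smul_def] at hb
    rw [map_mul, hHu, map_mul, hb]
    ring
  have hB2 : ∀ i j, ∃ b : RR k, φ b = φ H * M⁻¹ i j := by
    intro i j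
    obtain ⟨b, hb⟩ := hh (Sum.inr (i, j))
    refine ⟨((u⁻¹ : (RR k)ˣ) : RR k) * b, ?_⟩
    simp only [Sum.elim_inr, Algebra.smul_def] at hb
    rw [map_mul, hHu, map_mul, hb]
    ring
  choose B' hB' using hB1
  choose B'' hB'' using hB2
  -- division by the square
  have hp2 : ∀ j, (PowerSeries.coeff j (p ^ 2)).natDegree ≤ 2 * d := by
    intro j
    rw [sq, PowerSeries.coeff_mul]
    refine Polynomial.natDegree_sum_le_of_forall_le _ _ fun x _ => ?_
    refine (Polynomial.natDegree_mul_le).trans ?_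
    have := hp x.1
    have := hp x.2
    omega
  have hc2 : PowerSeries.constantCoeff (p ^ 2) = (PowerSeries.constantCoeff p) ^ 2 := map_pow _ _ _
  have hd2 : (PowerSeries.constantCoeff (p ^ 2)).natDegree = 2 * d := by
    rw [hc2, Polynomial.natDegree_pow, hd]
  have h02 : (PowerSeries.constantCoeff (p ^ 2)).coeff 0 ≠ 0 := by
    rw [hc2, Polynomial.coeff_zero_eq_eval_zero, Polynomial.eval_pow,
      ← Polynomial.coeff_zero_eq_eval_zero]
    exact pow_ne_zero _ h0
  have hsp : ∀ i j, ∃ c q : RR k, φ c ∈ EE k ∧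
      B'' i j = c + PowerSeries.X ^ (2 * m + 1) * i1 k (p ^ 2) * q := fun i j =>
    split_EE k (2 * d) (p ^ 2) hp2 hd2 h02 (2 * m + 1) (B'' i j)
  choose C' N' hC' hCN using hsp
  have hsq : PowerSeries.X ^ (2 * m + 1) * i1 k (p ^ 2) = PowerSeries.X * H ^ 2 := by
    rw [hH, map_pow]; ring
  -- matrices
  set Bm : Matrix (Fin n) (Fin n) (RR k) := Matrix.of B' with hBm
  set Nm : Matrix (Fin n) (Fin n) (RR k) := Matrix.of N' with hNm
  set Cm : Matrix (Fin n) (Fin n) (QQ k) := Matrix.of fun i j => (φ H)⁻¹ * φ (C' i j) with hCm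
  set Xm : Matrix (Fin n) (Fin n) (RR k) := 1 - (PowerSeries.X : RR k) • (Bm * Nm) with hXm
  have hBm' : Bm.map φ = φ H • M := by
    ext i j
    simp only [hBm, Matrix.map_apply, Matrix.of_apply, Matrix.smul_apply, smul_eq_mul]
    exact hB' i j
  have hCm' : Cm = M⁻¹ - (φ PowerSeries.X * φ H) • Nm.map φ := by
    ext i j
    simp only [hCm, hNm, Matrix.map_apply, Matrix.of_apply, Matrix.smul_apply, smul_eq_mul,
      Matrix.sub_apply]
    have e1 := hB'' i j
    rw [hCN i j, hsq] at e1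
    have e2 : φ (C' i j) = φ H * M⁻¹ i j - φ PowerSeries.X * φ H ^ 2 * φ (N' i j) := by
      rw [← e1, map_add, map_mul, map_mul, map_pow]
      ring
    rw [e2]
    field_simp
  have hMC : M * Cm = Xm.map φ := by
    have e1 : Xm.map φ = 1 - φ PowerSeries.X • (Bm.map φ * Nm.map φ) := by
      have : Xm.map φ = φ.mapMatrix Xm := rfl
      rw [this, hXm, map_sub, map_one]
      congr 1
      ext i j
      simp [Matrix.mul_apply, map_sum, map_mul]
    rw [e1, hBm', hCm', Matrix.mul_sub, Matrix.mul_nonsing_inv M hMunit, Matrix.mul_smul,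
      Matrix.smul_mul, smul_smul]
  have hXc : ∀ i j, PowerSeries.constantCoeff (Xm i j) = (1 : Matrix (Fin n) (Fin n) _) i j := by
    intro i j
    simp only [hXm, Matrix.sub_apply, Matrix.smul_apply, smul_eq_mul, map_sub, map_mul,
      PowerSeries.constantCoeff_X, zero_mul, sub_zero]
    by_cases hij : i = j
    · subst hij; simp
    · simp [Matrix.one_apply_ne hij]
  obtain ⟨Y, Z, hY, hZ, hYZ⟩ := cartan k n Xm hXc
  -- determinant
  have hdet : Xm.det ≠ 0 := by
    intro h'
    have e1 : PowerSeries.constantCoeff Xm.det = (Xm.map (PowerSeries.constantCoeff)).det :=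
      RingHom.map_det _ _
    have e2 : Xm.map (PowerSeries.constantCoeff) = 1 := by
      ext i j : 1
      rw [Matrix.map_apply, hXc]
    rw [h', map_zero, e2, Matrix.det_one] at e1
    exact zero_ne_one e1
  -- the matrix over `E`
  have hHE : φ H ∈ EE k := by
    rw [hH, map_mul, map_pow]
    exact (EE k).mul_mem ((EE k).pow_mem (X_mem k) m) (fr_of_mem (i1_mem_S0 k d p hp))
  let C0 : Matrix (Fin n) (Fin n) (EE k) := Matrix.of fun i j =>
    ⟨Cm i j, (EE k).mul_mem ((EE k).inv_mem hHE) (hC' i j)⟩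
  have hC0 : C0.map (EE k).subtype = Cm := by
    ext i j
    rfl
  have hdC : C0.det ≠ 0 := by
    intro h'
    have e1 : (EE k).subtype C0.det = (C0.map (EE k).subtype).det := RingHom.map_det _ _
    rw [h', map_zero, hC0] at e1
    have e2 : (M * Cm).det = φ Xm.det := by
      rw [hMC]
      exact (RingHom.map_det φ Xm).symm
    rw [Matrix.det_mul, ← e1, mul_zero] at e2
    exact hdet (hinj (by rw [map_zero]; exact e2.symm))
  set D : Matrix (Fin n) (Fin n) (QQ k) := C0⁻¹.map (EE k).subtype with hD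
  have hCD : Cm * D = 1 := by
    have e1 := Matrix.mul_nonsing_inv C0 (isUnit_iff_ne_zero.2 hdC)
    have e2 := congrArg ((EE k).subtype.mapMatrix) e1
    rw [map_mul, map_one] at e2
    have e3 : (EE k).subtype.mapMatrix C0 = Cm := hC0
    rw [e3] at e2
    exact e2
  refine ⟨Y.map φ, Z.map φ * D, fun i j => fr_of_mem (hY i j), ?_, ?_⟩
  · intro i j
    rw [Matrix.mul_apply]
    refine (P2 k).sum_mem fun l _ => (P2 k).mul_mem (fr_of_mem (hZ i l)) (EE_le_P2 k ?_)
    exact (C0⁻¹ l j).2
  · have e1 : Xm.map φ = Y.map φ * Z.map φ := by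
      rw [hYZ, Matrix.map_mul]
    calc M = M * (Cm * D) := by rw [hCD, Matrix.mul_one]
      _ = M * Cm * D := by rw [Matrix.mul_assoc]
      _ = Y.map φ * Z.map φ * D := by rw [hMC, e1]
      _ = _ := by rw [Matrix.mul_assoc]

end H36.RT
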