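import Pool.Agent.H36.RT.Defs

/-!
# [H36 RT MAP] transport of `RealIn` along a homomorphism of fields

Proof. Let `L` be the given intermediate field of `E ⊆ Q`. `L' := φ(L)` (`L.toSubfield.map φ`)
contains `E' = φ(E)`, so it is an intermediate field of `E' ⊆ Q'`. `φ` induces ring isomorphisms
`E ≃+* E'` and `L ≃+* L'` compatible with the inclusions. Finite dimension, normality and
separability are transported (`IsGalois.of_equiv_equiv` or the like), and the Galois groups are
isomorphic by conjugation (construct the `MulEquiv` by hand: `τ ↦ e.symm.trans (τ.trans e)`).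
-/

namespace H36.RT

/-- The ring isomorphism of a subfield with its image. -/
noncomputable def sfEquiv {Q Q' : Type} [Field Q] [Field Q'] (φ : Q →+* Q') (S : Subfield Q) :
    S ≃+* S.map φ :=
  RingEquiv.ofBijective
    ((φ.comp S.subtype).codRestrict (S.map φ) (fun x => ⟨x, x.2, rfl⟩))
    ⟨fun a b h => Subtype.ext (φ.injective (congrArg Subtype.val h)), by
      rintro ⟨_, x, hx, rfl⟩
      exact ⟨⟨x, hx⟩, rfl⟩⟩

theorem sfEquiv_coe {Q Q' : Type} [Field Q] [Field Q'] (φ : Q →+* Q') (S : Subfield Q) (x : S) :
    ((sfEquiv φ S x : S.map φ) : Q') = φ x := rfl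

theorem RealIn.map {Q Q' : Type} [Field Q] [Field Q'] (φ : Q →+* Q') {E P : Subfield Q}
    {E' P' : Subfield Q'} (hE : E.map φ = E') (hP : P.map φ ≤ P') {G : Type} [Group G]
    (h : RealIn E P G) : RealIn E' P' G := by
  subst hE
  obtain ⟨L, hLP, hfin, hgal, ⟨e⟩⟩ := h
  let L' : IntermediateField (E.map φ) Q' :=
    (L.toSubfield.map φ).toIntermediateField (by
      rintro ⟨_, x, hx, rfl⟩
      exact ⟨x, L.algebraMap_mem ⟨x, hx⟩, rfl⟩)
  let f : E ≃+* E.map φ := sfEquiv φ E
  let g : L ≃+* L' := sfEquiv φ L.toSubfield
  have hcomp : (algebraMap (E.map φ) L').comp (f : E →+* E.map φ) =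
      (g : L →+* L').comp (algebraMap E L) := by
    ext x
    rfl
  refine ⟨L', ?_, ?_, ?_, ?_⟩
  · rintro _ ⟨x, hx, rfl⟩
    exact hP ⟨x, hLP hx, rfl⟩
  · exact Module.Finite.of_equiv_equiv f g hcomp
  · exact IsGalois.of_equiv_equiv hcomp
  · have hcomp' : ∀ x : E, g (algebraMap E L x) = algebraMap (E.map φ) L' (f x) := fun x => rfl
    let Ψ : Gal(L/E) ≃* Gal(L'/E.map φ) :=
      { toFun := fun τ => AlgEquiv.ofRingEquiv (f := (g.symm.trans τ.toRingEquiv).trans g) (by
          intro x
          obtain ⟨y, rfl⟩ := f.surjective x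
          simp only [RingEquiv.trans_apply]
          rw [← hcomp', RingEquiv.symm_apply_apply]
          congr 1
          exact τ.commutes y)
        invFun := fun τ => AlgEquiv.ofRingEquiv (f := (g.trans τ.toRingEquiv).trans g.symm) (by
          intro x
          simp only [RingEquiv.trans_apply]
          rw [hcomp']
          have : τ.toRingEquiv (algebraMap (E.map φ) L' (f x)) =
            algebraMap (E.map φ) L' (f x) := τ.commutes _
          rw [this, ← hcomp', RingEquiv.symm_apply_apply])
        left_inv := by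
          intro τ
          ext x
          simp [AlgEquiv.ofRingEquiv]
        right_inv := by
          intro τ
          ext x
          simp [AlgEquiv.ofRingEquiv]
        map_mul' := by
          intro τ σ
          ext x
          simp [AlgEquiv.ofRingEquiv] }
    exact ⟨Ψ.symm.trans e⟩

end H36.RT
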