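import Pool.Agent.H36.RT.NN

/-!
# [H36 RT GLUE] the glued extension

Proof. Let `F = NN G1 Q1 α ∩ NN G2 Q2 β`, a subring of `G → Q` (pointwise operations; `α τ`, `β τ`
are ring automorphisms). For `φ ∈ F` the set `{θ | φ θ = 0}` is stable under right multiplication by
`G1` and `G2`, hence by `G` (`G1 ⊔ G2 = ⊤`, `Subgroup.closure_induction` or
`Subgroup.mem_sup`-induction), so `φ = 0` or `φ θ ≠ 0` for all `θ`; in the second case the pointwise
inverse is in `F`. So evaluation at `1` is an injective ring homomorphism `F → Q` and its range is a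
subfield `L` of `Q`; it contains `E` (the constant functions with values in `E = P ⊓ P'` are in `F`),
so `L` is an intermediate field. `G` acts on `F` by `(g φ) θ = φ (g⁻¹ θ)`, by ring automorphisms, so
on `L` (transport). The action is faithful: if `g` acts trivially then all `φ ∈ F`, hence all
functions in the span `⊤`, satisfy `φ (g⁻¹ θ) = φ θ`; take `Pi.single`. Fixed elements: `φ` constant,
with value `c = φ 1 ∈ Q1 ⊓ Q2`, `c = α τ⁻¹ c` for all `τ`, so `c ∈ P`, and `c ∈ P'`, so `c ∈ E`; in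
particular `E` is exactly the fixed field. By Artin's theorem `L/E` is finite Galois with group `G`
(`FixedPoints.subfield`, `FixedPoints.toAlgAutMulEquiv`, `IsGalois.of_fixedField...` /
`IsGaloisGroup`; `G` finite).
-/

namespace H36.RT

section NNr

variable {Q G : Type} [Field Q] [Group G] (G1 : Subgroup G) (Q1 : Subfield Q)
    (α : G1 →* (Q1 ≃+* Q1))

/-- `NN` as a subring of `G → Q`. -/
def NNr : Subring (G → Q) where
  carrier := NN G1 Q1 α
  mul_mem' := by
    rintro φ ψ ⟨h, hh⟩ ⟨k, kk⟩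
    refine ⟨fun θ => Q1.mul_mem (h θ) (k θ), fun θ τ => ?_⟩
    have e1 : (⟨(φ * ψ) θ, Q1.mul_mem (h θ) (k θ)⟩ : Q1) = ⟨φ θ, h θ⟩ * ⟨ψ θ, k θ⟩ := rfl
    rw [e1, map_mul, Pi.mul_apply, hh, kk]
    rfl
  one_mem' := by
    refine ⟨fun θ => Q1.one_mem, fun θ τ => ?_⟩
    have e1 : (⟨(1 : G → Q) θ, Q1.one_mem⟩ : Q1) = 1 := rfl
    rw [e1, map_one]
    rfl
  add_mem' := by
    rintro φ ψ ⟨h, hh⟩ ⟨k, kk⟩
    refine ⟨fun θ => Q1.add_mem (h θ) (k θ), fun θ τ => ?_⟩
    have e1 : (⟨(φ + ψ) θ, Q1.add_mem (h θ) (k θ)⟩ : Q1) = ⟨φ θ, h θ⟩ + ⟨ψ θ, k θ⟩ := rfl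
    rw [e1, map_add, Pi.add_apply, hh, kk]
    rfl
  zero_mem' := by
    refine ⟨fun θ => Q1.zero_mem, fun θ τ => ?_⟩
    have e1 : (⟨(0 : G → Q) θ, Q1.zero_mem⟩ : Q1) = 0 := rfl
    rw [e1, map_zero]
    rfl
  neg_mem' := by
    rintro φ ⟨h, hh⟩
    refine ⟨fun θ => Q1.neg_mem (h θ), fun θ τ => ?_⟩
    have e1 : (⟨(-φ) θ, Q1.neg_mem (h θ)⟩ : Q1) = -⟨φ θ, h θ⟩ := rfl
    rw [e1, map_neg, Pi.neg_apply, hh]
    rfl

theorem mem_NNr {φ : G → Q} : φ ∈ NNr G1 Q1 α ↔ φ ∈ NN G1 Q1 α := Iff.rfl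

theorem NN_inv {φ : G → Q} (h : φ ∈ NN G1 Q1 α) : (fun θ => (φ θ)⁻¹) ∈ NN G1 Q1 α := by
  obtain ⟨h, hh⟩ := h
  refine ⟨fun θ => Q1.inv_mem (h θ), fun θ τ => ?_⟩
  have e1 : (⟨(φ θ)⁻¹, Q1.inv_mem (h θ)⟩ : Q1) = ⟨φ θ, h θ⟩⁻¹ := rfl
  simp only
  rw [e1, map_inv₀, hh]
  rfl

theorem NN_shift (g : G) {φ : G → Q} (h : φ ∈ NN G1 Q1 α) :
    (fun θ => φ (g⁻¹ * θ)) ∈ NN G1 Q1 α := by
  obtain ⟨h, hh⟩ := h
  refine ⟨fun θ => h _, fun θ τ => ?_⟩
  simp only
  rw [← mul_assoc, hh]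

theorem NN_const {c : Q} (hc : c ∈ Q1) (hfix : ∀ τ, α τ ⟨c, hc⟩ = ⟨c, hc⟩) :
    (fun _ => c) ∈ NN G1 Q1 α := by
  refine ⟨fun _ => hc, fun θ τ => ?_⟩
  simp only
  rw [hfix]

theorem NN_zero_iff {φ : G → Q} (h : φ ∈ NN G1 Q1 α) (τ : G1) (θ : G) :
    φ (θ * τ) = 0 ↔ φ θ = 0 := by
  obtain ⟨h, hh⟩ := h
  rw [hh, ZeroMemClass.coe_eq_zero, map_eq_zero_iff _ (α τ⁻¹).injective]
  constructor
  · intro h1
    exact congrArg Subtype.val h1
  · intro h1
    exact Subtype.ext h1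

end NNr

theorem NN_zero {Q G : Type} [Field Q] [Group G] (G1 G2 : Subgroup G) (hG : G1 ⊔ G2 = ⊤)
    (Q1 Q2 : Subfield Q) (α : G1 →* (Q1 ≃+* Q1)) (β : G2 →* (Q2 ≃+* Q2)) {φ : G → Q}
    (h1 : φ ∈ NN G1 Q1 α) (h2 : φ ∈ NN G2 Q2 β) {θ : G} (h : φ θ = 0) : φ = 0 := by
  let H : Subgroup G :=
    { carrier := {g | ∀ θ, φ (θ * g) = 0 ↔ φ θ = 0}
      mul_mem' := by
        intro a b ha hb θ
        rw [← mul_assoc, hb, ha]
      one_mem' := by
        intro θ
        rw [mul_one]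
      inv_mem' := by
        intro a ha θ
        have := ha (θ * a⁻¹)
        rw [inv_mul_cancel_right] at this
        exact this.symm }
  have hH : H = ⊤ := by
    rw [eq_top_iff, ← hG]
    apply sup_le
    · intro g hg
      exact NN_zero_iff G1 Q1 α h1 ⟨g, hg⟩
    · intro g hg
      exact NN_zero_iff G2 Q2 β h2 ⟨g, hg⟩
  funext θ'
  have h3 : θ⁻¹ * θ' ∈ H := by rw [hH]; trivial
  have h4 := (h3 θ).2 h
  rw [mul_inv_cancel_left] at h4
  exact h4

theorem glue {Q G : Type} [Field Q] [Group G] [Finite G] (E P P' : Subfield Q) (hE : P ⊓ P' = E)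
    (G1 G2 : Subgroup G) (hG : G1 ⊔ G2 = ⊤) (Q1 Q2 : Subfield Q)
    (α : G1 →* (Q1 ≃+* Q1)) (β : G2 →* (Q2 ≃+* Q2)) (h1 : P ≤ Q1) (h2 : P' ≤ Q2)
    (hα : ∀ x : Q1, (x : Q) ∈ P ↔ ∀ τ, α τ x = x)
    (hβ : ∀ x : Q2, (x : Q) ∈ P' ↔ ∀ τ, β τ x = x)
    (hs : Submodule.span Q (NN G1 Q1 α ∩ NN G2 Q2 β) = ⊤) :
    RealIn E ⊤ G := by
  classical
  let F : Subring (G → Q) := NNr G1 Q1 α ⊓ NNr G2 Q2 β
  have hconst : ∀ c ∈ E, (fun _ => c) ∈ F := by
    intro c hc
    rw [← hE] at hc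
    exact ⟨NN_const G1 Q1 α (h1 hc.1) ((hα ⟨c, h1 hc.1⟩).1 hc.1),
      NN_const G2 Q2 β (h2 hc.2) ((hβ ⟨c, h2 hc.2⟩).1 hc.2)⟩
  let L : IntermediateField E Q :=
    { carrier := {x | ∃ φ ∈ F, φ 1 = x}
      mul_mem' := by
        rintro _ _ ⟨φ, hφ, rfl⟩ ⟨ψ, hψ, rfl⟩
        exact ⟨φ * ψ, F.mul_mem hφ hψ, rfl⟩
      add_mem' := by
        rintro _ _ ⟨φ, hφ, rfl⟩ ⟨ψ, hψ, rfl⟩
        exact ⟨φ + ψ, F.add_mem hφ hψ, rfl⟩
      algebraMap_mem' := fun c => ⟨_, hconst c c.2, rfl⟩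
      inv_mem' := by
        rintro _ ⟨φ, hφ, rfl⟩
        exact ⟨_, ⟨NN_inv G1 Q1 α hφ.1, NN_inv G2 Q2 β hφ.2⟩, rfl⟩ }
  let f : F →+* L :=
    { toFun := fun φ => ⟨φ.1 1, φ.1, φ.2, rfl⟩
      map_one' := rfl
      map_mul' := fun _ _ => rfl
      map_zero' := rfl
      map_add' := fun _ _ => rfl }
  have hf : Function.Bijective f := by
    constructor
    · rw [injective_iff_map_eq_zero]
      intro φ hφ
      have h3 : φ.1 1 = 0 := congrArg Subtype.val hφ
      exact Subtype.ext (NN_zero G1 G2 hG Q1 Q2 α β φ.2.1 φ.2.2 h3)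
    · rintro ⟨_, φ, hφ, rfl⟩
      exact ⟨⟨φ, hφ⟩, rfl⟩
  let e : F ≃+* L := RingEquiv.ofBijective f hf
  have he : ∀ φ : F, ((e φ : L) : Q) = φ.1 1 := fun φ => rfl
  let actF : G → F → F := fun g φ =>
    ⟨fun θ => φ.1 (g⁻¹ * θ), NN_shift G1 Q1 α g φ.2.1, NN_shift G2 Q2 β g φ.2.2⟩
  have hact : ∀ g (φ : F) θ, (actF g φ).1 θ = φ.1 (g⁻¹ * θ) := fun _ _ _ => rfl
  let act : MulSemiringAction G L :=
    { smul := fun g x => e (actF g (e.symm x))
      one_smul := by
        intro x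
        change e (actF 1 (e.symm x)) = x
        have : actF 1 (e.symm x) = e.symm x := by
          apply Subtype.ext
          funext θ
          rw [hact, inv_one, one_mul]
        rw [this, e.apply_symm_apply]
      mul_smul := by
        intro g h x
        change e (actF (g * h) (e.symm x)) = e (actF g (e.symm (e (actF h (e.symm x)))))
        rw [e.symm_apply_apply]
        congr 1
        apply Subtype.ext
        funext θ
        rw [hact, hact, hact, mul_inv_rev, mul_assoc]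
      smul_zero := by
        intro g
        change e (actF g (e.symm 0)) = 0
        rw [map_zero]
        exact map_zero e
      smul_add := by
        intro g x y
        change e (actF g (e.symm (x + y))) = e (actF g (e.symm x)) + e (actF g (e.symm y))
        rw [← map_add, map_add e.symm]
        rfl
      smul_one := by
        intro g
        change e (actF g (e.symm 1)) = 1
        rw [map_one]
        exact map_one e
      smul_mul := by
        intro g x y
        change e (actF g (e.symm (x * y))) = e (actF g (e.symm x)) * e (actF g (e.symm y))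
        rw [← map_mul, map_mul e.symm]
        rfl }
  have hsmul : ∀ (g : G) (x : L), g • x = e (actF g (e.symm x)) := fun _ _ => rfl
  have hgal : IsGaloisGroup G E L :=
    { faithful := by
        refine ⟨fun {g h} hgh => ?_⟩
        have h3 : ∀ φ ∈ F, φ g⁻¹ = φ h⁻¹ := by
          intro φ hφ
          have h4 := hgh (e ⟨φ, hφ⟩)
          rw [hsmul, hsmul, e.symm_apply_apply] at h4
          have h5 := e.injective h4
          have h6 := congrFun (congrArg Subtype.val h5) 1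
          rw [hact, hact, mul_one, mul_one] at h6
          exact h6
        let S : Submodule Q (G → Q) :=
          { carrier := {φ | φ g⁻¹ = φ h⁻¹}
            add_mem' := by
              intro a b ha hb
              change a g⁻¹ + b g⁻¹ = a h⁻¹ + b h⁻¹
              rw [ha, hb]
            zero_mem' := rfl
            smul_mem' := by
              intro c a ha
              change c • a g⁻¹ = c • a h⁻¹
              rw [ha] }
        have h4 : (⊤ : Submodule Q (G → Q)) ≤ S := by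
          rw [← hs, Submodule.span_le]
          rintro φ ⟨h5, h6⟩
          exact h3 φ ⟨h5, h6⟩
        have h5 : (Pi.single g⁻¹ (1 : Q) : G → Q) ∈ S := h4 trivial
        have h6 : (Pi.single g⁻¹ (1 : Q) : G → Q) g⁻¹ = (Pi.single g⁻¹ (1 : Q) : G → Q) h⁻¹ := h5
        rw [Pi.single_eq_same] at h6
        by_contra hne
        rw [Pi.single_eq_of_ne (fun h7 => hne (inv_injective h7).symm)] at h6
        exact one_ne_zero h6
      commutes := by
        refine ⟨fun g c x => ?_⟩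
        rw [Algebra.smul_def, Algebra.smul_def, smul_mul']
        congr 1
        rw [hsmul]
        have h3 : algebraMap E L c = e ⟨fun _ => (c : Q), hconst c c.2⟩ := by
          apply Subtype.ext
          rfl
        rw [h3, e.symm_apply_apply]
      isInvariant := by
        refine ⟨fun b hb => ?_⟩
        obtain ⟨φ, rfl⟩ := e.surjective b
        have h3 : ∀ θ, φ.1 1 = φ.1 θ := by
          intro θ
          have h4 := hb θ
          rw [hsmul, e.symm_apply_apply] at h4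
          have h5 := e.injective h4
          have h6 := congrFun (congrArg Subtype.val h5) θ
          rw [hact, inv_mul_cancel] at h6
          exact h6
        obtain ⟨⟨k1, hk1⟩, ⟨k2, hk2⟩⟩ := φ.2
        have h4 : φ.1 1 ∈ P := by
          refine (hα ⟨φ.1 1, k1 1⟩).2 fun τ => ?_
          have h5 := hk1 1 τ⁻¹
          rw [inv_inv, ← h3] at h5
          exact Subtype.ext h5.symm
        have h4' : φ.1 1 ∈ P' := by
          refine (hβ ⟨φ.1 1, k2 1⟩).2 fun τ => ?_
          have h5 := hk2 1 τ⁻¹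
          rw [inv_inv, ← h3] at h5
          exact Subtype.ext h5.symm
        have h5 : φ.1 1 ∈ E := by
          rw [← hE]
          exact ⟨h4, h4'⟩
        exact ⟨⟨_, h5⟩, Subtype.ext rfl⟩ }
  refine ⟨L, le_top, IsGaloisGroup.finiteDimensional G E L, IsGaloisGroup.isGalois G E L, ?_⟩
  exact ⟨(IsGaloisGroup.mulEquivAlgEquiv G E L).symm⟩

end H36.RT
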