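import Pool.Agent.H36.RT.NN

/-!
# [H36 RT INTER] the intersection of two induced modules spans `G → Q`

Proof. Let `n = Nat.card G`, `e : G ≃ Fin n`. Since `NN G1 Q1 α` spans `G → Q`, it contains a basis
of `G → Q` over `Q` (`Basis.ofSpan`/`exists_linearIndependent`, finite dimension `n`), that is there
is a matrix `A₁` (indexed by `Fin n`) with `det A₁ ≠ 0` all whose columns, read as functions on `G`,
are in `NN G1 Q1 α`; in the same way `A₂` for `NN G2 Q2 β`. By `Factor P P'` with
`M = A₁⁻¹ * A₂`: `A₁⁻¹ A₂ = B B'`, `B` over `P`, `B'` over `P'`, both invertible (determinants).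
`C := A₁ B = A₂ B'⁻¹`. The columns of `C` are combinations of the columns of `A₁` with coefficients
in `P`, so in `NN G1 Q1 α`, because `NN G1 Q1 α` is closed under sums and under multiplication by
constants `c ∈ P` (`P ≤ Q1` and `α τ` fixes `P`); and combinations of columns of `A₂` with
coefficients in `P'` (`B'⁻¹` has entries in the field `P'`), so in `NN G2 Q2 β`. `C` is invertible, so its columns span.
-/

namespace H36.RT

/-- `NN` is closed under linear combinations with coefficients in `P`. -/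
theorem NN_sum_smul {Q G : Type} [Field Q] [Group G] (P : Subfield Q) (G1 : Subgroup G)
    (Q1 : Subfield Q) (α : G1 →* (Q1 ≃+* Q1)) (h1 : P ≤ Q1)
    (hα : ∀ (τ : G1) (x : Q1), (x : Q) ∈ P → α τ x = x) {n : ℕ} (b : Fin n → Q)
    (hb : ∀ i, b i ∈ P) (v : Fin n → G → Q) (hv : ∀ i, v i ∈ NN G1 Q1 α) :
    ∑ i, b i • v i ∈ NN G1 Q1 α := by
  choose h hh using hv
  have hmem : ∀ θ, (∑ i, b i • v i) θ ∈ Q1 := by
    intro θ
    rw [Finset.sum_apply]
    exact sum_mem fun i _ => Q1.mul_mem (h1 (hb i)) (h i θ)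
  refine ⟨hmem, ?_⟩
  intro θ τ
  have e1 : (⟨(∑ i, b i • v i) θ, hmem θ⟩ : Q1) =
      ∑ i, (⟨b i, h1 (hb i)⟩ : Q1) * ⟨v i θ, h i θ⟩ := by
    apply Subtype.ext
    rw [AddSubmonoidClass.coe_finsetSum]
    simp [Finset.sum_apply]
  rw [e1, map_sum, Finset.sum_apply, AddSubmonoidClass.coe_finsetSum]
  apply Finset.sum_congr rfl
  intro i _
  rw [map_mul, hα τ⁻¹ ⟨b i, h1 (hb i)⟩ (hb i)]
  simp only [Pi.smul_apply, smul_eq_mul, Subfield.coe_mul]
  rw [hh i θ τ]

/-- A spanning set of `G → Q` contains a basis indexed by `Fin (Nat.card G)`. -/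
theorem exists_basis_of_span {Q G : Type} [Field Q] [Finite G] (S : Set (G → Q))
    (hS : Submodule.span Q S = ⊤) :
    ∃ v : Module.Basis (Fin (Nat.card G)) Q (G → Q), ∀ i, v i ∈ S := by
  classical
  have := Fintype.ofFinite G
  let b := Module.Basis.ofSpan (K := Q) (s := S) (by rw [hS])
  have hb : Set.range b ⊆ S := Module.Basis.ofSpan_subset (by rw [hS])
  have hfin := Module.Finite.finite_basis b
  have hfin' := Fintype.ofFinite ((linearIndepOn_empty Q (id : (G → Q) → (G → Q))).extend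
    (Set.empty_subset S))
  have hcard : Fintype.card ((linearIndepOn_empty Q (id : (G → Q) → (G → Q))).extend
      (Set.empty_subset S)) = Fintype.card (Fin (Nat.card G)) := by
    rw [← Module.finrank_eq_card_basis b, Module.finrank_fintype_fun_eq_card, Fintype.card_fin,
      Nat.card_eq_fintype_card]
  let e := Fintype.equivOfCardEq hcard
  refine ⟨b.reindex e, fun i => hb ?_⟩
  rw [Module.Basis.reindex_apply]
  exact ⟨_, rfl⟩

theorem inter_span {Q G : Type} [Field Q] [Group G] [Finite G] (P P' : Subfield Q)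
    (hfac : Factor P P') (G1 G2 : Subgroup G) (Q1 Q2 : Subfield Q)
    (α : G1 →* (Q1 ≃+* Q1)) (β : G2 →* (Q2 ≃+* Q2)) (h1 : P ≤ Q1) (h2 : P' ≤ Q2)
    (hα : ∀ (τ : G1) (x : Q1), (x : Q) ∈ P → α τ x = x)
    (hβ : ∀ (τ : G2) (x : Q2), (x : Q) ∈ P' → β τ x = x)
    (hs1 : Submodule.span Q (NN G1 Q1 α) = ⊤) (hs2 : Submodule.span Q (NN G2 Q2 β) = ⊤) :
    Submodule.span Q (NN G1 Q1 α ∩ NN G2 Q2 β) = ⊤ := by
  classical
  obtain ⟨v, hv⟩ := exists_basis_of_span _ hs1
  obtain ⟨w, hw⟩ := exists_basis_of_span _ hs2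
  have hM : (v.toMatrix w).det ≠ 0 := by
    intro h0
    have h3 : v.toMatrix w * w.toMatrix v = 1 := v.toMatrix_mul_toMatrix_flip w
    have h4 := congrArg Matrix.det h3
    rw [Matrix.det_mul, h0, zero_mul, Matrix.det_one] at h4
    exact zero_ne_one h4
  obtain ⟨B, B', hB, hB', hBB⟩ := hfac _ (v.toMatrix w) hM
  let c : Fin (Nat.card G) → G → Q := fun j => ∑ i, B i j • v i
  have hw' : ∀ j, w j = ∑ k, B' k j • c k := by
    intro j
    have h3 : w j = ∑ i, (v.toMatrix w) i j • v i := (v.sum_toMatrix_smul_self w j).symm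
    rw [h3, hBB]
    simp only [Matrix.mul_apply, c, Finset.sum_smul, Finset.smul_sum, smul_smul]
    rw [Finset.sum_comm]
    apply Finset.sum_congr rfl
    intro k _
    apply Finset.sum_congr rfl
    intro i _
    rw [mul_comm]
  have hc1 : ∀ j, c j ∈ NN G1 Q1 α := fun j =>
    NN_sum_smul P G1 Q1 α h1 hα (fun i => B i j) (fun i => hB i j) (fun i => v i) hv
  let B'' : Matrix (Fin (Nat.card G)) (Fin (Nat.card G)) P' := fun i j => ⟨B' i j, hB' i j⟩
  have hmap : B''.map P'.subtype = B' := by ext i j; rfl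
  have hdet' : B''.det ≠ 0 := by
    intro h0
    have h3 : B'.det = 0 := by
      rw [← hmap]
      have h4 := RingHom.map_det P'.subtype B''
      rw [h0, map_zero] at h4
      exact h4.symm
    apply hM
    rw [hBB, Matrix.det_mul, h3, mul_zero]
  let C := B''⁻¹
  have hC : B' * C.map P'.subtype = 1 := by
    rw [← hmap, ← Matrix.map_mul, Matrix.mul_nonsing_inv _ (isUnit_iff_ne_zero.2 hdet')]
    simp
  have hc2 : ∀ l, c l = ∑ j, ((C j l : P') : Q) • w j := by
    intro l
    have h3 : ∀ k, ∑ j, B' k j * ((C j l : P') : Q) = (1 : Matrix _ _ Q) k l := by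
      intro k
      rw [← hC]
      rfl
    have h4 : ∑ j, ((C j l : P') : Q) • w j =
        ∑ k, (∑ j, B' k j * ((C j l : P') : Q)) • c k := by
      simp only [Finset.sum_smul]
      rw [Finset.sum_comm]
      apply Finset.sum_congr rfl
      intro j _
      conv_lhs => rw [hw' j]
      rw [Finset.smul_sum]
      apply Finset.sum_congr rfl
      intro k _
      rw [smul_smul, mul_comm]
    rw [h4]
    simp only [h3, Matrix.one_apply]
    simp
  have hc3 : ∀ j, c j ∈ NN G2 Q2 β := by
    intro l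
    rw [hc2 l]
    exact NN_sum_smul P' G2 Q2 β h2 hβ (fun j => ((C j l : P') : Q)) (fun j => (C j l).2)
      (fun j => w j) hw
  rw [eq_top_iff, ← w.span_eq, Submodule.span_le]
  rintro _ ⟨j, rfl⟩
  rw [SetLike.mem_coe, hw' j]
  exact Submodule.sum_mem _ fun k _ => Submodule.smul_mem _ _
    (Submodule.subset_span ⟨hc1 k, hc3 k⟩)

end H36.RT
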