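import Pool.Agent.H36.RT.NN

/-!
# [H36 RT SPAN] the induced module spans `G → Q`

Proof. `G` is finite, so it suffices that `Pi.single θ 1` is in the span for every `θ`
(`Pi.basisFun`, `Finset.univ_sum_single`). For `a ∈ Q1` and `θ : G` the function `φ_(θ,a)` with
`φ (θ τ) = α τ⁻¹ a` for `τ ∈ G1` and `φ = 0` outside the coset `θ G1` is in `NN`. The monoid
homomorphisms `x ↦ (α τ⁻¹ x : Q)`, `τ ∈ G1`, from `Q1` to `Q` are pairwise different (`α` injective),
hence linearly independent over `Q` (`linearIndependent_monoidHom`), so no nonzero linear form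
`∑ c_τ v_τ` on `G1 → Q` vanishes on all vectors `(α τ⁻¹ a)_τ`, `a ∈ Q1`; so these vectors span
`G1 → Q` (`Submodule.exists_le_ker_of_lt_top` or `Submodule.exists_dual_map_eq_bot_of_notMem`), and
the same combination of the `φ_(θ,a)` is `Pi.single θ 1`.
-/

namespace H36.RT

open scoped Classical in
theorem NN_span {Q G : Type} [Field Q] [Group G] [Finite G] (G1 : Subgroup G) (Q1 : Subfield Q)
    (α : G1 →* (Q1 ≃+* Q1)) (hα : Function.Injective α) :
    Submodule.span Q (NN G1 Q1 α) = ⊤ := by
  have : Fintype G := Fintype.ofFinite G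
  have : Fintype G1 := Fintype.ofFinite G1
  -- the functions supported on one coset
  let φ : G → Q1 → G → Q := fun θ a x =>
    if h : θ⁻¹ * x ∈ G1 then ((α ⟨θ⁻¹ * x, h⟩⁻¹ a : Q1) : Q) else 0
  have hφ : ∀ θ a, φ θ a ∈ NN G1 Q1 α := by
    intro θ a
    have hmem : ∀ x, φ θ a x ∈ Q1 := by
      intro x
      simp only [φ]
      split_ifs with h
      · exact (α ⟨θ⁻¹ * x, h⟩⁻¹ a).2
      · exact Q1.zero_mem
    refine ⟨hmem, ?_⟩
    intro x τ
    by_cases h : θ⁻¹ * x ∈ G1
    · have h' : θ⁻¹ * (x * τ) ∈ G1 := by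
        rw [← mul_assoc]; exact G1.mul_mem h τ.2
      have e1 : φ θ a (x * τ) = ((α ⟨θ⁻¹ * (x * τ), h'⟩⁻¹ a : Q1) : Q) := by
        simp only [φ, dif_pos h']
      have e2 : (⟨φ θ a x, hmem x⟩ : Q1) = α ⟨θ⁻¹ * x, h⟩⁻¹ a := by
        apply Subtype.ext
        simp only [φ, dif_pos h]
      rw [e1, e2]
      have e3 : (⟨θ⁻¹ * (x * τ), h'⟩ : G1)⁻¹ = τ⁻¹ * (⟨θ⁻¹ * x, h⟩ : G1)⁻¹ := by
        rw [← mul_inv_rev]
        congr 1
        apply Subtype.ext
        simp [mul_assoc]
      rw [e3, map_mul]
      rfl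
    · have h' : θ⁻¹ * (x * τ) ∉ G1 := by
        rw [← mul_assoc]
        intro h2
        exact h ((Subgroup.mul_mem_cancel_right G1 τ.2).1 h2)
      have e1 : φ θ a (x * τ) = 0 := by simp only [φ, dif_neg h']
      have e2 : (⟨φ θ a x, hmem x⟩ : Q1) = 0 := by
        apply Subtype.ext
        simp only [φ, dif_neg h]
        rfl
      rw [e1, e2, map_zero]
      rfl
  -- Dedekind
  let f : G1 → Q1 →* Q := fun τ => ((Q1.subtype.comp ((α τ⁻¹ : Q1 ≃+* Q1) : Q1 →+* Q1)) : Q1 →* Q)
  have hf : Function.Injective f := by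
    intro τ σ h
    apply inv_injective
    apply hα
    ext a
    exact DFunLike.congr_fun h a
  have hlin : LinearIndependent Q (fun τ => (f τ : Q1 → Q)) :=
    (linearIndependent_monoidHom Q1 Q).comp f hf
  by_contra hne
  obtain ⟨l, hl, hle⟩ := Submodule.exists_le_ker_of_lt_top _ (lt_top_iff_ne_top.2 hne)
  apply hl
  -- the values of `l` on the basis vectors
  apply (Pi.basisFun Q G).ext
  intro θ
  rw [Pi.basisFun_apply, LinearMap.zero_apply]
  have hexp : ∀ a : Q1, ∑ τ : G1, l (Pi.single (θ * τ) 1) * (f τ a) = 0 := by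
    intro a
    have h1 : l (φ θ a) = 0 := hle (Submodule.subset_span (hφ θ a))
    have h2 : φ θ a = ∑ τ : G1, (f τ a) • (Pi.single (θ * τ) (1 : Q) : G → Q) := by
      ext x
      rw [Finset.sum_apply]
      simp only [Pi.smul_apply, smul_eq_mul]
      by_cases h : θ⁻¹ * x ∈ G1
      · rw [Finset.sum_eq_single (⟨θ⁻¹ * x, h⟩ : G1)]
        · simp only [φ, dif_pos h, f]
          simp
        · intro τ _ hτ
          have : x ≠ θ * τ := by
            rintro rfl
            apply hτ
            apply Subtype.ext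
            simp
          simp [this]
        · intro h3
          exact absurd (Finset.mem_univ _) h3
      · rw [Finset.sum_eq_zero]
        · simp only [φ, dif_neg h]
        · intro τ _
          have : x ≠ θ * τ := by
            rintro rfl
            apply h
            simp
          simp [this]
    rw [h2, map_sum] at h1
    rw [← h1]
    refine Finset.sum_congr rfl fun τ _ => ?_
    rw [map_smul, smul_eq_mul, mul_comm]
  have hzero := (Fintype.linearIndependent_iff.1 hlin) (fun τ => l (Pi.single (θ * τ) 1)) (by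
    ext a
    rw [Finset.sum_apply]
    simpa using hexp a) 1
  simpa using hzero

end H36.RT
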