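import Pool.Agent.H36.RT.Comp
import Pool.Agent.H36.RT.Span
import Pool.Agent.H36.RT.Inter
import Pool.Agent.H36.RT.Glue

/-!
# Patching of two Galois extensions
-/

namespace H36.RT

theorem patch {Q : Type} [Field Q] (E P P' : Subfield Q) (hE : P ⊓ P' = E) (hfac : Factor P P')
    {G : Type} [Group G] [Finite G] (G1 G2 : Subgroup G) (hG : G1 ⊔ G2 = ⊤)
    (h1 : RealIn E P' G1) (h2 : RealIn E P G2) : RealIn E ⊤ G := by
  obtain ⟨L1, hL1, hf1, hg1, ⟨e1⟩⟩ := h1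
  obtain ⟨L2, hL2, hf2, hg2, ⟨e2⟩⟩ := h2
  have hEP : E ≤ P := hE ▸ inf_le_left
  have hEP' : E ≤ P' := hE ▸ inf_le_right
  have hEL : ∀ L : IntermediateField E Q, E ≤ L.toSubfield := fun L x hx =>
    L.algebraMap_mem ⟨x, hx⟩
  have hd1 : L1.toSubfield ⊓ P = E := le_antisymm
    (fun x hx => by rw [← hE]; exact ⟨hx.2, hL1 hx.1⟩) (le_inf (hEL L1) hEP)
  have hd2 : L2.toSubfield ⊓ P' = E := le_antisymm
    (fun x hx => by rw [← hE]; exact ⟨hL2 hx.1, hx.2⟩) (le_inf (hEL L2) hEP')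
  obtain ⟨Q1, α, hPQ, hLQ, hα, hfix⟩ := comp_field E P hEP L1 hd1
  obtain ⟨Q2, β, hPQ', hLQ', hβ, hfix'⟩ := comp_field E P' hEP' L2 hd2
  have hinj : Function.Injective α := by
    intro τ σ h
    ext x
    have h1 := hα τ x (hLQ x.2)
    rw [h, hα σ x (hLQ x.2)] at h1
    exact congrArg Subtype.val (Subtype.ext h1.symm)
  have hinj' : Function.Injective β := by
    intro τ σ h
    ext x
    have h1 := hβ τ x (hLQ' x.2)
    rw [h, hβ σ x (hLQ' x.2)] at h1
    exact congrArg Subtype.val (Subtype.ext h1.symm)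
  set α' : G1 →* (Q1 ≃+* Q1) := α.comp e1.symm.toMonoidHom with hα'
  set β' : G2 →* (Q2 ≃+* Q2) := β.comp e2.symm.toMonoidHom with hβ'
  have hfα : ∀ x : Q1, (x : Q) ∈ P ↔ ∀ τ, α' τ x = x := by
    intro x
    rw [hfix]
    constructor
    · intro h τ
      exact h _
    · intro h τ
      have := h (e1 τ)
      simpa [hα'] using this
  have hfβ : ∀ x : Q2, (x : Q) ∈ P' ↔ ∀ τ, β' τ x = x := by
    intro x
    rw [hfix']
    constructor
    · intro h τ
      exact h _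
    · intro h τ
      have := h (e2 τ)
      simpa [hβ'] using this
  have hs1 := NN_span G1 Q1 α' (hinj.comp e1.symm.injective)
  have hs2 := NN_span G2 Q2 β' (hinj'.comp e2.symm.injective)
  exact glue E P P' hE G1 G2 hG Q1 Q2 α' β' hPQ hPQ' hfα hfβ
    (inter_span P P' hfac G1 G2 Q1 Q2 α' β' hPQ hPQ' (fun τ x hx => (hfα x).1 hx τ)
      (fun τ x hx => (hfβ x).1 hx τ) hs1 hs2)

end H36.RT
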