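import Pool.Agent.H36.RT.WPrep
import Pool.Agent.H36.RT.Bdd

/-!
# [H36 RT SHIFT] the substitution `x ↦ 1 + t x`

It maps all of `Q` into `P1`, and `E` onto `E`.

Proof. Let `v = 1 + t x ∈ k[x]⟦t⟧ = PowerSeries k[X]`, a unit (constant coefficient `1`). There is
a ring homomorphism `ψ : LaurentPolynomial k →+* PowerSeries k[X]`, `ψ (T n) = v^n`, constants fixed
(`LaurentPolynomial.eval₂` / `AddMonoidAlgebra.lift` with `Units.zpow`; or
`IsLocalization.lift`). Let `Δ : PowerSeries (PowerSeries k[X]) →+* PowerSeries k[X]` be the ring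
homomorphism `∑_j F_j s^j ↦ ∑_j F_j t^j` (`coeff n (Δ F) = ∑_{(i,j) ∈ antidiagonal n} coeff i (coeff j F)`;
multiplicativity: rearrange the finite sums, or use `PowerSeries.subst`/`PowerSeries.eval₂`), and
`φ₀ = Δ ∘ PowerSeries.map ψ : RR k →+* PowerSeries k[X]`, `φ = i1 k ∘ φ₀`. Then `φ₀ t = t`,
`φ₀ (C a) = C a` for `a ∈ k`, more generally `φ₀` fixes the power series in `t` with coefficients in
`k`, and `φ₀ x = 1 + t x`.
Injectivity: let `h ≠ 0`, `h = t^m u (i1 p)` by `wprep`; `φ₀ h = t^m φ₀(u) φ₀(i1 p)`, `φ₀(u)` a unit.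
`i1 p = i0 P` with `P ∈ k⟦t⟧[x]`, `P ≠ 0` (`i1_mem_S0`), and `φ₀ (i0 P)` is (the image in
`PowerSeries k[X]` of) `P.comp (1 + t x)`; it is not `0` because `natDegree (1 + t x) = 1` in
`k⟦t⟧[x]` (`Polynomial.comp_eq_zero_iff` or `Polynomial.natDegree_comp`, a domain) and
`i0`, `i1` are injective.
So `φ` induces `Φ : QQ k →+* QQ k` with values in `fr (range i1) = P1 k`. `Φ (EE) ≤ EE`: by
`mem_fr`, `Φ (i0 P) = i0 (P.comp (1 + t x))`. Onto: `EE` is generated as a field by the constants
`k⟦t⟧` and `x = (Φ x - 1)/t` (`(EE k).map Φ` is a subfield containing them; elements of `S0` are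
polynomials in `x` with coefficients in `k⟦t⟧`).
-/

open Polynomial

namespace H36.RT

/-- the raw diagonal substitution `s = t` -/
noncomputable def shiftD {A : Type} [CommRing A] (F : PowerSeries (PowerSeries A)) :
    PowerSeries A :=
  PowerSeries.mk fun n => ∑ p ∈ Finset.HasAntidiagonal.antidiagonal n,
    PowerSeries.coeff p.1 (PowerSeries.coeff p.2 F)

theorem shiftD_C {A : Type} [CommRing A] (f : PowerSeries A) :
    shiftD (PowerSeries.C f) = f := by
  ext n
  rw [shiftD, PowerSeries.coeff_mk, Finset.sum_eq_single (n, 0)]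
  · simp
  · rintro ⟨i, j⟩ hij hne
    rw [Finset.HasAntidiagonal.mem_antidiagonal] at hij
    simp only at hij
    have hj : j ≠ 0 := by
      rintro rfl
      apply hne
      simp only [Prod.mk.injEq, and_true]
      omega
    simp only
    rw [PowerSeries.coeff_C, if_neg hj, map_zero]
  · intro h
    exact absurd (Finset.HasAntidiagonal.mem_antidiagonal.2 (by simp)) h

theorem shiftD_map_C {A : Type} [CommRing A] (b : PowerSeries A) :
    shiftD (PowerSeries.map (PowerSeries.C : A →+* PowerSeries A) b) = b := by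
  ext n
  rw [shiftD, PowerSeries.coeff_mk, Finset.sum_eq_single (0, n)]
  · simp
  · rintro ⟨i, j⟩ hij hne
    rw [Finset.HasAntidiagonal.mem_antidiagonal] at hij
    simp only at hij
    have hi : i ≠ 0 := by
      rintro rfl
      apply hne
      simp only [Prod.mk.injEq, true_and]
      omega
    simp only
    rw [PowerSeries.coeff_map, PowerSeries.coeff_C, if_neg hi]
  · intro h
    exact absurd (Finset.HasAntidiagonal.mem_antidiagonal.2 (by simp)) h

theorem shiftD_add {A : Type} [CommRing A] (F G : PowerSeries (PowerSeries A)) :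
    shiftD (F + G) = shiftD F + shiftD G := by
  ext n
  rw [map_add]
  simp only [shiftD, PowerSeries.coeff_mk, map_add]
  rw [Finset.sum_add_distrib]

theorem shiftD_mul {A : Type} [CommRing A] (F G : PowerSeries (PowerSeries A)) :
    shiftD (F * G) = shiftD F * shiftD G := by
  ext n
  rw [PowerSeries.coeff_mul]
  simp only [shiftD, PowerSeries.coeff_mk, PowerSeries.coeff_mul, map_sum, Finset.sum_mul_sum]
  simp only [Finset.sum_sigma']
  refine Finset.sum_nbij'
    (fun x => ⟨(x.2.2.1 + x.2.1.1, x.2.2.2 + x.2.1.2), (x.2.2.1, x.2.1.1), (x.2.2.2, x.2.1.2)⟩)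
    (fun x => ⟨(x.2.1.1 + x.2.2.1, x.2.1.2 + x.2.2.2), (x.2.1.2, x.2.2.2), (x.2.1.1, x.2.2.1)⟩)
    ?_ ?_ ?_ ?_ ?_
  · rintro ⟨⟨i, j⟩, ⟨a, b⟩, ⟨c, d⟩⟩ hx
    simp only [Finset.mem_sigma, Finset.HasAntidiagonal.mem_antidiagonal] at hx ⊢
    exact ⟨by omega, trivial, trivial⟩
  · rintro ⟨⟨i, j⟩, ⟨a, b⟩, ⟨c, d⟩⟩ hx
    simp only [Finset.mem_sigma, Finset.HasAntidiagonal.mem_antidiagonal] at hx ⊢
    exact ⟨by omega, trivial, trivial⟩
  · rintro ⟨⟨i, j⟩, ⟨a, b⟩, ⟨c, d⟩⟩ hx
    simp only [Finset.mem_sigma, Finset.HasAntidiagonal.mem_antidiagonal] at hx ⊢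
    obtain ⟨h1, h2, h3⟩ := hx
    subst h2
    subst h3
    rfl
  · rintro ⟨⟨i, j⟩, ⟨a, b⟩, ⟨c, d⟩⟩ hx
    simp only [Finset.mem_sigma, Finset.HasAntidiagonal.mem_antidiagonal] at hx ⊢
    obtain ⟨h1, h2, h3⟩ := hx
    subst h2
    subst h3
    rfl
  · rintro ⟨⟨i, j⟩, ⟨a, b⟩, ⟨c, d⟩⟩ hx
    rfl

/-- the diagonal substitution as a ring homomorphism -/
noncomputable def shiftDelta (A : Type) [CommRing A] :
    PowerSeries (PowerSeries A) →+* PowerSeries A where
  toFun := shiftD
  map_one' := by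
    have := shiftD_C (1 : PowerSeries A)
    rwa [map_one] at this
  map_zero' := by
    have := shiftD_C (0 : PowerSeries A)
    rwa [map_zero] at this
  map_add' := shiftD_add
  map_mul' := shiftD_mul

/-- the unit `1 + t x` -/
noncomputable def shiftV (k : Type) [Field k] : (PowerSeries k[X])ˣ :=
  IsUnit.unit (a := 1 + PowerSeries.X * PowerSeries.C Polynomial.X) (by
    rw [PowerSeries.isUnit_iff_constantCoeff]
    simp)

theorem shiftV_val (k : Type) [Field k] :
    ((shiftV k : (PowerSeries k[X])ˣ) : PowerSeries k[X]) =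
      1 + PowerSeries.X * PowerSeries.C Polynomial.X := rfl

/-- `x ↦ 1 + t x` on Laurent polynomials -/
noncomputable def shiftPsi (k : Type) [Field k] : LaurentPolynomial k →+* PowerSeries k[X] :=
  LaurentPolynomial.eval₂ ((PowerSeries.C).comp Polynomial.C) (shiftV k)

/-- `x ↦ 1 + t x` on power series -/
noncomputable def shiftPhi (k : Type) [Field k] : RR k →+* PowerSeries k[X] :=
  (shiftDelta k[X]).comp (PowerSeries.map (shiftPsi k))

theorem shiftPhi_map (k : Type) [Field k] (b : PowerSeries k) :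
    shiftPhi k (PowerSeries.map LaurentPolynomial.C b) = PowerSeries.map Polynomial.C b := by
  have h : PowerSeries.map (shiftPsi k) (PowerSeries.map LaurentPolynomial.C b) =
      PowerSeries.map (PowerSeries.C : k[X] →+* PowerSeries k[X])
        (PowerSeries.map Polynomial.C b) := by
    ext j : 1
    simp only [PowerSeries.coeff_map]
    rw [shiftPsi, LaurentPolynomial.eval₂_C]
    rfl
  rw [shiftPhi, RingHom.comp_apply, h]
  exact shiftD_map_C _

theorem shiftPhi_T (k : Type) [Field k] :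
    shiftPhi k (PowerSeries.C (LaurentPolynomial.T 1)) =
      1 + PowerSeries.X * PowerSeries.C Polynomial.X := by
  have h : PowerSeries.map (shiftPsi k) (PowerSeries.C (LaurentPolynomial.T 1)) =
      PowerSeries.C ((shiftV k : (PowerSeries k[X])ˣ) : PowerSeries k[X]) := by
    rw [PowerSeries.map_C]
    congr 1
    rw [shiftPsi, LaurentPolynomial.eval₂_T, zpow_one]
  rw [shiftPhi, RingHom.comp_apply, h]
  exact shiftD_C _

/-- the polynomial `1 + t x` over `k⟦t⟧` -/
noncomputable def shiftQ (k : Type) [Field k] : (PowerSeries k)[X] :=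
  1 + Polynomial.C PowerSeries.X * Polynomial.X

theorem shiftPhi_i0 (k : Type) [Field k] (P : (PowerSeries k)[X]) :
    shiftPhi k (i0 k P) = i01 k (P.comp (shiftQ k)) := by
  have h : (shiftPhi k).comp (i0 k) = (i01 k).comp (Polynomial.compRingHom (shiftQ k)) := by
    refine Polynomial.ringHom_ext (fun b => ?_) ?_
    · rw [RingHom.comp_apply, RingHom.comp_apply, i0_C, shiftPhi_map, Polynomial.coe_compRingHom_apply,
        Polynomial.C_comp, i01_C]
    · rw [RingHom.comp_apply, RingHom.comp_apply, i0_X, shiftPhi_T, Polynomial.coe_compRingHom_apply,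
        Polynomial.X_comp, shiftQ, map_add, map_mul, i01_C, i01_X, map_one]
      simp
  have := RingHom.congr_fun h P
  rwa [RingHom.comp_apply, RingHom.comp_apply, Polynomial.coe_compRingHom_apply] at this

theorem shiftPhi_X (k : Type) [Field k] : shiftPhi k PowerSeries.X = PowerSeries.X := by
  have := shiftPhi_map k PowerSeries.X
  simpa using this

theorem shift_comp_ne (k : Type) [Field k] (P : (PowerSeries k)[X]) (hP : P ≠ 0) :
    P.comp (shiftQ k) ≠ 0 := by
  intro h
  rw [Polynomial.comp_eq_zero_iff] at h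
  rcases h with h | ⟨_, h⟩
  · exact hP h
  · have h1 := congrArg (fun q => Polynomial.coeff q 1) h
    simp only [shiftQ, Polynomial.coeff_add, Polynomial.coeff_one, Polynomial.coeff_C_mul,
      Polynomial.coeff_X_one, Polynomial.coeff_C_succ] at h1
    simp at h1

theorem shiftPhi_ne (k : Type) [Field k] (h : RR k) (hh : h ≠ 0) : shiftPhi k h ≠ 0 := by
  obtain ⟨m, u, d, p, hp, hd, h0, rfl⟩ := wprep k h hh
  obtain ⟨P, hP⟩ := i1_mem_S0 k d p hp
  rw [← hP] at hh ⊢
  have hP0 : P ≠ 0 := by
    rintro rfl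
    rw [map_zero, mul_zero] at hh
    exact hh rfl
  rw [map_mul, map_mul, map_pow, shiftPhi_X, shiftPhi_i0]
  have hu : shiftPhi k (u : RR k) ≠ 0 := by
    have : IsUnit (shiftPhi k (u : RR k)) := (u.isUnit).map _
    exact this.ne_zero
  have h3 : i01 k (P.comp (shiftQ k)) ≠ 0 := by
    intro h4
    apply shift_comp_ne k P hP0
    apply i01_injective k
    rw [h4, map_zero]
  exact mul_ne_zero (mul_ne_zero (pow_ne_zero _ PowerSeries.X_ne_zero) hu) h3

theorem shift (k : Type) [Field k] :
    ∃ Φ : QQ k →+* QQ k, (EE k).map Φ = EE k ∧ ∀ x, Φ x ∈ P1 k := by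
  let g : RR k →+* QQ k := (algebraMap (RR k) (QQ k)).comp ((i1 k).comp (shiftPhi k))
  have hg : Function.Injective g := by
    rw [injective_iff_map_eq_zero]
    intro a ha
    by_contra hne
    have h1 := shiftPhi_ne k a hne
    have h2 : algebraMap (RR k) (QQ k) (i1 k (shiftPhi k a)) = 0 := ha
    have h3 : i1 k (shiftPhi k a) = 0 := by
      apply IsFractionRing.injective (RR k) (QQ k)
      rw [h2, map_zero]
    apply h1
    apply i1_injective k
    rw [h3, map_zero]
  let Φ : QQ k →+* QQ k := IsFractionRing.lift hg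
  have hΦ : ∀ a : RR k, Φ (algebraMap (RR k) (QQ k) a) =
      algebraMap (RR k) (QQ k) (i1 k (shiftPhi k a)) := fun a =>
    IsFractionRing.lift_algebraMap hg a
  have hΦ0 : ∀ P, Φ (algebraMap (RR k) (QQ k) (i0 k P)) =
      algebraMap (RR k) (QQ k) (i0 k (P.comp (shiftQ k))) := by
    intro P
    rw [hΦ, shiftPhi_i0, ← i0_apply]
  refine ⟨Φ, ?_, ?_⟩
  · apply le_antisymm
    · rw [Subfield.map_le_iff_le_comap]
      unfold EE fr
      rw [Subfield.closure_le]
      rintro _ ⟨_, ⟨P, rfl⟩, rfl⟩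
      rw [SetLike.mem_coe, Subfield.mem_comap, hΦ0]
      exact mem_EE_of_S0 k ⟨_, rfl⟩
    · have hC : ∀ b, algebraMap (RR k) (QQ k) (i0 k (Polynomial.C b)) ∈ (EE k).map Φ := by
        intro b
        refine ⟨algebraMap (RR k) (QQ k) (i0 k (Polynomial.C b)), mem_EE_of_S0 k ⟨_, rfl⟩, ?_⟩
        rw [hΦ0, Polynomial.C_comp]
      have hX : algebraMap (RR k) (QQ k) (i0 k Polynomial.X) ∈ (EE k).map Φ := by
        have h1 : Φ (algebraMap (RR k) (QQ k) (i0 k Polynomial.X)) ∈ (EE k).map Φ :=
          ⟨_, mem_EE_of_S0 k ⟨_, rfl⟩, rfl⟩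
        have h2 : Φ (algebraMap (RR k) (QQ k) (i0 k Polynomial.X)) =
            1 + algebraMap (RR k) (QQ k) (i0 k (Polynomial.C PowerSeries.X)) *
              algebraMap (RR k) (QQ k) (i0 k Polynomial.X) := by
          rw [hΦ0, Polynomial.X_comp, shiftQ, map_add, map_mul, map_one, map_add, map_mul, map_one]
        have h3 : algebraMap (RR k) (QQ k) (i0 k (Polynomial.C PowerSeries.X)) ≠ 0 := by
          intro h4
          have h5 : i0 k (Polynomial.C PowerSeries.X) = 0 := by
            apply IsFractionRing.injective (RR k) (QQ k)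
            rw [h4, map_zero]
          have h6 : (Polynomial.C PowerSeries.X : (PowerSeries k)[X]) = 0 := by
            apply i0_injective k
            rw [h5, map_zero]
          rw [Polynomial.C_eq_zero] at h6
          exact PowerSeries.X_ne_zero h6
        have h4 : algebraMap (RR k) (QQ k) (i0 k Polynomial.X) =
            (Φ (algebraMap (RR k) (QQ k) (i0 k Polynomial.X)) - 1) /
              algebraMap (RR k) (QQ k) (i0 k (Polynomial.C PowerSeries.X)) := by
          rw [h2]
          field_simp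
          ring
        rw [h4]
        exact ((EE k).map Φ).div_mem (((EE k).map Φ).sub_mem h1 ((EE k).map Φ).one_mem) (hC _)
      conv_lhs => unfold EE fr
      rw [Subfield.closure_le]
      rintro _ ⟨_, ⟨P, rfl⟩, rfl⟩
      rw [SetLike.mem_coe]
      induction P using Polynomial.induction_on' with
      | add p q hp hq =>
        rw [map_add, map_add]
        exact ((EE k).map Φ).add_mem hp hq
      | monomial n b =>
        rw [← Polynomial.C_mul_X_pow_eq_monomial, map_mul, map_pow, map_mul, map_pow]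
        exact ((EE k).map Φ).mul_mem (hC b) (((EE k).map Φ).pow_mem hX n)
  · intro x
    obtain ⟨a, b, hb, rfl⟩ := IsFractionRing.div_surjective (A := RR k) x
    rw [map_div₀, hΦ, hΦ]
    refine (P1 k).div_mem ?_ ?_
    · exact Subfield.subset_closure ⟨_, ⟨_, rfl⟩, rfl⟩
    · exact Subfield.subset_closure ⟨_, ⟨_, rfl⟩, rfl⟩

end H36.RT
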