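import Pool.Agent.H36.RT.Bdd

/-!
# [H36 RT SWAP] the automorphism `x ↦ 1/x`

Proof. `s := PowerSeries.map (LaurentPolynomial.invert)` is an injective endomorphism of `RR k` with
`s ∘ s = id`, `s (i1 a) = i2 a`, `s (i2 a) = i1 a`. It induces `σ : QQ k →+* QQ k`
(`IsFractionRing.lift` or `IsFractionRing.map`, `IsLocalization.map`) with `σ ∘ σ = id`
(`IsLocalization.ringHom_ext`). `P1.map σ ≤ P2` by `mem_fr` (`Subfield.map`,
`Subfield.mem_map`). `EE.map σ = EE`: `σ (i0 a)` is `T(-D) * i1 (bounded)` for `natDegree a ≤ D`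
(so in `EE` by `bdd_mem`; or: `σ` fixes the power series in `t` with constant coefficients and
`σ x = x⁻¹ ∈ EE`, and `EE` is generated by these: `Polynomial.induction_on` for `a`), which gives
`EE.map σ ≤ EE`; apply `σ` again for the other inclusion.
-/

open Polynomial

namespace H36.RT

/-- The automorphism `x ↦ 1/x` of `RR k`. -/
noncomputable def sw (k : Type) [Field k] : RR k →+* RR k :=
  PowerSeries.map ((LaurentPolynomial.invert : LaurentPolynomial k ≃ₐ[k] LaurentPolynomial k) :
    LaurentPolynomial k →+* LaurentPolynomial k)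

theorem sw_sw (k : Type) [Field k] (f : RR k) : sw k (sw k f) = f := by
  ext j : 1
  simp only [sw, PowerSeries.coeff_map]
  exact LaurentPolynomial.invert.apply_symm_apply _

theorem sw_i1 (k : Type) [Field k] (f : PowerSeries k[X]) : sw k (i1 k f) = i2 k f := by
  ext j : 1
  simp [sw, i1, i2, PowerSeries.coeff_map]

theorem swap (k : Type) [Field k] :
    ∃ σ : QQ k →+* QQ k, (EE k).map σ = EE k ∧ (P1 k).map σ ≤ P2 k := by
  have hinj : Function.Injective ((algebraMap (RR k) (QQ k)).comp (sw k)) := by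
    apply (IsFractionRing.injective (RR k) (QQ k)).comp
    intro a b h
    have h' : sw k a = sw k b := h
    rw [← sw_sw k a, ← sw_sw k b, h']
  let σ : QQ k →+* QQ k := IsFractionRing.lift hinj
  have hσ : ∀ f : RR k, σ (algebraMap (RR k) (QQ k) f) = algebraMap (RR k) (QQ k) (sw k f) := by
    intro f
    exact IsFractionRing.lift_algebraMap hinj f
  have hσσ : ∀ x : QQ k, σ (σ x) = x := by
    intro x
    obtain ⟨a, b, hb, rfl⟩ := IsFractionRing.div_surjective (A := RR k) x
    rw [map_div₀, map_div₀, hσ, hσ, hσ, hσ, sw_sw, sw_sw]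
  have hE : (EE k).map σ ≤ EE k := by
    -- constants and `x`
    have h0 : ∀ a : (PowerSeries k)[X], σ (algebraMap (RR k) (QQ k) (i0 k a)) ∈ EE k := by
      intro a
      induction a using Polynomial.induction_on' with
      | add p q hp hq =>
        rw [map_add, map_add, map_add]
        exact (EE k).add_mem hp hq
      | monomial n c =>
        have h1 : sw k (i0 k (monomial n c)) =
            (i0 k (C c)) * PowerSeries.C (LaurentPolynomial.T (-(n : ℤ))) := by
          have e1 : sw k (PowerSeries.C (LaurentPolynomial.T 1)) =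
              PowerSeries.C (LaurentPolynomial.T (-1)) := by
            simp [sw]
          have e2 : sw k (PowerSeries.map LaurentPolynomial.C c) =
              PowerSeries.map LaurentPolynomial.C c := by
            ext j : 1
            simp [sw, PowerSeries.coeff_map]
          rw [← C_mul_X_pow_eq_monomial, map_mul, map_mul, map_pow, map_pow]
          simp only [i0, coe_eval₂RingHom, eval₂_C, eval₂_X]
          rw [e1, e2, ← map_pow, LaurentPolynomial.T_pow]
          congr 3
          ring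
        rw [hσ, h1, map_mul]
        exact (EE k).mul_mem (Subfield.subset_closure ⟨_, ⟨C c, rfl⟩, rfl⟩) (T_mem k _)
    rintro _ ⟨x, hx, rfl⟩
    obtain ⟨_, ⟨a, rfl⟩, _, ⟨b, rfl⟩, -, rfl⟩ := mem_fr.1 hx
    rw [map_div₀]
    exact (EE k).div_mem (h0 a) (h0 b)
  refine ⟨σ, le_antisymm hE ?_, ?_⟩
  · intro x hx
    exact ⟨σ x, hE ⟨x, hx, rfl⟩, hσσ x⟩
  · rintro _ ⟨x, hx, rfl⟩
    obtain ⟨_, ⟨a, rfl⟩, _, ⟨b, rfl⟩, -, rfl⟩ := mem_fr.1 hx
    rw [map_div₀, hσ, hσ, sw_i1, sw_i1]
    exact (P2 k).div_mem (Subfield.subset_closure ⟨_, ⟨a, rfl⟩, rfl⟩)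
      (Subfield.subset_closure ⟨_, ⟨b, rfl⟩, rfl⟩)

end H36.RT
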