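import Pool.Agent.H36.RT.Cyc
import Pool.Agent.H36.RT.K1
import Pool.Agent.H36.RT.K2
import Pool.Agent.H36.RT.Swap
import Pool.Agent.H36.RT.Shift
import Pool.Agent.H36.RT.MapReal
import Pool.Agent.H36.RT.Patch

/-!
# Every finite group is realised over `E` inside `P1`
-/

namespace H36.RT

theorem step (k : Type) [Field k] {G : Type} [Group G] [Finite G] (G1 G2 : Subgroup G)
    (hG : G1 ⊔ G2 = ⊤) (h1 : RealIn (EE k) (P1 k) G1) (h2 : RealIn (EE k) (P1 k) G2) :
    RealIn (EE k) (P1 k) G := by
  obtain ⟨σ, hσ, hσ'⟩ := swap k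
  obtain ⟨Φ, hΦ, hΦ'⟩ := shift k
  have h1' : RealIn (EE k) (P2 k) G1 := h1.map σ hσ hσ'
  have h := patch (EE k) (P1 k) (P2 k) (P1_inf_P2 k) (factor_P1_P2 k) G1 G2 hG h1' h2
  exact h.map Φ hΦ (by rintro _ ⟨x, -, rfl⟩; exact hΦ' x)

theorem all_real (k : Type) [Field k] [IsAlgClosed k] [CharZero k] :
    ∀ (n : ℕ) (G : Type) [Group G] [Finite G], Nat.card G = n → RealIn (EE k) (P1 k) G := by
  intro n
  induction n using Nat.strong_induction_on with
  | _ n ih =>
    intro G _ _ hn
    by_cases hc : IsCyclic G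
    · exact cyclic_real k G
    · obtain h | ⟨M, hM, -⟩ := IsCoatomic.eq_top_or_exists_le_coatom (⊥ : Subgroup G)
      · exfalso
        apply hc
        have : Subsingleton G := by
          rw [← Subgroup.subsingleton_iff, ← not_nontrivial_iff_subsingleton]
          intro hnt
          exact bot_ne_top h
        exact isCyclic_of_subsingleton
      · obtain ⟨g, hg⟩ : ∃ g : G, g ∉ M := by
          by_contra hcon
          push Not at hcon
          exact hM.1 ((Subgroup.eq_top_iff' M).2 hcon)
        have hsup : M ⊔ Subgroup.zpowers g = ⊤ := by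
          apply hM.2
          refine lt_of_le_of_ne le_sup_left (fun h => hg ?_)
          rw [h]
          exact (le_sup_right : Subgroup.zpowers g ≤ _) (Subgroup.mem_zpowers g)
        have hz : Subgroup.zpowers g ≠ ⊤ := by
          intro h
          exact hc ⟨g, fun x => (Subgroup.eq_top_iff' _).1 h x⟩
        have hlt : ∀ H : Subgroup G, H ≠ ⊤ → Nat.card H < n := by
          intro H hH
          rw [← hn]
          refine lt_of_le_of_ne (Subgroup.card_le_card_group H) (fun h => hH ?_)
          exact (Subgroup.card_eq_iff_eq_top H).1 h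
        exact step k M (Subgroup.zpowers g) hsup (ih _ (hlt M hM.1) M rfl)
          (ih _ (hlt _ hz) (Subgroup.zpowers g) rfl)

end H36.RT
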