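import Mathlib

/-!
# [H36 RT APPROX1] the complex roots of `f(1/t, Y)` for large `t`

Proof. Let `c_i = v (constantCoeff (θ i))`, pairwise different, `g > 0` less than all the distances
`|c_i - c_l|`. `F_t := (f.map (evalRingHom t⁻¹)).map v` is monic of degree `n` and its coefficients
converge, as `t → ∞`, to those of `F_∞ = (f.map (evalRingHom 0)).map v = ∏ (X - c_i)` (`hθ` modulo `z`).
`F_t(c_i) → 0`, `|F_t(c_i)|` is the product of the distances from `c_i` to the `n` roots of `F_t`, so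
for `t ≥ t₀` every `c_i` has a root `ρ t i` of `F_t` at distance `≤ g/4`; these are different for
different `i`, so `F_t = ∏ (X - C (ρ t i))` (`choose` them).
Let `m` be given, `P_i = (trunc m (θ i)).map v`, `p = P_i(1/t)`. In `K⟦z⟧`, `f(θ i) = 0` and
`trunc m (θ i) ≡ θ i mod z^m`, so the polynomial `f(z, trunc m (θ i)) ∈ K[z]` is divisible by `z^m`,
and `|F_t(p)| ≤ C₁ t^(-m)` for all `t ≥ 1`. `|F_t(p)| = ∏_l |p - ρ t l|`, and for `l ≠ i` and `t`
large `|p - ρ t l| ≥ |c_i - c_l| - |p - c_i| - |c_l - ρ t l| ≥ g/4` (if `m ≥ 1`, `p → c_i`; `m = 0`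
is the boundedness of the roots). So `|p - ρ t i| ≤ C₁ (4/g)^(n-1) t^(-m)` for `t` large; for the
finitely many remaining `t ≥ t₀` enlarge `C` (take `t₀ ≥ 1`).
-/

open Polynomial Filter Topology

noncomputable section

namespace H36.RT

private lemma ar_bound (Q : ℂ[X]) : ∃ D : ℝ, 0 ≤ D ∧ ∀ w : ℂ, ‖w‖ ≤ 1 → ‖Q.eval w‖ ≤ D := by
  obtain ⟨D, hD⟩ := (isCompact_closedBall (0 : ℂ) 1).exists_bound_of_continuousOn
    Q.continuous.continuousOn
  have h : ∀ w : ℂ, ‖w‖ ≤ 1 → ‖Q.eval w‖ ≤ D := fun w hw => hD w (by simpa using hw)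
  exact ⟨D, (norm_nonneg _).trans (h 0 (by simp)), h⟩

private lemma ar_eval (f : ℂ[X][X]) (p : ℂ[X]) (w : ℂ) :
    (f.map (evalRingHom w)).eval (p.eval w) = (f.eval p).eval w := by
  rw [eval_map]
  exact eval₂_at_apply (evalRingHom w) p

private lemma ar_dvd {n : ℕ} (f : ℂ[X][X]) (θ : Fin n → PowerSeries ℂ)
    (hθ : f.map (Polynomial.coeToPowerSeries.ringHom : ℂ[X] →+* PowerSeries ℂ) =
      ∏ i, (X - C (θ i))) (m : ℕ) (i : Fin n) :
    (X : ℂ[X]) ^ m ∣ f.eval (PowerSeries.trunc m (θ i)) := by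
  set φ : ℂ[X] →+* PowerSeries ℂ := Polynomial.coeToPowerSeries.ringHom with hφ
  have h1 : φ (f.eval (PowerSeries.trunc m (θ i))) =
      ∏ l, (φ (PowerSeries.trunc m (θ i)) - θ l) := by
    rw [← eval₂_at_apply φ, ← eval_map, hθ, eval_prod]
    simp
  have h2 : (PowerSeries.X : PowerSeries ℂ) ^ m ∣ φ (PowerSeries.trunc m (θ i)) - θ i := by
    rw [PowerSeries.X_pow_dvd_iff]
    intro d hd
    rw [map_sub, sub_eq_zero, hφ]
    simp [Polynomial.coeff_coe, PowerSeries.coeff_trunc, hd]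
  have h3 : (PowerSeries.X : PowerSeries ℂ) ^ m ∣ φ (f.eval (PowerSeries.trunc m (θ i))) := by
    rw [h1]
    exact h2.trans (Finset.dvd_prod_of_mem _ (Finset.mem_univ i))
  rw [Polynomial.X_pow_dvd_iff]
  intro d hd
  have h4 := (PowerSeries.X_pow_dvd_iff.1 h3) d hd
  rw [hφ] at h4
  simpa [Polynomial.coeff_coe] using h4

private lemma ar_small {n : ℕ} (f : ℂ[X][X]) (θ : Fin n → PowerSeries ℂ)
    (hθ : f.map (Polynomial.coeToPowerSeries.ringHom : ℂ[X] →+* PowerSeries ℂ) =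
      ∏ i, (X - C (θ i))) (m : ℕ) (i : Fin n) :
    ∃ D : ℝ, 0 ≤ D ∧ ∀ w : ℂ, ‖w‖ ≤ 1 →
      ‖(f.map (evalRingHom w)).eval ((PowerSeries.trunc m (θ i)).eval w)‖ ≤ D * ‖w‖ ^ m := by
  obtain ⟨Q, hQ⟩ := ar_dvd f θ hθ m i
  obtain ⟨D, hD0, hD⟩ := ar_bound Q
  refine ⟨D, hD0, fun w hw => ?_⟩
  rw [ar_eval, hQ, eval_mul, eval_pow, eval_X, norm_mul, norm_pow, mul_comm]
  gcongr
  exact hD w hw

private lemma ar_multiset (s : Multiset ℂ) (h : ℂ → ℝ) (d : ℝ) (hd : 0 ≤ d)
    (hs : ∀ a ∈ s, d ≤ h a) : d ^ (Multiset.card s) ≤ (s.map h).prod := by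
  induction s using Multiset.induction_on with
  | empty => simp
  | cons a s ih =>
    rw [Multiset.map_cons, Multiset.prod_cons, Multiset.card_cons, pow_succ, mul_comm]
    apply mul_le_mul (hs a (Multiset.mem_cons_self a s))
      (ih fun b hb => hs b (Multiset.mem_cons_of_mem hb)) (by positivity)
      (hd.trans (hs a (Multiset.mem_cons_self a s)))

private lemma ar_root (F : ℂ[X]) (hF : F.Monic) (c : ℂ) (d : ℝ) (hd : 0 ≤ d)
    (h : ‖F.eval c‖ < d ^ F.natDegree) : ∃ a : ℂ, F.IsRoot a ∧ ‖c - a‖ ≤ d := by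
  by_contra hcon
  push Not at hcon
  have hs : F.Splits := IsAlgClosed.splits F
  have h1 := hs.eval_eq_prod_roots_of_monic hF c
  have h2 : ‖F.eval c‖ = (F.roots.map (fun a => ‖c - a‖)).prod := by
    rw [h1]
    have := map_multiset_prod (normHom : ℂ →*₀ ℝ) (F.roots.map (fun a => c - a))
    rw [Multiset.map_map] at this
    simpa using this
  have h3 := ar_multiset F.roots (fun a => ‖c - a‖) d hd
    (fun a ha => (hcon a (Polynomial.isRoot_of_mem_roots ha)).le)
  have h4 : Multiset.card F.roots = F.natDegree := hs.natDegree_eq_card_roots.symm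
  rw [h4, ← h2] at h3
  linarith

private lemma ar_gap {n : ℕ} (c : Fin n → ℂ) (hc : Function.Injective c) :
    ∃ g : ℝ, 0 < g ∧ ∀ i l, i ≠ l → g ≤ ‖c i - c l‖ := by
  have h : ∀ᶠ g : ℝ in 𝓝[>] 0, ∀ i l, i ≠ l → g ≤ ‖c i - c l‖ := by
    rw [eventually_all]
    intro i
    rw [eventually_all]
    intro l
    by_cases hil : i = l
    · exact Eventually.of_forall fun g hg => absurd hil hg
    · have hpos : 0 < ‖c i - c l‖ := by
        rw [norm_pos_iff, sub_ne_zero]
        exact fun h => hil (hc h)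
      filter_upwards [Ioo_mem_nhdsGT hpos] with g hg _ using hg.2.le
  obtain ⟨g, hg1, hg2⟩ := (h.and self_mem_nhdsWithin).exists
  exact ⟨g, hg2, hg1⟩

private theorem ar_complex (f : ℂ[X][X]) (hf : f.Monic) (n : ℕ)
    (θ : Fin n → PowerSeries ℂ)
    (hθ : f.map (Polynomial.coeToPowerSeries.ringHom : ℂ[X] →+* PowerSeries ℂ) =
      ∏ i, (X - C (θ i)))
    (hinj : Function.Injective fun i => PowerSeries.constantCoeff (θ i)) :
    ∃ r : ℝ, 0 < r ∧ ∃ ρ : ℂ → Fin n → ℂ,
      (∀ w, ‖w‖ ≤ r → f.map (evalRingHom w) = ∏ i, (X - C (ρ w i))) ∧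
      ∀ m : ℕ, ∃ B : ℝ, ∀ w, ‖w‖ ≤ r → ∀ i,
        ‖ρ w i - (PowerSeries.trunc m (θ i)).eval w‖ ≤ B * ‖w‖ ^ m := by
  classical
  set c : Fin n → ℂ := fun i => PowerSeries.constantCoeff (θ i) with hc
  obtain ⟨g, hg0, hg⟩ := ar_gap c hinj
  have hdeg : ∀ w : ℂ, (f.map (evalRingHom w)).natDegree = n := by
    intro w
    rw [hf.natDegree_map]
    have h1 := congrArg natDegree hθ
    rw [hf.natDegree_map, natDegree_finsetProd_X_sub_C_eq_card] at h1
    simpa using h1
  have hmon : ∀ w : ℂ, (f.map (evalRingHom w)).Monic := fun w => hf.map _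
  -- choice of the radius
  have h1 : ∀ i, ∃ D : ℝ, 0 ≤ D ∧ ∀ w : ℂ, ‖w‖ ≤ 1 →
      ‖(f.map (evalRingHom w)).eval (c i)‖ ≤ D * ‖w‖ := by
    intro i
    obtain ⟨D, hD0, hD⟩ := ar_small f θ hθ 1 i
    refine ⟨D, hD0, fun w hw => ?_⟩
    have := hD w hw
    rw [PowerSeries.trunc_one_left, eval_C, pow_one, PowerSeries.coeff_zero_eq_constantCoeff_apply]
      at this
    exact this
  choose D₁ hD₁0 hD₁ using h1
  have hr : ∀ᶠ r : ℝ in 𝓝[>] 0, r ≤ 1 ∧ ∀ i, D₁ i * r < (g / 4) ^ n := by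
    have ha : ∀ᶠ r : ℝ in 𝓝[>] 0, r ≤ 1 := by
      filter_upwards [Ioo_mem_nhdsGT (zero_lt_one : (0 : ℝ) < 1)] with r hr using hr.2.le
    have hb : ∀ᶠ r : ℝ in 𝓝[>] 0, ∀ i, D₁ i * r < (g / 4) ^ n := by
      rw [eventually_all]
      intro i
      have ht : Tendsto (fun r : ℝ => D₁ i * r) (𝓝 0) (𝓝 (D₁ i * 0)) :=
        (continuous_const.mul continuous_id).tendsto 0
      rw [mul_zero] at ht
      exact (ht.mono_left nhdsWithin_le_nhds).eventually (gt_mem_nhds (by positivity))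
    exact ha.and hb
  obtain ⟨r, ⟨hr1, hr2⟩, hr0⟩ := (hr.and self_mem_nhdsWithin).exists
  have hr0 : 0 < r := hr0
  have hroot : ∀ w : ℂ, ‖w‖ ≤ r → ∀ i, ∃ a : ℂ, (f.map (evalRingHom w)).IsRoot a ∧
      ‖c i - a‖ ≤ g / 4 := by
    intro w hw i
    apply ar_root _ (hmon w) _ _ (by positivity)
    rw [hdeg w]
    calc ‖(f.map (evalRingHom w)).eval (c i)‖ ≤ D₁ i * ‖w‖ := hD₁ i w (hw.trans hr1)
      _ ≤ D₁ i * r := mul_le_mul_of_nonneg_left hw (hD₁0 i)
      _ < (g / 4) ^ n := hr2 i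
  choose! ρ hρroot hρc using hroot
  have hρinj : ∀ w : ℂ, ‖w‖ ≤ r → Function.Injective (ρ w) := by
    intro w hw i l hil
    by_contra hne
    have h1 := hg i l hne
    have h2 : ‖c i - c l‖ ≤ g / 4 + g / 4 := by
      calc ‖c i - c l‖ = ‖(c i - ρ w i) - (c l - ρ w l)‖ := by rw [hil]; congr 1; ring
        _ ≤ ‖c i - ρ w i‖ + ‖c l - ρ w l‖ := norm_sub_le _ _
        _ ≤ g / 4 + g / 4 := add_le_add (hρc w hw i) (hρc w hw l)
    linarith
  have hfac : ∀ w : ℂ, ‖w‖ ≤ r → f.map (evalRingHom w) = ∏ i, (X - C (ρ w i)) := by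
    intro w hw
    symm
    apply (eq_of_monic_of_dvd_of_natDegree_le (monic_prod_of_monic _ _ fun i _ => monic_X_sub_C _)
      (hmon w) _ _).symm
    · apply Finset.prod_dvd_of_coprime
      · exact (pairwise_coprime_X_sub_C (hρinj w hw)).set_pairwise _
      · intro i _
        exact dvd_iff_isRoot.2 (hρroot w hw i)
    · rw [hdeg w, natDegree_finsetProd_X_sub_C_eq_card]
      simp
  refine ⟨r, hr0, ρ, hfac, ?_⟩
  intro m
  have hB : ∀ i, ∃ B : ℝ, 0 ≤ B ∧ ∀ w, ‖w‖ ≤ r →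
      ‖ρ w i - (PowerSeries.trunc m (θ i)).eval w‖ ≤ B * ‖w‖ ^ m := by
    intro i
    obtain ⟨D, hD0, hD⟩ := ar_bound (PowerSeries.trunc m (θ i))
    have hcrude : ∀ w, ‖w‖ ≤ r →
        ‖ρ w i - (PowerSeries.trunc m (θ i)).eval w‖ ≤ ‖c i‖ + g / 4 + D := by
      intro w hw
      have h1 : ‖ρ w i‖ ≤ ‖c i‖ + g / 4 := by
        calc ‖ρ w i‖ = ‖c i - (c i - ρ w i)‖ := by congr 1; ring
          _ ≤ ‖c i‖ + ‖c i - ρ w i‖ := norm_sub_le _ _
          _ ≤ ‖c i‖ + g / 4 := by linarith [hρc w hw i]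
      calc ‖ρ w i - (PowerSeries.trunc m (θ i)).eval w‖
          ≤ ‖ρ w i‖ + ‖(PowerSeries.trunc m (θ i)).eval w‖ := norm_sub_le _ _
        _ ≤ ‖c i‖ + g / 4 + D := add_le_add h1 (hD w (hw.trans hr1))
    have hcn : 0 ≤ ‖c i‖ + g / 4 + D := by positivity
    rcases Nat.eq_zero_or_pos m with hm | hm
    · refine ⟨‖c i‖ + g / 4 + D, hcn, fun w hw => ?_⟩
      have h2 : ‖w‖ ^ m = 1 := by rw [hm, pow_zero]
      rw [h2, mul_one]
      exact hcrude w hw
    · obtain ⟨E, hE0, hE⟩ := ar_small f θ hθ m i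
      have h0 : (PowerSeries.trunc m (θ i)).eval 0 = c i := by
        rw [← coeff_zero_eq_eval_zero, PowerSeries.coeff_trunc, if_pos hm,
          PowerSeries.coeff_zero_eq_constantCoeff_apply]
      have hcont : Tendsto (fun w : ℂ => ‖(PowerSeries.trunc m (θ i)).eval w - c i‖) (𝓝 0)
          (𝓝 0) := by
        have h2 : Continuous fun w : ℂ => ‖(PowerSeries.trunc m (θ i)).eval w - c i‖ :=
          ((PowerSeries.trunc m (θ i)).continuous.sub continuous_const).norm
        have h3 := h2.tendsto 0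
        rw [h0, sub_self, norm_zero] at h3
        exact h3
      obtain ⟨s, hs0, hs⟩ := Metric.eventually_nhds_iff.1
        (hcont.eventually (gt_mem_nhds (show (0 : ℝ) < g / 4 by positivity)))
      have hs' : ∀ w : ℂ, ‖w‖ < s → ‖(PowerSeries.trunc m (θ i)).eval w - c i‖ < g / 4 := by
        intro w hw
        exact hs (by simpa using hw)
      have hgn : 0 < (g / 2) ^ (n - 1) := by positivity
      refine ⟨E / (g / 2) ^ (n - 1) + (‖c i‖ + g / 4 + D) / s ^ m, by positivity,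
        fun w hw => ?_⟩
      rw [add_mul]
      rcases lt_or_ge ‖w‖ s with hws | hws
      · have h2 : ‖ρ w i - (PowerSeries.trunc m (θ i)).eval w‖ * (g / 2) ^ (n - 1) ≤
            E * ‖w‖ ^ m := by
          refine le_trans ?_ (hE w (hw.trans hr1))
          rw [hfac w hw, eval_prod, norm_prod, ← Finset.mul_prod_erase _ _ (Finset.mem_univ i)]
          simp only [eval_sub, eval_X, eval_C]
          rw [norm_sub_rev (ρ w i)]
          apply mul_le_mul_of_nonneg_left _ (norm_nonneg _)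
          have h3 : (g / 2) ^ (n - 1) = ∏ l ∈ Finset.univ.erase i, (g / 2) := by
            rw [Finset.prod_const, Finset.card_erase_of_mem (Finset.mem_univ i)]
            simp
          rw [h3]
          apply Finset.prod_le_prod
          · intro _ _
            positivity
          · intro l hl
            have hli : i ≠ l := fun h => (Finset.mem_erase.1 hl).1 h.symm
            have h4 := hg i l hli
            have h5 := hs' w hws
            have h6 := hρc w hw l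
            have h7 : ‖c i - c l‖ ≤ ‖(PowerSeries.trunc m (θ i)).eval w - ρ w l‖ +
                ‖(PowerSeries.trunc m (θ i)).eval w - c i‖ + ‖c l - ρ w l‖ := by
              calc ‖c i - c l‖ = ‖((PowerSeries.trunc m (θ i)).eval w - ρ w l) -
                    ((PowerSeries.trunc m (θ i)).eval w - c i) - (c l - ρ w l)‖ := by
                    congr 1; ring
                _ ≤ ‖((PowerSeries.trunc m (θ i)).eval w - ρ w l) -
                    ((PowerSeries.trunc m (θ i)).eval w - c i)‖ + ‖c l - ρ w l‖ :=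
                    norm_sub_le _ _
                _ ≤ _ := by
                    have := norm_sub_le ((PowerSeries.trunc m (θ i)).eval w - ρ w l)
                      ((PowerSeries.trunc m (θ i)).eval w - c i)
                    linarith
            linarith
        have h3 : ‖ρ w i - (PowerSeries.trunc m (θ i)).eval w‖ ≤
            E / (g / 2) ^ (n - 1) * ‖w‖ ^ m := by
          rw [div_mul_eq_mul_div, le_div_iff₀ hgn]
          exact h2
        have h4 : 0 ≤ (‖c i‖ + g / 4 + D) / s ^ m * ‖w‖ ^ m := by positivity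
        linarith
      · have h2 : ‖c i‖ + g / 4 + D ≤ (‖c i‖ + g / 4 + D) / s ^ m * ‖w‖ ^ m := by
          rw [div_mul_eq_mul_div, le_div_iff₀ (by positivity)]
          gcongr
        have h3 : 0 ≤ E / (g / 2) ^ (n - 1) * ‖w‖ ^ m := by positivity
        have h4 := hcrude w hw
        linarith
  choose B hB0 hB using hB
  refine ⟨∑ i, B i, fun w hw i => (hB i w hw).trans ?_⟩
  gcongr
  exact Finset.single_le_sum (fun j _ => hB0 j) (Finset.mem_univ i)

theorem approx_roots (K : Type) [Field K] (f : K[X][X]) (hf : f.Monic) (n : ℕ)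
    (θ : Fin n → PowerSeries K)
    (hθ : f.map (Polynomial.coeToPowerSeries.ringHom : K[X] →+* PowerSeries K) =
      ∏ i, (X - C (θ i)))
    (hinj : Function.Injective fun i => PowerSeries.constantCoeff (θ i)) (v : K →+* ℂ) :
    ∃ (t₀ : ℕ) (ρ : ℕ → Fin n → ℂ), 0 < t₀ ∧
      (∀ t ≥ t₀, (f.map (Polynomial.evalRingHom ((t : K)⁻¹))).map v = ∏ i, (X - C (ρ t i))) ∧
      ∀ m : ℕ, ∃ B : ℝ, ∀ t ≥ t₀, ∀ i,
        ‖ρ t i - ((PowerSeries.trunc m (θ i)).map v).eval ((t : ℂ)⁻¹)‖ ≤ B / (t : ℝ) ^ m := by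
  set f' : ℂ[X][X] := f.map (mapRingHom v) with hf'
  set θ' : Fin n → PowerSeries ℂ := fun i => PowerSeries.map v (θ i) with hθ'def
  have hmon' : f'.Monic := hf.map _
  have hθ' : f'.map (Polynomial.coeToPowerSeries.ringHom : ℂ[X] →+* PowerSeries ℂ) =
      ∏ i, (X - C (θ' i)) := by
    have h1 := congrArg (Polynomial.map (PowerSeries.map v)) hθ
    rw [Polynomial.map_map, Polynomial.map_prod] at h1
    rw [hf', Polynomial.map_map]
    have h2 : (Polynomial.coeToPowerSeries.ringHom : ℂ[X] →+* PowerSeries ℂ).comp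
        (mapRingHom v) = (PowerSeries.map v).comp
          (Polynomial.coeToPowerSeries.ringHom : K[X] →+* PowerSeries K) := by
      refine RingHom.ext fun p => ?_
      simp [Polynomial.polynomial_map_coe]
    rw [h2, h1]
    simp [hθ'def]
  have hinj' : Function.Injective fun i => PowerSeries.constantCoeff (θ' i) := by
    intro i l h
    apply hinj
    have e : ∀ j, PowerSeries.constantCoeff (θ' j) = v (PowerSeries.constantCoeff (θ j)) := by
      intro j
      rw [hθ'def, ← PowerSeries.coeff_zero_eq_constantCoeff_apply, PowerSeries.coeff_map,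
        PowerSeries.coeff_zero_eq_constantCoeff_apply]
    simp only [e] at h
    exact v.injective h
  obtain ⟨r, hr0, ρ, hρ1, hρ2⟩ := ar_complex f' hmon' n θ' hθ' hinj'
  have hnorm : ∀ t : ℕ, ⌈1 / r⌉₊ + 1 ≤ t → ‖((t : ℂ))⁻¹‖ ≤ r := by
    intro t ht
    have h1 : 1 / r ≤ t := by
      calc 1 / r ≤ (⌈1 / r⌉₊ : ℝ) := Nat.le_ceil _
        _ ≤ t := by exact_mod_cast (by omega : ⌈1 / r⌉₊ ≤ t)
    have ht0 : (0 : ℝ) < t := lt_of_lt_of_le (by positivity) h1
    rw [norm_inv, Complex.norm_natCast, inv_le_comm₀ ht0 hr0]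
    simpa using h1
  refine ⟨⌈1 / r⌉₊ + 1, fun t => ρ ((t : ℂ)⁻¹), by omega, ?_, ?_⟩
  · intro t ht
    rw [← hρ1 _ (hnorm t ht), hf', Polynomial.map_map, Polynomial.map_map]
    congr 1
    ext x
    · simp
    · simp
  · intro m
    obtain ⟨B, hB⟩ := hρ2 m
    refine ⟨B, fun t ht i => ?_⟩
    have h1 := hB _ (hnorm t ht) i
    have h2 : PowerSeries.trunc m (θ' i) = (PowerSeries.trunc m (θ i)).map v := by
      rw [hθ'def, PowerSeries.trunc_map]
    rw [h2] at h1
    refine h1.trans (le_of_eq ?_)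
    rw [norm_inv, Complex.norm_natCast, inv_pow, div_eq_mul_inv]

end H36.RT
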