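import Pool.Agent.H36.RT.Approx1

/-!
# [H36 RT APPROX2] the coefficients of the complex factors

Proof. From `approx_roots`. Induction on `I` (`Finset.induction_on`) of the statement: for every `m`
there is `B` such that for `t ≥ t₀` and all `j` the estimate holds. Simplest form of the step: for a
power series `F` write `F_m(t) := ((trunc m F).map v).eval t⁻¹`; say that `a : ℕ → ℂ` is represented by
`F` if for every `m` there is `B` with `|a t - F_m(t)| ≤ B t^(-m)` for all `t ≥ t₀ ≥ 1`. Constants are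
represented by constants, and sums and products are represented by sums and products:
`trunc m (F G) ≡ trunc m F * trunc m G` modulo `z^m` as polynomials, so
`|(F G)_m(t) - F_m(t) G_m(t)| ≤ B t^(-m)`, and `F_m(t)`, `a t` are bounded. `ρ t i` is represented by
`θ i`, and the coefficients of `∏ (X - C (ρ t i))` are obtained from the `ρ t i` by
`coeff j ((X - C r) * p) = coeff (j-1) p - r * coeff j p`. There are finitely many `I` and only
`j ≤ n` matter (for `j > |I|` both sides are `0`), so one `B` for all.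
-/

open Polynomial

noncomputable section

namespace H36.RT

/-- truncation at `t⁻¹` -/
def tv {K : Type} [Field K] (v : K →+* ℂ) (m : ℕ) (F : PowerSeries K) (t : ℕ) : ℂ :=
  ((PowerSeries.trunc m F).map v).eval ((t : ℂ)⁻¹)

/-- `a` is represented by `F` -/
def Rp {K : Type} [Field K] (v : K →+* ℂ) (t₀ : ℕ) (a : ℕ → ℂ) (F : PowerSeries K) : Prop :=
  ∀ m : ℕ, ∃ B : ℝ, ∀ t ≥ t₀, ‖a t - tv v m F t‖ ≤ B / (t : ℝ) ^ m

theorem poly_bound (Q : ℂ[X]) : ∃ B : ℝ, ∀ x : ℂ, ‖x‖ ≤ 1 → ‖Q.eval x‖ ≤ B := by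
  have h := (isCompact_closedBall (0 : ℂ) 1).exists_bound_of_continuousOn
    (f := fun x => Q.eval x) Q.continuous.continuousOn
  obtain ⟨B, hB⟩ := h
  exact ⟨B, fun x hx => hB x (by simpa using hx)⟩

theorem inv_le (t : ℕ) (ht : 0 < t) : ‖((t : ℂ)⁻¹)‖ ≤ 1 := by
  rw [norm_inv, Complex.norm_natCast]
  have h : (1 : ℝ) ≤ t := by exact_mod_cast ht
  exact inv_le_one_of_one_le₀ h

theorem tv_bound {K : Type} [Field K] (v : K →+* ℂ) (m : ℕ) (F : PowerSeries K) :
    ∃ B : ℝ, ∀ t : ℕ, 0 < t → ‖tv v m F t‖ ≤ B := by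
  obtain ⟨B, hB⟩ := poly_bound ((PowerSeries.trunc m F).map v)
  exact ⟨B, fun t ht => hB _ (inv_le t ht)⟩

theorem Rp.bdd {K : Type} [Field K] {v : K →+* ℂ} {t₀ : ℕ} {a : ℕ → ℂ} {F : PowerSeries K}
    (h : Rp v t₀ a F) : ∃ B : ℝ, ∀ t ≥ t₀, ‖a t‖ ≤ B := by
  obtain ⟨B, hB⟩ := h 0
  refine ⟨B, fun t ht => ?_⟩
  have h1 := hB t ht
  have h2 : tv v 0 F t = 0 := by
    unfold tv
    have : PowerSeries.trunc 0 F = 0 := by
      ext i
      simp [PowerSeries.coeff_trunc]
    rw [this]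
    simp
  rw [h2, sub_zero, pow_zero, div_one] at h1
  exact h1

theorem Rp.zero {K : Type} [Field K] (v : K →+* ℂ) (t₀ : ℕ) :
    Rp v t₀ (fun _ => 0) (0 : PowerSeries K) := by
  intro m
  refine ⟨0, fun t _ => ?_⟩
  unfold tv
  simp

theorem Rp.one {K : Type} [Field K] (v : K →+* ℂ) (t₀ : ℕ) :
    Rp v t₀ (fun _ => 1) (1 : PowerSeries K) := by
  intro m
  rcases m with _ | m
  · refine ⟨1, fun t _ => ?_⟩
    have : PowerSeries.trunc 0 (1 : PowerSeries K) = 0 := by
      ext i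
      simp [PowerSeries.coeff_trunc]
    unfold tv
    rw [this]
    simp
  · refine ⟨0, fun t _ => ?_⟩
    unfold tv
    have h1 : PowerSeries.trunc (m + 1) (1 : PowerSeries K) = 1 := PowerSeries.trunc_one m
    rw [h1]
    simp

theorem Rp.sub {K : Type} [Field K] {v : K →+* ℂ} {t₀ : ℕ} {a b : ℕ → ℂ} {F G : PowerSeries K}
    (h : Rp v t₀ a F) (h' : Rp v t₀ b G) : Rp v t₀ (fun t => a t - b t) (F - G) := by
  intro m
  obtain ⟨B, hB⟩ := h m
  obtain ⟨B', hB'⟩ := h' m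
  refine ⟨B + B', fun t ht => ?_⟩
  have h1 : tv v m (F - G) t = tv v m F t - tv v m G t := by
    unfold tv
    have : PowerSeries.trunc m (F - G) = PowerSeries.trunc m F - PowerSeries.trunc m G := by
      ext i
      simp only [PowerSeries.coeff_trunc, map_sub, coeff_sub]
    rw [this]
    simp
  have h2 : a t - b t - tv v m (F - G) t = (a t - tv v m F t) - (b t - tv v m G t) := by
    rw [h1]; ring
  show ‖a t - b t - tv v m (F - G) t‖ ≤ _
  rw [h2, add_div]
  exact (norm_sub_le _ _).trans (add_le_add (hB t ht) (hB' t ht))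

theorem tv_mul {K : Type} [Field K] (v : K →+* ℂ) (m : ℕ) (F G : PowerSeries K) :
    ∃ B : ℝ, ∀ t : ℕ, 0 < t →
      ‖tv v m F t * tv v m G t - tv v m (F * G) t‖ ≤ B / (t : ℝ) ^ m := by
  have hdvd : (X : K[X]) ^ m ∣ PowerSeries.trunc m F * PowerSeries.trunc m G -
      PowerSeries.trunc m (F * G) := by
    rw [X_pow_dvd_iff]
    intro d hd
    rw [coeff_sub, PowerSeries.coeff_trunc, if_pos hd, coeff_mul, PowerSeries.coeff_mul,
      sub_eq_zero]
    apply Finset.sum_congr rfl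
    intro x hx
    have h1 := Finset.HasAntidiagonal.mem_antidiagonal.1 hx
    rw [PowerSeries.coeff_trunc, PowerSeries.coeff_trunc, if_pos (by omega), if_pos (by omega)]
  obtain ⟨Q, hQ⟩ := hdvd
  obtain ⟨B, hB⟩ := poly_bound (Q.map v)
  refine ⟨B, fun t ht => ?_⟩
  have h1 : tv v m F t * tv v m G t - tv v m (F * G) t =
      ((t : ℂ)⁻¹) ^ m * (Q.map v).eval ((t : ℂ)⁻¹) := by
    unfold tv
    rw [← eval_mul, ← Polynomial.map_mul, ← eval_sub, ← Polynomial.map_sub, hQ,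
      Polynomial.map_mul, eval_mul]
    simp
  rw [h1, norm_mul, norm_pow, norm_inv, Complex.norm_natCast, inv_pow, mul_comm, ← div_eq_mul_inv]
  have ht' : (0 : ℝ) < t := by exact_mod_cast ht
  exact div_le_div_of_nonneg_right (hB _ (inv_le t ht)) (by positivity)

theorem Rp.mul {K : Type} [Field K] {v : K →+* ℂ} {t₀ : ℕ} (ht₀ : 0 < t₀) {a b : ℕ → ℂ}
    {F G : PowerSeries K} (h : Rp v t₀ a F) (h' : Rp v t₀ b G) :
    Rp v t₀ (fun t => a t * b t) (F * G) := by
  intro m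
  obtain ⟨B1, hB1⟩ := h m
  obtain ⟨B2, hB2⟩ := h' m
  obtain ⟨B3, hB3⟩ := h'.bdd
  obtain ⟨B4, hB4⟩ := tv_bound v m F
  obtain ⟨B5, hB5⟩ := tv_mul v m F G
  refine ⟨B1 * B3 + B4 * B2 + B5, fun t ht => ?_⟩
  have ht1 : 0 < t := lt_of_lt_of_le ht₀ ht
  have htp : (0 : ℝ) < (t : ℝ) ^ m := by
    have : (0 : ℝ) < t := by exact_mod_cast ht1
    positivity
  have h2 : a t * b t - tv v m (F * G) t = (a t - tv v m F t) * b t +
      tv v m F t * (b t - tv v m G t) + (tv v m F t * tv v m G t - tv v m (F * G) t) := by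
    ring
  have e1 : ‖(a t - tv v m F t) * b t‖ ≤ B1 / (t : ℝ) ^ m * B3 := by
    rw [norm_mul]
    exact mul_le_mul (hB1 t ht) (hB3 t ht) (norm_nonneg _)
      ((norm_nonneg _).trans (hB1 t ht))
  have e2 : ‖tv v m F t * (b t - tv v m G t)‖ ≤ B4 * (B2 / (t : ℝ) ^ m) := by
    rw [norm_mul]
    exact mul_le_mul (hB4 t ht1) (hB2 t ht) (norm_nonneg _)
      ((norm_nonneg _).trans (hB4 t ht1))
  have e3 := hB5 t ht1
  show ‖a t * b t - tv v m (F * G) t‖ ≤ _
  rw [h2]
  refine (norm_add_le _ _).trans ?_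
  refine (add_le_add ((norm_add_le _ _).trans (add_le_add e1 e2)) e3).trans ?_
  apply le_of_eq
  ring

theorem Rp.prod {K : Type} [Field K] {v : K →+* ℂ} {t₀ : ℕ} (ht₀ : 0 < t₀) {n : ℕ}
    {ρ : ℕ → Fin n → ℂ} {θ : Fin n → PowerSeries K}
    (h : ∀ i, Rp v t₀ (fun t => ρ t i) (θ i)) (I : Finset (Fin n)) :
    ∀ j : ℕ, Rp v t₀ (fun t => (∏ i ∈ I, (X - C (ρ t i))).coeff j)
      ((∏ i ∈ I, (X - C (θ i))).coeff j) := by
  classical
  induction I using Finset.induction_on with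
  | empty =>
    intro j
    simp only [Finset.prod_empty, coeff_one]
    split_ifs
    · exact Rp.one v t₀
    · exact Rp.zero v t₀
  | insert i I hi ih =>
    intro j
    have e1 : ∀ t, ∏ l ∈ insert i I, (X - C (ρ t l)) =
        (∏ l ∈ I, (X - C (ρ t l))) * (X - C (ρ t i)) := fun t => by
      rw [Finset.prod_insert hi, mul_comm]
    have e2 : ∏ l ∈ insert i I, (X - C (θ l)) =
        (∏ l ∈ I, (X - C (θ l))) * (X - C (θ i)) := by
      rw [Finset.prod_insert hi, mul_comm]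
    simp only [e1, e2]
    rcases j with _ | j
    · simp only [mul_coeff_zero, coeff_sub, coeff_X_zero, coeff_C_zero, zero_sub]
      exact (ih 0).mul ht₀ (by simpa using (Rp.zero v t₀).sub (h i))
    · simp only [coeff_mul_X_sub_C]
      exact (ih j).sub ((ih (j + 1)).mul ht₀ (h i))

theorem approx_coeff (K : Type) [Field K] (f : K[X][X]) (hf : f.Monic) (n : ℕ)
    (θ : Fin n → PowerSeries K)
    (hθ : f.map (Polynomial.coeToPowerSeries.ringHom : K[X] →+* PowerSeries K) =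
      ∏ i, (X - C (θ i)))
    (hinj : Function.Injective fun i => PowerSeries.constantCoeff (θ i)) (v : K →+* ℂ) :
    ∃ (t₀ : ℕ) (ρ : ℕ → Fin n → ℂ), 0 < t₀ ∧
      (∀ t ≥ t₀, (f.map (Polynomial.evalRingHom ((t : K)⁻¹))).map v = ∏ i, (X - C (ρ t i))) ∧
      ∀ m : ℕ, ∃ B : ℝ, ∀ t ≥ t₀, ∀ (I : Finset (Fin n)) (j : ℕ),
        ‖(∏ i ∈ I, (X - C (ρ t i))).coeff j -
          ((PowerSeries.trunc m ((∏ i ∈ I, (X - C (θ i))).coeff j)).map v).eval ((t : ℂ)⁻¹)‖ ≤
            B / (t : ℝ) ^ m := by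
  classical
  obtain ⟨t₀, ρ, ht₀, hfac, hap⟩ := approx_roots K f hf n θ hθ hinj v
  refine ⟨t₀, ρ, ht₀, hfac, ?_⟩
  have h1 : ∀ i, Rp v t₀ (fun t => ρ t i) (θ i) := by
    intro i m
    obtain ⟨B, hB⟩ := hap m
    exact ⟨B, fun t ht => hB t ht i⟩
  intro m
  have h2 : ∀ (I : Finset (Fin n)) (j : ℕ), ∃ B : ℝ, ∀ t ≥ t₀,
      ‖(∏ i ∈ I, (X - C (ρ t i))).coeff j -
        ((PowerSeries.trunc m ((∏ i ∈ I, (X - C (θ i))).coeff j)).map v).eval ((t : ℂ)⁻¹)‖ ≤
          B / (t : ℝ) ^ m := fun I j => Rp.prod ht₀ h1 I j m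
  choose B hB using h2
  refine ⟨∑ I : Finset (Fin n), ∑ j ∈ Finset.range (n + 1), |B I j|, ?_⟩
  intro t ht I j
  have ht' : (0 : ℝ) < t := by exact_mod_cast lt_of_lt_of_le ht₀ ht
  rcases Nat.lt_or_ge n j with hj | hj
  · have d1 : (∏ i ∈ I, (X - C (ρ t i))).coeff j = 0 := by
      apply coeff_eq_zero_of_natDegree_lt
      rw [natDegree_finsetProd_X_sub_C_eq_card]
      refine lt_of_le_of_lt (Finset.card_le_univ I) ?_
      simpa using hj
    have d2 : (∏ i ∈ I, (X - C (θ i))).coeff j = 0 := by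
      apply coeff_eq_zero_of_natDegree_lt
      rw [natDegree_finsetProd_X_sub_C_eq_card]
      refine lt_of_le_of_lt (Finset.card_le_univ I) ?_
      simpa using hj
    rw [d1, d2]
    simp only [map_zero, Polynomial.map_zero, eval_zero, sub_zero, norm_zero]
    positivity
  · refine (hB I j t ht).trans ?_
    apply div_le_div_of_nonneg_right _ (by positivity)
    calc B I j ≤ |B I j| := le_abs_self _
      _ ≤ ∑ j ∈ Finset.range (n + 1), |B I j| :=
          Finset.single_le_sum (f := fun j => |B I j|) (fun i _ => abs_nonneg _)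
            (Finset.mem_range.2 (by omega))
      _ ≤ _ := Finset.single_le_sum
          (f := fun I : Finset (Fin n) => ∑ j ∈ Finset.range (n + 1), |B I j|)
          (fun i _ => Finset.sum_nonneg (fun j _ => abs_nonneg _)) (Finset.mem_univ I)

end H36.RT
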