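import Mathlib

/-!
# Certificates

A certificate over a commutative ring `A` for the group `G`: a monic polynomial `f` of degree `|G|`
over `A` and polynomials `r g` such that `y ↦ r g (y)` defines an action of `G` on `A[Y]/(f)`,
`y_g = r g (y)`, with `y_g - y` a unit for `g ≠ 1`.
-/

open Polynomial

noncomputable section

namespace H36.RT

/-- A certificate for `G` over `A`. -/
structure Cert (G : Type) [Group G] (A : Type) [CommRing A] where
  f : A[X]
  r : G → A[X]
  w : G → A[X]
  monic : f.Monic
  deg : f.natDegree = Nat.card G
  one : f ∣ r 1 - X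
  root : ∀ g, f ∣ f.comp (r g)
  mul : ∀ g h, f ∣ (r h).comp (r g) - r (g * h)
  unit : ∀ g, g ≠ 1 → f ∣ (r g - X) * w g - 1

/-- Base change of certificates. -/
def Cert.map {G : Type} [Group G] {A B : Type} [CommRing A] [CommRing B] [Nontrivial B]
    (C : Cert G A) (φ : A →+* B) : Cert G B where
  f := C.f.map φ
  r g := (C.r g).map φ
  w g := (C.w g).map φ
  monic := C.monic.map φ
  deg := by rw [C.monic.natDegree_map, C.deg]
  one := by simpa using Polynomial.map_dvd φ C.one
  root g := by simpa [Polynomial.map_comp] using Polynomial.map_dvd φ (C.root g)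
  mul g h := by simpa [Polynomial.map_comp] using Polynomial.map_dvd φ (C.mul g h)
  unit g hg := by simpa using Polynomial.map_dvd φ (C.unit g hg)

/-- Descent of certificates along an injective homomorphism. -/
def Cert.descend {G : Type} [Group G] {A B : Type} [CommRing A] [CommRing B] [Nontrivial B]
    (φ : A →+* B) (hφ : Function.Injective φ) (C : Cert G B) (f : A[X]) (r w : G → A[X])
    (hf : f.map φ = C.f) (hm : f.Monic) (hr : ∀ g, (r g).map φ = C.r g)
    (hw : ∀ g, (w g).map φ = C.w g) : Cert G A where
  f := f
  r := r
  w := w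
  monic := hm
  deg := by rw [← C.deg, ← hf, hm.natDegree_map]
  one := by
    rw [← Polynomial.map_dvd_map φ hφ hm]
    simpa [hf, hr] using C.one
  root g := by
    rw [← Polynomial.map_dvd_map φ hφ hm]
    simpa [Polynomial.map_comp, hf, hr] using C.root g
  mul g h := by
    rw [← Polynomial.map_dvd_map φ hφ hm]
    simpa [Polynomial.map_comp, hf, hr] using C.mul g h
  unit g hg := by
    rw [← Polynomial.map_dvd_map φ hφ hm]
    simpa [hf, hr, hw] using C.unit g hg

end H36.RT
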