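import Pool.Agent.H36.RT.CertDef

/-!
# [H36 RT CERTGAL] a certificate from a Galois extension of `K(x)`

Proof. Primitive element `θ₀` (`Field.exists_primitive_element`); multiply it by a nonzero element of
`K[X]` to get `θ` integral over `K[X]` with `L = K(x)(θ)` (`exists_integral_multiple`,
`IsIntegral`). `f0 := minpoly K[X] θ`, monic, and `f0.map _ = minpoly (RatFunc K) θ`
(`minpoly.isIntegrallyClosed_eq_field_fractions'`, `K[X]` is integrally closed). Its degree is
`[L : K(x)] = |Gal| = |G|`. With `σ g := e.symm g` let `r g` be a polynomial over `RatFunc K` with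
`aeval θ (r g) = σ g θ` and `w g` one with `aeval θ (w g) = (σ g θ - θ)⁻¹` (every element of `L` is
`aeval θ p`). The divisibilities are `minpoly.dvd`: `aeval θ (p.comp (r g)) = aeval (σ g θ) p =
σ g (aeval θ p)`, so `f.comp (r g)` vanishes at `θ`; `aeval θ ((r h).comp (r g)) = σ g (aeval θ (r h))
= σ g (σ h θ)`; `σ g θ ≠ θ` for `g ≠ 1` (an automorphism that fixes the generator `θ` is the identity).
-/

open Polynomial

noncomputable section

namespace H36.RT

theorem cert_of_galois (G : Type) [Group G] [Finite G] (K : Type) [Field K] [CharZero K]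
    (L : Type) [Field L] [Algebra (RatFunc K) L] [FiniteDimensional (RatFunc K) L]
    [IsGalois (RatFunc K) L] (e : Gal(L/RatFunc K) ≃* G) :
    ∃ (C : Cert G (RatFunc K)) (f0 : K[X][X]) (θ : L), f0.Monic ∧
      f0.map (algebraMap K[X] (RatFunc K)) = C.f ∧ C.f = minpoly (RatFunc K) θ := by
  classical
  letI : Algebra K[X] L := ((algebraMap (RatFunc K) L).comp (algebraMap K[X] (RatFunc K))).toAlgebra
  haveI : IsScalarTower K[X] (RatFunc K) L := IsScalarTower.of_algebraMap_eq (fun _ => rfl)
  obtain ⟨θ₀, hθ₀⟩ := Field.exists_primitive_element (RatFunc K) L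
  have halg : IsAlgebraic K[X] θ₀ :=
    (IsFractionRing.isAlgebraic_iff K[X] (RatFunc K) L).2
      (Algebra.IsAlgebraic.isAlgebraic (R := RatFunc K) θ₀)
  obtain ⟨d, hd, hint⟩ := halg.exists_integral_multiple
  set θ : L := d • θ₀ with hθdef
  have hd' : algebraMap K[X] (RatFunc K) d ≠ 0 := by
    intro h
    exact hd ((IsFractionRing.injective K[X] (RatFunc K)) (by rw [h, map_zero]))
  have hθeq : θ = algebraMap (RatFunc K) L (algebraMap K[X] (RatFunc K) d) * θ₀ := by
    rw [hθdef, Algebra.smul_def]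
    rfl
  have htop : IntermediateField.adjoin (RatFunc K) {θ} = ⊤ := by
    rw [eq_top_iff, ← hθ₀, IntermediateField.adjoin_simple_le_iff]
    have h1 : θ₀ = (algebraMap (RatFunc K) L (algebraMap K[X] (RatFunc K) d))⁻¹ * θ := by
      rw [hθeq, ← mul_assoc, inv_mul_cancel₀, one_mul]
      intro h
      exact hd' ((algebraMap (RatFunc K) L).injective (by rw [h, map_zero]))
    rw [h1]
    refine (IntermediateField.adjoin (RatFunc K) {θ}).mul_mem ?_
      (IntermediateField.mem_adjoin_simple_self (RatFunc K) θ)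
    exact (IntermediateField.adjoin (RatFunc K) {θ}).inv_mem
      ((IntermediateField.adjoin (RatFunc K) {θ}).algebraMap_mem _)
  have hsurj : ∀ x : L, ∃ p : (RatFunc K)[X], aeval θ p = x := by
    intro x
    have hx : x ∈ (IntermediateField.adjoin (RatFunc K) {θ}).toSubalgebra := by
      rw [htop]
      exact Algebra.mem_top
    rw [IntermediateField.adjoin_simple_toSubalgebra_of_isAlgebraic
      (Algebra.IsAlgebraic.isAlgebraic (R := RatFunc K) θ),
      Algebra.adjoin_singleton_eq_range_aeval] at hx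
    obtain ⟨p, hp⟩ := hx
    exact ⟨p, hp⟩
  choose P hP using hsurj
  have hθint : IsIntegral (RatFunc K) θ := Algebra.IsIntegral.isIntegral θ
  have hmin : minpoly (RatFunc K) θ = (minpoly K[X] θ).map (algebraMap K[X] (RatFunc K)) :=
    minpoly.isIntegrallyClosed_eq_field_fractions' (RatFunc K) hint
  have hσ : ∀ (σ : Gal(L/RatFunc K)) (p : (RatFunc K)[X]), aeval (σ θ) p = σ (aeval θ p) :=
    fun σ p => Polynomial.aeval_algHom_apply σ.toAlgHom θ p
  have hfix : ∀ σ : Gal(L/RatFunc K), σ θ = θ → σ = 1 := by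
    intro σ hσθ
    ext x
    rw [← hP x, ← hσ, hσθ]
    rfl
  refine ⟨⟨minpoly (RatFunc K) θ, fun g => P (e.symm g θ), fun g => P (e.symm g θ - θ)⁻¹,
    minpoly.monic hθint, ?_, ?_, ?_, ?_, ?_⟩, minpoly K[X] θ, θ, minpoly.monic hint, hmin.symm,
    rfl⟩
  · rw [(Field.primitive_element_iff_minpoly_natDegree_eq (RatFunc K) θ).1 htop,
      ← IsGalois.card_aut_eq_finrank, Nat.card_congr e.toEquiv]
  · apply minpoly.dvd
    rw [map_sub, hP, aeval_X, map_one]
    simp
  · intro g
    apply minpoly.dvd
    rw [aeval_comp, hP, hσ, minpoly.aeval, map_zero]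
  · intro g h
    apply minpoly.dvd
    rw [map_sub, aeval_comp, hP, hσ, hP, hP, map_mul]
    simp
  · intro g hg
    apply minpoly.dvd
    rw [map_sub, map_mul, map_sub, hP, hP, aeval_X, map_one, mul_inv_cancel₀, sub_self]
    intro h
    apply hg
    have h1 := hfix _ (sub_eq_zero.1 h)
    have h2 := congrArg e h1
    rwa [MulEquiv.apply_symm_apply, map_one] at h2

end H36.RT
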