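import Pool.Agent.H36.RT.Defs

/-!
# [H36 RT COMP] the compositum of a Galois extension with a field it does not meet

Proof. Let `P` be made into an intermediate field of `Q/E` (or work with subfields). As `L/E` is
finite Galois and `L ∩ P = E`, `L` and `P` are linearly disjoint over `E`
(`IntermediateField.LinearDisjoint` of `inf_eq_bot` for a Galois extension; if Mathlib has it:
`IntermediateField.LinearDisjoint.of_inf_eq_bot` or the like. By hand: let `L = E(θ)` (primitive
element), `f = minpoly P θ`; its roots are conjugates of `θ` over `E`, hence in `L`, so the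
coefficients of `f` are in `L ∩ P = E`, so `f = minpoly E θ`.) Hence `Q1 := P(θ)` (the subfield
generated by `P` and `L`) has `[Q1 : P] = [L : E]`, `Q1 = P[θ] ≅ P[Y]/(f)`, and each
`τ ∈ Gal(L/E)` extends to the automorphism of `Q1` over `P` with `θ ↦ τ θ`
(`IntermediateField.adjoin.powerBasis`, `PowerBasis.equivOfRoot` or `IsGalois` of `Q1/P` with
restriction map `Gal(Q1/P) → Gal(L/E)`, injective since `Q1 = P(L)` and, by counting, bijective:
`α` is its inverse). `Q1/P` is Galois with group `≅ Gal(L/E)` through `α`, so an `x ∈ Q1` fixed by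
all `α τ` lies in `P`.
-/

namespace H36.RT

open IntermediateField in
theorem comp_field {Q : Type} [Field Q] (E P : Subfield Q) (hEP : E ≤ P)
    (L : IntermediateField E Q) [FiniteDimensional E L] [IsGalois E L]
    (hLP : L.toSubfield ⊓ P = E) :
    ∃ (Q1 : Subfield Q) (α : Gal(L/E) →* (Q1 ≃+* Q1)), P ≤ Q1 ∧ L.toSubfield ≤ Q1 ∧
      (∀ (τ : Gal(L/E)) (x : L) (hx : (x : Q) ∈ Q1), ((α τ ⟨x, hx⟩ : Q1) : Q) = (τ x : L)) ∧
      (∀ x : Q1, (x : Q) ∈ P ↔ ∀ τ, α τ x = x) := by
  classical
  let P' : IntermediateField E Q := { P with algebraMap_mem' := fun x => hEP x.2 }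
  let M : IntermediateField E Q := L ⊔ P'
  have hLM : L ≤ M := le_sup_left
  have hPM : P' ≤ M := le_sup_right
  let K' : IntermediateField E M := IntermediateField.restrict hLM
  let P'' : IntermediateField E M := IntermediateField.restrict hPM
  have hsup : K' ⊔ P'' = ⊤ := by
    apply IntermediateField.lift_injective
    rw [lift_sup, lift_restrict, lift_restrict, lift_top]
  have hinf : K' ⊓ P'' = ⊥ := by
    apply IntermediateField.lift_injective
    rw [lift_inf, lift_restrict, lift_restrict, lift_bot]
    rw [eq_bot_iff]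
    intro x hx
    rw [IntermediateField.mem_inf] at hx
    have h1 : x ∈ L.toSubfield ⊓ P := ⟨hx.1, hx.2⟩
    rw [hLP] at h1
    exact IntermediateField.mem_bot.2 ⟨⟨x, h1⟩, rfl⟩
  let e : L ≃ₐ[E] K' := restrictAlgEquiv hLM
  have : FiniteDimensional E K' := e.toLinearEquiv.finiteDimensional
  have : IsGalois E K' := IsGalois.of_algEquiv e
  have : IsGalois P'' M := IsGalois.sup_right K' P'' hsup
  have : FiniteDimensional P'' M := by
    have h1 := IntermediateField.adjoin_rank_le_of_isAlgebraic_right (E := P'') (K := M) K'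
    have h2 : IntermediateField.adjoin P'' (K' : Set M) = ⊤ := by
      rw [← restrictScalars_eq_top_iff (K := E), restrictScalars_adjoin, adjoin_union, adjoin_self,
        adjoin_self, sup_comm, hsup]
    rw [h2] at h1
    have h3 : Module.rank E K' < Cardinal.aleph0 := Module.rank_lt_aleph0 E K'
    have h4 : Module.rank P'' (⊤ : IntermediateField P'' M) < Cardinal.aleph0 := lt_of_le_of_lt h1 h3
    rw [IntermediateField.rank_top'] at h4
    exact Module.rank_lt_aleph0_iff.1 h4
  let ρ : Gal(M/P'') →* Gal(K'/E) := restrictRestrictAlgEquivMapHom E K' P'' M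
  have hρ : Function.Bijective ρ := ⟨restrictRestrictAlgEquivMapHom_injective K' P'' hsup,
    restrictRestrictAlgEquivMapHom_surjective K' P'' hinf⟩
  let ρe : Gal(M/P'') ≃* Gal(K'/E) := MulEquiv.ofBijective ρ hρ
  let α : Gal(L/E) ≃* Gal(M/P'') := (AlgEquiv.autCongr e).trans ρe.symm
  let β : Gal(M/P'') →* (M ≃+* M) := MulSemiringAction.toRingAut _ _
  refine ⟨M.toSubfield, β.comp α.toMonoidHom, hPM, hLM, ?_, ?_⟩
  · intro τ x hx
    have h1 : ρ (α τ) = AlgEquiv.autCongr e τ := by
      change ρe (ρe.symm (AlgEquiv.autCongr e τ)) = _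
      exact ρe.apply_symm_apply _
    have h2 := restrictRestrictAlgEquivMapHom_apply K' P'' (α τ) (e x)
    have h3 : ((e x : K') : M) = ⟨(x : Q), hx⟩ := rfl
    change ((α τ (⟨(x : Q), hx⟩ : M) : M) : Q) = _
    rw [← h3, ← h2]
    change ((((ρ (α τ)) (e x) : K') : M) : Q) = _
    rw [h1]
    change (((e (τ (e.symm (e x))) : K') : M) : Q) = _
    rw [e.symm_apply_apply]
    rfl
  · intro x
    have h1 : (x : Q) ∈ P ↔ (x : M) ∈ P'' := (IntermediateField.mem_restrict hPM x).symm
    rw [h1]
    constructor
    · intro hx τ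
      exact (α τ).commutes ⟨x, hx⟩
    · intro h
      have h2 : (x : M) ∈ (⊥ : IntermediateField P'' M) := by
        rw [IsGalois.mem_bot_iff_fixed]
        intro g
        have := h (α.symm g)
        change (α (α.symm g)) x = x at this
        rwa [α.apply_symm_apply] at this
      obtain ⟨y, hy⟩ := IntermediateField.mem_bot.1 h2
      rw [← hy]
      exact y.2

end H36.RT
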