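import Pool.Agent.H36.RT.FinDiff

/-!
# [H36 RT CORE] the gap principle

Proof. Let `m₁` be the least `m > q` with `e v₀ m ≠ 0` (`≤ m₀`). Let `V` be a nonzero integer such
that all `V * wt s i` are integers (for instance `V = ∏_i ∏_{l ≠ i} (s i - s l)`), and
`β_T = ∑ i, (V * wt s i) • x (T + s i)`, integral over `ℤ` for `T ∈ 𝒯`. Let
`M = m₁ + k + 2`. For an embedding `v`, by `happ`,
`v β_T = V ∑_{m < M} e v m ∑ i wt s i (T + s i)^(q-m) + O(T^(q-M))`. The terms with `m ≤ q` vanish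
(`fd_zero`, `q - m < k`); for `m > q`, `∑ i wt s i (T + s i)^(q-m) = O(T^(-(k+m-q)))` by `fd_neg`.
So `v β_T = O(T^(-1))`, in particular `|v β_T| < 1` for large `T ∈ 𝒯`, for all of the finitely many `v`.
For `v = v₀`: `T^(k+m₁-q) v₀ β_T → V e_(m₁) c ≠ 0` along `𝒯` (the terms `q < m < m₁` are `0`, those with
`m > m₁` are smaller by a factor `T^(-1)`, the error is `O(T^(q-M+k+m₁-q)) = O(T^(-2))`); so
`β_T ≠ 0` for large `T ∈ 𝒯` (`𝒯` is infinite, so it contains such `T`). The norm of the nonzero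
algebraic integer `β_T` is a nonzero integer, but it is the product of the `v β_T` over all embeddings
(`Algebra.norm_eq_prod_embeddings`), of absolute value `< 1`. Contradiction.
-/

open Filter Topology

noncomputable section

namespace H36.RT

/-- integer multiples of the weights -/
private def cwt {k : ℕ} (s : Fin (k + 1) → ℕ) (i : Fin (k + 1)) : ℤ :=
  ∏ j ∈ Finset.univ.erase i, ∏ l ∈ Finset.univ.erase j, ((s j : ℤ) - (s l : ℤ))

/-- the common denominator of the weights -/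
private def cV {k : ℕ} (s : Fin (k + 1) → ℕ) : ℤ :=
  ∏ j, ∏ l ∈ Finset.univ.erase j, ((s j : ℤ) - (s l : ℤ))

private lemma cV_ne_zero {k : ℕ} (s : Fin (k + 1) → ℕ) (hs : Function.Injective s) : cV s ≠ 0 := by
  unfold cV
  rw [Finset.prod_ne_zero_iff]
  intro j _
  rw [Finset.prod_ne_zero_iff]
  intro l hl
  have h1 : l ≠ j := (Finset.mem_erase.1 hl).1
  have h2 : s j ≠ s l := fun h => h1 (hs h).symm
  omega

private lemma cwt_eq {k : ℕ} (s : Fin (k + 1) → ℕ) (hs : Function.Injective s) (i : Fin (k + 1)) :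
    (cwt s i : ℝ) = cV s * wt s i := by
  have h1 : cV s = (∏ l ∈ Finset.univ.erase i, ((s i : ℤ) - (s l : ℤ))) * cwt s i := by
    unfold cV cwt
    rw [Finset.mul_prod_erase Finset.univ
      (fun j => ∏ l ∈ Finset.univ.erase j, ((s j : ℤ) - (s l : ℤ))) (Finset.mem_univ i)]
  have h2 : (∏ l ∈ Finset.univ.erase i, ((s i : ℝ) - (s l : ℝ))) ≠ 0 := by
    rw [Finset.prod_ne_zero_iff]
    intro l hl
    have h1 : l ≠ i := (Finset.mem_erase.1 hl).1
    have h2 : s i ≠ s l := fun h => h1 (hs h).symm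
    rw [sub_ne_zero]
    exact_mod_cast h2
  unfold wt
  rw [Finset.prod_inv_distrib, h1]
  push_cast
  field_simp

/-- the divided difference of `z ^ (q - m)`, with integer weights -/
private def cD {k : ℕ} (s : Fin (k + 1) → ℕ) (q m T : ℕ) : ℂ :=
  ∑ i, (cwt s i : ℂ) * (((T + s i : ℕ) : ℂ)) ^ ((q : ℤ) - m)

private lemma cD_zero {k : ℕ} (s : Fin (k + 1) → ℕ) (hs : Function.Injective s) (q m T : ℕ)
    (hq : q < k) (hm : m ≤ q) : cD s q m T = 0 := by
  have h := fd_zero s hs (q - m) (by omega) T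
  have h2 : ∑ i, (cwt s i : ℝ) * (((T + s i : ℕ) : ℝ)) ^ (q - m) = 0 := by
    have h3 : ∑ i, (cwt s i : ℝ) * (((T + s i : ℕ) : ℝ)) ^ (q - m) =
        cV s * ∑ i, wt s i * ((T : ℝ) + s i) ^ (q - m) := by
      rw [Finset.mul_sum]
      apply Finset.sum_congr rfl
      intro i _
      rw [cwt_eq s hs i]
      push_cast
      ring
    rw [h3, h, mul_zero]
  have h3 : (q : ℤ) - m = ((q - m : ℕ) : ℤ) := by omega
  unfold cD
  rw [h3]
  simp only [zpow_natCast]
  have h4 := congrArg (fun x : ℝ => (x : ℂ)) h2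
  simpa using h4

private lemma cD_neg {k : ℕ} (s : Fin (k + 1) → ℕ) (hs : Function.Injective s) (q m : ℕ)
    (hm : q < m) : ∃ c : ℂ, c ≠ 0 ∧
      Tendsto (fun T : ℕ => (T : ℂ) ^ (k + (m - q)) * cD s q m T) atTop (𝓝 c) := by
  obtain ⟨c, hc, hlim⟩ := fd_neg s hs (m - q) (by omega)
  refine ⟨((cV s * c : ℝ) : ℂ), ?_, ?_⟩
  · rw [Complex.ofReal_ne_zero]
    exact mul_ne_zero (by exact_mod_cast cV_ne_zero s hs) hc
  · have h1 : Tendsto (fun T : ℕ => (cV s : ℝ) * ((T : ℝ) ^ (k + (m - q)) *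
        ∑ i, wt s i * (((T : ℝ) + s i) ^ (m - q))⁻¹)) atTop (𝓝 (cV s * c)) := hlim.const_mul _
    have h2 := (Complex.continuous_ofReal.tendsto (cV s * c : ℝ)).comp h1
    refine h2.congr ?_
    intro T
    have h3 : (q : ℤ) - m = -((m - q : ℕ) : ℤ) := by omega
    unfold cD
    rw [h3]
    simp only [zpow_neg, zpow_natCast, Function.comp]
    have h4 : (cV s : ℝ) * ((T : ℝ) ^ (k + (m - q)) *
        ∑ i, wt s i * (((T : ℝ) + s i) ^ (m - q))⁻¹) =
        (T : ℝ) ^ (k + (m - q)) * ∑ i, (cwt s i : ℝ) * ((((T + s i : ℕ) : ℝ)) ^ (m - q))⁻¹ := by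
      rw [Finset.mul_sum, Finset.mul_sum, Finset.mul_sum]
      apply Finset.sum_congr rfl
      intro i _
      rw [cwt_eq s hs i]
      push_cast
      ring
    rw [h4]
    push_cast
    rfl

theorem core (K : Type) [Field K] [NumberField K] (k q : ℕ) (hq : q < k)
    (s : Fin (k + 1) → ℕ) (hs : Function.Injective s) (𝒯 : Set ℕ) (h𝒯 : 𝒯.Infinite) (x : ℕ → K)
    (hx : ∀ T ∈ 𝒯, ∀ i, IsIntegral ℤ (x (T + s i))) (e : (K →+* ℂ) → ℕ → ℂ) (v₀ : K →+* ℂ)
    (m₀ : ℕ) (hm₀ : q < m₀) (he : e v₀ m₀ ≠ 0)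
    (happ : ∀ (v : K →+* ℂ) (M : ℕ), ∃ B : ℝ, ∀ T ∈ 𝒯, 0 < T → ∀ i,
      ‖v (x (T + s i)) - ∑ m ∈ Finset.range M, e v m * (((T + s i : ℕ) : ℂ)) ^ ((q : ℤ) - m)‖ ≤
        B * (T : ℝ) ^ ((q : ℤ) - M)) : False := by
  classical
  set β : ℕ → K := fun T => ∑ i, (cwt s i : K) * x (T + s i) with hβ
  have hβint : ∀ T ∈ 𝒯, IsIntegral ℤ (β T) := by
    intro T hT
    apply IsIntegral.sum
    intro i _
    apply IsIntegral.mul _ (hx T hT i)
    have := isIntegral_algebraMap (R := ℤ) (A := K) (x := cwt s i)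
    simpa using this
  set W : ℝ := ∑ i, |(cwt s i : ℝ)| with hW
  have hW0 : 0 ≤ W := Finset.sum_nonneg fun i _ => abs_nonneg _
  -- expansion of `v β_T`
  have hexp : ∀ (v : K →+* ℂ) (M : ℕ), ∃ B : ℝ, ∀ T ∈ 𝒯, 0 < T →
      ‖v (β T) - ∑ m ∈ Finset.range M, e v m * cD s q m T‖ ≤ B * (T : ℝ) ^ ((q : ℤ) - M) := by
    intro v M
    obtain ⟨B, hB⟩ := happ v M
    refine ⟨W * B, fun T hT hT0 => ?_⟩
    have h1 : v (β T) - ∑ m ∈ Finset.range M, e v m * cD s q m T =
        ∑ i, (cwt s i : ℂ) * (v (x (T + s i)) -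
          ∑ m ∈ Finset.range M, e v m * (((T + s i : ℕ) : ℂ)) ^ ((q : ℤ) - m)) := by
      simp only [mul_sub, Finset.sum_sub_distrib]
      congr 1
      · rw [hβ]
        simp only [map_sum, map_mul, map_intCast]
      · unfold cD
        simp only [Finset.mul_sum]
        rw [Finset.sum_comm]
        apply Finset.sum_congr rfl
        intro i _
        apply Finset.sum_congr rfl
        intro m _
        ring
    rw [h1]
    calc ‖∑ i, (cwt s i : ℂ) * (v (x (T + s i)) -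
          ∑ m ∈ Finset.range M, e v m * (((T + s i : ℕ) : ℂ)) ^ ((q : ℤ) - m))‖
        ≤ ∑ i, ‖(cwt s i : ℂ) * (v (x (T + s i)) -
          ∑ m ∈ Finset.range M, e v m * (((T + s i : ℕ) : ℂ)) ^ ((q : ℤ) - m))‖ :=
          norm_sum_le _ _
      _ ≤ ∑ i, |(cwt s i : ℝ)| * (B * (T : ℝ) ^ ((q : ℤ) - M)) := by
          apply Finset.sum_le_sum
          intro i _
          rw [norm_mul, Complex.norm_intCast]
          exact mul_le_mul_of_nonneg_left (hB T hT hT0 i) (abs_nonneg _)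
      _ = W * B * (T : ℝ) ^ ((q : ℤ) - M) := by
          rw [← Finset.sum_mul, hW]
          ring
  have hNe : (atTop ⊓ 𝓟 𝒯 : Filter ℕ).NeBot := by
    rw [← Filter.frequently_mem_iff_neBot, Nat.frequently_atTop_iff_infinite]
    exact h𝒯
  have hmem : ∀ᶠ T in (atTop ⊓ 𝓟 𝒯 : Filter ℕ), T ∈ 𝒯 :=
    (mem_inf_of_right (mem_principal_self 𝒯))
  have hpos : ∀ᶠ T in (atTop ⊓ 𝓟 𝒯 : Filter ℕ), 0 < T :=
    (eventually_gt_atTop 0).filter_mono inf_le_left
  have hTreal : Tendsto (fun T : ℕ => (T : ℝ)) (atTop ⊓ 𝓟 𝒯) atTop :=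
    tendsto_natCast_atTop_atTop.mono_left inf_le_left
  have hinv : Tendsto (fun T : ℕ => ((T : ℝ))⁻¹) (atTop ⊓ 𝓟 𝒯) (𝓝 0) :=
    tendsto_inv_atTop_zero.comp hTreal
  -- all conjugates tend to zero
  have hA : ∀ v : K →+* ℂ, ∀ᶠ T in (atTop ⊓ 𝓟 𝒯 : Filter ℕ), ‖v (β T)‖ < 1 := by
    intro v
    obtain ⟨B, hB⟩ := hexp v (q + 1)
    have h1 : Tendsto (fun T : ℕ => B * ((T : ℝ))⁻¹) (atTop ⊓ 𝓟 𝒯) (𝓝 0) := by
      simpa using hinv.const_mul B
    filter_upwards [hmem, hpos, h1.eventually (gt_mem_nhds zero_lt_one)] with T hT hT0 hlt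
    have h2 := hB T hT hT0
    have h3 : ∑ m ∈ Finset.range (q + 1), e v m * cD s q m T = 0 := by
      apply Finset.sum_eq_zero
      intro m hm
      rw [Finset.mem_range] at hm
      rw [cD_zero s hs q m T hq (by omega), mul_zero]
    rw [h3, sub_zero] at h2
    have h4 : ((q : ℤ) - ((q + 1 : ℕ) : ℤ)) = -1 := by push_cast; ring
    rw [h4, zpow_neg_one] at h2
    exact lt_of_le_of_lt h2 hlt
  -- the least index
  have hex : ∃ m, q < m ∧ e v₀ m ≠ 0 := ⟨m₀, hm₀, he⟩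
  set m₁ := Nat.find hex with hm₁
  have hm₁s : q < m₁ ∧ e v₀ m₁ ≠ 0 := Nat.find_spec hex
  have hm₁min : ∀ m, m < m₁ → q < m → e v₀ m = 0 := by
    intro m hm hqm
    have := Nat.find_min hex hm
    by_contra hne
    exact this ⟨hqm, hne⟩
  obtain ⟨c₁, hc₁, hlim₁⟩ := cD_neg s hs q m₁ hm₁s.1
  have hB1 : ∀ᶠ T in (atTop ⊓ 𝓟 𝒯 : Filter ℕ), β T ≠ 0 := by
    obtain ⟨B, hB⟩ := hexp v₀ (m₁ + k + 1)
    have hterm : ∀ m ∈ Finset.range (m₁ + k + 1),
        Tendsto (fun T : ℕ => (T : ℂ) ^ (k + (m₁ - q)) * (e v₀ m * cD s q m T))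
          (atTop ⊓ 𝓟 𝒯) (𝓝 (if m = m₁ then e v₀ m₁ * c₁ else 0)) := by
      intro m _
      rcases lt_trichotomy m m₁ with h | h | h
      · rw [if_neg h.ne]
        rcases le_or_gt m q with h' | h'
        · have : ∀ T : ℕ, (T : ℂ) ^ (k + (m₁ - q)) * (e v₀ m * cD s q m T) = 0 := by
            intro T
            rw [cD_zero s hs q m T hq h']
            ring
          simp only [this]
          exact tendsto_const_nhds
        · have : ∀ T : ℕ, (T : ℂ) ^ (k + (m₁ - q)) * (e v₀ m * cD s q m T) = 0 := by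
            intro T
            rw [hm₁min m h h']
            ring
          simp only [this]
          exact tendsto_const_nhds
      · rw [if_pos h, h]
        have h1 := (hlim₁.mono_left (inf_le_left : (atTop ⊓ 𝓟 𝒯 : Filter ℕ) ≤ atTop)).const_mul
          (e v₀ m₁)
        refine h1.congr ?_
        intro T
        ring
      · rw [if_neg h.ne']
        obtain ⟨c, _, hlim⟩ := cD_neg s hs q m (lt_trans hm₁s.1 h)
        have h1 := (hlim.mono_left (inf_le_left : (atTop ⊓ 𝓟 𝒯 : Filter ℕ) ≤ atTop)).const_mul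
          (e v₀ m)
        have h2 : Tendsto (fun T : ℕ => (((T : ℂ))⁻¹) ^ (m - m₁)) (atTop ⊓ 𝓟 𝒯) (𝓝 0) := by
          have h3 : Tendsto (fun T : ℕ => ((T : ℂ))⁻¹) (atTop ⊓ 𝓟 𝒯) (𝓝 0) := by
            have := (Complex.continuous_ofReal.tendsto 0).comp hinv
            simpa [Function.comp_def] using this
          have h4 := h3.pow (m - m₁)
          rwa [zero_pow (by omega)] at h4
        have h3 := h2.mul h1
        rw [zero_mul] at h3
        refine h3.congr' ?_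
        filter_upwards [hpos] with T hT0
        have hTc : (T : ℂ) ≠ 0 := by exact_mod_cast hT0.ne'
        have h5 : k + (m - q) = (m - m₁) + (k + (m₁ - q)) := by omega
        rw [h5, pow_add, inv_pow]
        field_simp
    have hsum := tendsto_finsetSum (Finset.range (m₁ + k + 1)) hterm
    rw [Finset.sum_ite_eq' (Finset.range (m₁ + k + 1)) m₁ (fun _ => e v₀ m₁ * c₁),
      if_pos (Finset.mem_range.2 (by omega))] at hsum
    have herr : Tendsto (fun T : ℕ => (T : ℂ) ^ (k + (m₁ - q)) *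
        (v₀ (β T) - ∑ m ∈ Finset.range (m₁ + k + 1), e v₀ m * cD s q m T)) (atTop ⊓ 𝓟 𝒯)
        (𝓝 0) := by
      rw [tendsto_zero_iff_norm_tendsto_zero]
      have h1 : Tendsto (fun T : ℕ => B * ((T : ℝ))⁻¹) (atTop ⊓ 𝓟 𝒯) (𝓝 0) := by
        simpa using hinv.const_mul B
      refine squeeze_zero' (Eventually.of_forall fun T => norm_nonneg _) ?_ h1
      filter_upwards [hmem, hpos] with T hT hT0
      have hTr : (0 : ℝ) < T := by exact_mod_cast hT0
      rw [norm_mul, norm_pow, Complex.norm_natCast]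
      calc (T : ℝ) ^ (k + (m₁ - q)) *
            ‖v₀ (β T) - ∑ m ∈ Finset.range (m₁ + k + 1), e v₀ m * cD s q m T‖
          ≤ (T : ℝ) ^ (k + (m₁ - q)) * (B * (T : ℝ) ^ ((q : ℤ) - ((m₁ + k + 1 : ℕ) : ℤ))) := by
            apply mul_le_mul_of_nonneg_left (hB T hT hT0) (by positivity)
        _ = B * ((T : ℝ) ^ ((k + (m₁ - q) : ℕ) : ℤ) *
              (T : ℝ) ^ ((q : ℤ) - ((m₁ + k + 1 : ℕ) : ℤ))) := by
            rw [zpow_natCast]
            ring
        _ = B * ((T : ℝ))⁻¹ := by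
            rw [← zpow_add₀ hTr.ne']
            have h6 : ((k + (m₁ - q) : ℕ) : ℤ) + ((q : ℤ) - ((m₁ + k + 1 : ℕ) : ℤ)) = -1 := by
              have := hm₁s.1
              omega
            rw [h6, zpow_neg_one]
    have hall := herr.add hsum
    rw [zero_add] at hall
    have hne : e v₀ m₁ * c₁ ≠ 0 := mul_ne_zero hm₁s.2 hc₁
    filter_upwards [hall.eventually_ne hne] with T hT hβ0
    apply hT
    rw [hβ0, map_zero, ← Finset.mul_sum]
    ring
  have hall : ∀ᶠ T in (atTop ⊓ 𝓟 𝒯 : Filter ℕ), ∀ v : K →+* ℂ, ‖v (β T)‖ < 1 :=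
    eventually_all.2 hA
  obtain ⟨T, hT, hT1, hT2⟩ := (hmem.and (hB1.and hall)).exists
  obtain ⟨a, ha⟩ : ∃ a : NumberField.RingOfIntegers K, (a : K) = β T :=
    ⟨⟨β T, hβint T hT⟩, rfl⟩
  have ha0 : a ≠ 0 := by
    intro h
    apply hT1
    rw [← ha, h]
    rfl
  have hlt : ∀ z : NumberField.InfinitePlace K, z (a : K) < 1 := by
    intro z
    rw [← NumberField.InfinitePlace.norm_embedding_eq, ha]
    exact hT2 _
  have := NumberField.InfinitePlace.one_le_of_lt_one (w := NumberField.InfinitePlace.mk v₀) ha0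
    (fun z _ => hlt z)
  exact absurd (hlt (NumberField.InfinitePlace.mk v₀)) (not_lt.2 this)

end H36.RT
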