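import Pool.Agent.H36.RT.Frac

/-!
# [H36 RT CYCIRR] `Y^n - (1 + t x)` is irreducible over `E`

Proof. `A = k⟦t⟧[x]` is a unique factorisation domain, in particular integrally closed.
`a = 1 + t x` (`= C X * X + 1` in `A`) is primitive of degree `1` in `x` over the domain `k⟦t⟧`, so
irreducible, so prime. `Y^n - C a` is irreducible over `A` by Eisenstein's criterion at the prime
ideal `(a)` (`Polynomial.irreducible_of_eisenstein_criterion`, monic, so primitive; `a ∉ (a)²`), hence
over the fraction field of `A` (Gauss: `Polynomial.Monic.irreducible_iff_irreducible_map_fraction_map`),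
which is `EE k` (`IsFractionRing A (EE k)` with the algebra structure `(j0 k).toAlgebra`, from
`j0_injective`, `j0_surj`).
-/

open Polynomial

namespace H36.RT

/-- `1 + t x` is irreducible. -/
theorem irr_lin (k : Type) [Field k] :
    Irreducible (1 + C PowerSeries.X * X : (PowerSeries k)[X]) := by
  have hdeg : (1 + C PowerSeries.X * X : (PowerSeries k)[X]).natDegree = 1 := by
    rw [add_comm, show (1 : (PowerSeries k)[X]) = C 1 by simp]
    exact natDegree_linear PowerSeries.X_ne_zero
  have key : ∀ u v : (PowerSeries k)[X], 1 + C PowerSeries.X * X = u * v → u.natDegree = 0 →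
      IsUnit u := by
    intro u v h hu
    obtain ⟨c, rfl⟩ := natDegree_eq_zero.1 hu
    have h1 := congrArg (fun p => coeff p 0) h
    simp only [coeff_add, coeff_one_zero, coeff_C_mul, coeff_X_zero, mul_zero, add_zero] at h1
    exact Polynomial.isUnit_C.2 (IsUnit.of_mul_eq_one _ h1.symm)
  constructor
  · intro hu
    have := natDegree_eq_zero_of_isUnit hu
    omega
  · intro u v h
    have h0 : (1 + C PowerSeries.X * X : (PowerSeries k)[X]) ≠ 0 := by
      intro h0
      rw [h0] at hdeg
      simp at hdeg
    have hu0 : u ≠ 0 := by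
      rintro rfl
      rw [zero_mul] at h
      exact h0 h
    have hv0 : v ≠ 0 := by
      rintro rfl
      rw [mul_zero] at h
      exact h0 h
    have h1 : u.natDegree + v.natDegree = 1 := by
      rw [← natDegree_mul hu0 hv0, ← h, hdeg]
    rcases Nat.eq_zero_or_pos u.natDegree with h2 | h2
    · exact Or.inl (key u v h h2)
    · refine Or.inr (key v u (by rw [h, mul_comm]) (by omega))

theorem cyc_irr (k : Type) [Field k] (n : ℕ) (hn : 0 < n) :
    Irreducible (X ^ n - C (j0 k (1 + C PowerSeries.X * X)) : (EE k)[X]) := by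
  let A := (PowerSeries k)[X]
  let _ : Algebra A (EE k) := (j0 k).toAlgebra
  have : FaithfulSMul A (EE k) :=
    (faithfulSMul_iff_algebraMap_injective A (EE k)).2 (j0_injective k)
  have hfr : IsFractionRing A (EE k) := by
    refine IsFractionRing.of_field A (EE k) fun z => ?_
    obtain ⟨a, b, -, h⟩ := j0_surj k z
    exact ⟨a, b, h⟩
  set a : A := 1 + C PowerSeries.X * X with ha
  have hirr : Irreducible a := irr_lin k
  have hp : Prime a := hirr.prime
  have h1 : (X ^ n - C (j0 k a) : (EE k)[X]) = (X ^ n - C a : A[X]).map (algebraMap A (EE k)) := by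
    simp
    rfl
  have hm : (X ^ n - C a : A[X]).Monic := monic_X_pow_sub_C a hn.ne'
  rw [h1, ← Polynomial.Monic.irreducible_iff_irreducible_map_fraction_map hm]
  have hd : (X ^ n - C a : A[X]).natDegree = n := natDegree_X_pow_sub_C
  refine irreducible_of_eisenstein_criterion (P := Ideal.span {a})
    ((Ideal.span_singleton_prime hp.ne_zero).2 hp) ?_ ?_ ?_ ?_ hm.isPrimitive
  · rw [hm.leadingCoeff]
    intro h
    exact hp.not_isUnit (isUnit_of_dvd_one (Ideal.mem_span_singleton.1 h))
  · intro i hi
    rw [degree_eq_natDegree hm.ne_zero, hd] at hi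
    have hi' : i < n := by exact_mod_cast hi
    rw [coeff_sub, coeff_X_pow, if_neg hi'.ne, zero_sub, coeff_C, neg_mem_iff]
    split_ifs
    · exact Ideal.mem_span_singleton_self a
    · exact Ideal.zero_mem _
  · rw [degree_eq_natDegree hm.ne_zero, hd]
    exact_mod_cast hn
  · rw [coeff_sub, coeff_X_pow, if_neg hn.ne, zero_sub, coeff_C_zero, neg_mem_iff,
      Ideal.span_singleton_pow, Ideal.mem_span_singleton]
    rintro ⟨c, hc⟩
    apply hp.not_isUnit
    have h2 : a * 1 = a * (a * c) := by
      rw [mul_one, ← mul_assoc, ← pow_two]; exact hc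
    exact IsUnit.of_mul_eq_one _ (mul_left_cancel₀ hp.ne_zero h2).symm

end H36.RT
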