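import Pool.Agent.H36.RT.Root
import Pool.Agent.H36.RT.CycIrr

/-!
# [H36 RT CYC] cyclic groups

Proof. Let `n = Nat.card G`. By `exists_root` (with `R = k[X]`, `a = X`) there is
`u ∈ k[x]⟦t⟧` with `u^n = 1 + x t`; let `v ∈ P1 k` be the image of `i1 k u` in `QQ k`. Then
`v^n = j0 k (1 + t x)` in `QQ k` (compute `i1` and `i0` of the two sides). Let
`L = IntermediateField.adjoin (EE k) {v}`, `L ≤ P1` (`EE_le_P1`, `adjoin_le`-type argument:
`Subfield.closure_le` or view `P1 k` as an intermediate field). `EE k` contains the `n`-th roots of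
unity of `k` (`k` algebraically closed of characteristic zero, `j0 k (C (PowerSeries.C ζ))`), so `L`
is a splitting field of `X^n - C a` (all roots are `ζ v`), `a = j0 k (1 + t x)`; with `cyc_irr`:
`isGalois_of_isSplittingField_X_pow_sub_C`, `isCyclic_of_isSplittingField_X_pow_sub_C`,
`finrank_of_isSplittingField_X_pow_sub_C`. So `Gal(L/E)` is cyclic of order `n`
(`IsGalois.card_aut_eq_finrank`), isomorphic to `G` (`mulEquivOfCyclicCardEq`).
-/

namespace H36.RT

open Polynomial in
/-- Kummer theory: a cyclic group is realised inside `P` by an `n`-th root in `P` -/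
private theorem cyc_kummer {Q : Type} [Field Q] (E P : Subfield Q) (hEP : E ≤ P) (n : ℕ)
    (hn : 0 < n) (ζ : E) (hζ : IsPrimitiveRoot ζ n) (a : E)
    (hirr : Irreducible (X ^ n - C a : E[X])) (v : Q) (hv : v ∈ P) (hvn : v ^ n = (a : Q))
    (G : Type) [Group G] [Finite G] [IsCyclic G] (hG : Nat.card G = n) : RealIn E P G := by
  have hroot : aeval v (X ^ n - C a : E[X]) = 0 := by
    rw [map_sub, map_pow, aeval_X, aeval_C, hvn]
    exact sub_self _
  have hmonic : (X ^ n - C a : E[X]).Monic := monic_X_pow_sub_C a hn.ne'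
  have hint : IsIntegral E v := ⟨X ^ n - C a, hmonic, hroot⟩
  have hmin : minpoly E v = X ^ n - C a := (minpoly.eq_of_irreducible_of_monic hirr hroot hmonic).symm
  have hfin : FiniteDimensional E (IntermediateField.adjoin E {v}) :=
    IntermediateField.adjoin.finiteDimensional hint
  have hrank : Module.finrank E (IntermediateField.adjoin E {v}) = n := by
    rw [IntermediateField.adjoin.finrank hint, hmin, natDegree_X_pow_sub_C]
  have htop : IntermediateField.adjoin E {IntermediateField.AdjoinSimple.gen E v} = ⊤ := by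
    rw [Field.primitive_element_iff_minpoly_natDegree_eq, IntermediateField.minpoly_gen, hmin,
      natDegree_X_pow_sub_C, hrank]
  have hprim : (primitiveRoots (Module.finrank E (IntermediateField.adjoin E {v})) E).Nonempty := by
    rw [hrank]
    exact ⟨ζ, (mem_primitiveRoots hn).2 hζ⟩
  have hpow : (IntermediateField.AdjoinSimple.gen E v) ^
      (Module.finrank E (IntermediateField.adjoin E {v})) =
      algebraMap E (IntermediateField.adjoin E {v}) a := by
    rw [hrank]
    apply Subtype.ext
    rw [IntermediateField.coe_pow, IntermediateField.AdjoinSimple.coe_gen, hvn]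
    rfl
  have htfae := isCyclic_tfae E (IntermediateField.adjoin E {v}) hprim
  have h3 : ∃ α : (IntermediateField.adjoin E {v}),
      α ^ (Module.finrank E (IntermediateField.adjoin E {v})) ∈
        Set.range (algebraMap E (IntermediateField.adjoin E {v})) ∧
      IntermediateField.adjoin E {α} = ⊤ := ⟨_, ⟨a, hpow.symm⟩, htop⟩
  obtain ⟨hgal, hcyc⟩ := (htfae.out 2 0).1 h3
  refine ⟨IntermediateField.adjoin E {v}, ?_, hfin, hgal, ?_⟩
  · intro x hx
    have hx' : x ∈ Subfield.closure (Set.range (algebraMap E Q) ∪ {v}) := hx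
    have hle : Subfield.closure (Set.range (algebraMap E Q) ∪ {v}) ≤ P := by
      rw [Subfield.closure_le]
      rintro y (⟨z, rfl⟩ | hy)
      · exact hEP z.2
      · rw [Set.mem_singleton_iff] at hy
        rw [hy]
        exact hv
    exact hle hx'
  · have hcard : Nat.card Gal((IntermediateField.adjoin E {v})/E) = Nat.card G := by
      rw [IsGalois.card_aut_eq_finrank, hrank, hG]
    exact ⟨mulEquivOfCyclicCardEq hcard⟩

private theorem cyc_i1_i0 (k : Type) [Field k] :
    i1 k (1 + PowerSeries.C Polynomial.X * PowerSeries.X) =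
      i0 k (1 + Polynomial.C PowerSeries.X * Polynomial.X) := by
  rw [map_add, map_add, map_one, map_one, map_mul, map_mul]
  unfold i1 i0
  rw [PowerSeries.map_C, PowerSeries.map_X, Polynomial.coe_eval₂RingHom, Polynomial.eval₂_C,
    Polynomial.eval₂_X, PowerSeries.map_X, Polynomial.toLaurent_X, mul_comm]

theorem cyclic_real (k : Type) [Field k] [IsAlgClosed k] [CharZero k] (G : Type) [Group G]
    [Finite G] [IsCyclic G] : RealIn (EE k) (P1 k) G := by
  have hn : 0 < Nat.card G := Nat.card_pos
  obtain ⟨u, hu⟩ := exists_root (R := Polynomial k) (Nat.card G) hn Polynomial.X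
  have hne : NeZero ((Nat.card G : ℕ) : k) := ⟨by exact_mod_cast hn.ne'⟩
  obtain ⟨ζ, hζ⟩ := HasEnoughRootsOfUnity.exists_primitiveRoot k (Nat.card G)
  have hinj : Function.Injective
      ((j0 k).comp ((Polynomial.C).comp (PowerSeries.C (R := k)))) := by
    rw [RingHom.coe_comp, RingHom.coe_comp]
    exact (j0_injective k).comp (Polynomial.C_injective.comp PowerSeries.C_injective)
  refine cyc_kummer (EE k) (P1 k) (EE_le_P1 k) (Nat.card G) hn _ (hζ.map_of_injective hinj)
    (j0 k (1 + Polynomial.C PowerSeries.X * Polynomial.X)) (cyc_irr k _ hn)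
    (algebraMap (RR k) (QQ k) (i1 k u)) ?_ ?_ G rfl
  · exact Subfield.subset_closure ⟨i1 k u, ⟨u, rfl⟩, rfl⟩
  · rw [j0_coe, ← map_pow, ← map_pow, hu, cyc_i1_i0]

end H36.RT
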