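import Mathlib

/-!
# Every finite group is a Galois group over all large number fields: definitions for part A

`RR k` is the ring of power series in `t` with coefficients in `k[x, 1/x]`, `QQ k` its field of
fractions. `S1 k`, `S2 k`, `S0 k` are the subrings of power series in `t` with coefficients in
`k[x]`, in `k[1/x]`, and the ring `k⟦t⟧[x]`.
-/

open Polynomial

noncomputable section

namespace H36.RT

/-- The subfield of fractions of a subring `S` of a domain `A`, inside `FractionRing A`. -/
def fr {A : Type} [CommRing A] [IsDomain A] (S : Subring A) : Subfield (FractionRing A) :=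
  Subfield.closure (algebraMap A (FractionRing A) '' (S : Set A))

theorem mem_fr {A : Type} [CommRing A] [IsDomain A] {S : Subring A} {x : FractionRing A} :
    x ∈ fr S ↔ ∃ a ∈ S, ∃ b ∈ S, b ≠ 0 ∧
      x = algebraMap A (FractionRing A) a / algebraMap A (FractionRing A) b := by
  have hS : (Subring.closure (algebraMap A (FractionRing A) '' (S : Set A)) :
      Subring (FractionRing A)) = S.map (algebraMap A (FractionRing A)) := by
    apply le_antisymm
    · rw [Subring.closure_le]
      rintro _ ⟨a, ha, rfl⟩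
      exact ⟨a, ha, rfl⟩
    · rintro _ ⟨a, ha, rfl⟩
      exact Subring.subset_closure ⟨a, ha, rfl⟩
  unfold fr
  rw [Subfield.mem_closure_iff, hS]
  constructor
  · rintro ⟨_, ⟨a, ha, rfl⟩, _, ⟨b, hb, rfl⟩, rfl⟩
    by_cases h : b = 0
    · refine ⟨0, S.zero_mem, 1, S.one_mem, one_ne_zero, ?_⟩
      simp [h]
    · exact ⟨a, ha, b, hb, h, rfl⟩
  · rintro ⟨a, ha, b, hb, -, rfl⟩
    exact ⟨_, ⟨a, ha, rfl⟩, _, ⟨b, hb, rfl⟩, rfl⟩

theorem fr_mono {A : Type} [CommRing A] [IsDomain A] {S S' : Subring A} (h : S ≤ S') :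
    fr S ≤ fr S' :=
  Subfield.closure_mono (Set.image_mono h)

variable (k : Type) [Field k]

/-- Power series in `t` over `k[x, 1/x]`. -/
abbrev RR : Type := PowerSeries (LaurentPolynomial k)

/-- The field of fractions of `RR k`. -/
abbrev QQ : Type := FractionRing (RR k)

/-- The inclusion `k[x]⟦t⟧ → k[x, 1/x]⟦t⟧`. -/
def i1 : PowerSeries k[X] →+* RR k := PowerSeries.map Polynomial.toLaurent

/-- The map `k[x]⟦t⟧ → k[x, 1/x]⟦t⟧` which sends `x` to `1/x`. -/
def i2 : PowerSeries k[X] →+* RR k :=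
  PowerSeries.map (((LaurentPolynomial.invert : LaurentPolynomial k ≃ₐ[k] LaurentPolynomial k) :
    LaurentPolynomial k →+* LaurentPolynomial k).comp Polynomial.toLaurent)

/-- The inclusion `k⟦t⟧[x] → k[x, 1/x]⟦t⟧`. -/
def i0 : (PowerSeries k)[X] →+* RR k :=
  Polynomial.eval₂RingHom (PowerSeries.map LaurentPolynomial.C)
    (PowerSeries.C (LaurentPolynomial.T 1))

/-- `k[x]⟦t⟧` as a subring. -/
def S1 : Subring (RR k) := (i1 k).range

/-- `k[1/x]⟦t⟧` as a subring. -/
def S2 : Subring (RR k) := (i2 k).range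

/-- `k⟦t⟧[x]` as a subring. -/
def S0 : Subring (RR k) := (i0 k).range

/-- The field of fractions of `k[x]⟦t⟧`. -/
def P1 : Subfield (QQ k) := fr (S1 k)

/-- The field of fractions of `k[1/x]⟦t⟧`. -/
def P2 : Subfield (QQ k) := fr (S2 k)

/-- The field `K(x)`, `K = k((t))`. -/
def EE : Subfield (QQ k) := fr (S0 k)

/-- The group `G` is the group of a Galois extension `L` of `E` inside `P`. -/
def RealIn {Q : Type} [Field Q] (E P : Subfield Q) (G : Type) [Group G] : Prop :=
  ∃ L : IntermediateField E Q, L.toSubfield ≤ P ∧ FiniteDimensional E L ∧ IsGalois E L ∧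
    Nonempty (Gal(L/E) ≃* G)

/-- Matrix factorisation: every invertible matrix over `Q` is a product of a matrix over `P` and a
matrix over `P'`. -/
def Factor {Q : Type} [Field Q] (P P' : Subfield Q) : Prop :=
  ∀ (n : ℕ) (M : Matrix (Fin n) (Fin n) Q), M.det ≠ 0 →
    ∃ A B : Matrix (Fin n) (Fin n) Q, (∀ i j, A i j ∈ P) ∧ (∀ i j, B i j ∈ P') ∧ M = A * B

end H36.RT
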