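import Pool.Agent.H36.RT.CertDef

/-!
# [H36 RT DESCR] a certificate over `W(x)` comes from a finitely generated ring

Proof. The finitely many polynomials `C.r g`, `C.w g` (`g ∈ G`, `G` finite) have finitely many
coefficients in `RatFunc W = Frac W[X]`; let `δ₀ ∈ W[X]` be a common denominator, made monic
(`IsLocalization.exist_integer_multiples_of_finset`; divide by the leading coefficient). Let
`T` be the finite set consisting of `S`, the coefficients of the coefficients of `f0`, the
coefficients of `δ₀` and the coefficients of all `δ₀ * (coefficient of C.r g or C.w g) ∈ W[X]`, and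
`R = Algebra.adjoin ℚ T`. Then `δ₀` and `f0` lift to `δ : R[X]` monic and `f1 : R[X][X]` monic
(`Polynomial.lifts`, `Polynomial.toSubring`), and `C.r g`, `C.w g` are images of polynomials over
`B := Localization.Away δ` under the homomorphism `ι : B →+* RatFunc W` induced by
`R[X] → W[X] → RatFunc W` (`δ` goes to a unit; `IsLocalization.Away.lift`). `ι` is injective
(`R[X] → RatFunc W` is injective and `B` is a localization of the domain `R[X]` at nonzero elements).
Use `Cert.descend ι`.
-/

open Polynomial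

noncomputable section

namespace H36.RT

theorem descR_lift {W : Type} [Field W] [CharZero W] (R : Subalgebra ℚ W) (p : W[X])
    (hp : ∀ n, p.coeff n ∈ R) : p ∈ Polynomial.lifts (R.val : R →+* W) := by
  rw [Polynomial.lifts_iff_coeff_lifts]
  intro n
  exact ⟨⟨p.coeff n, hp n⟩, rfl⟩

theorem descR_coeff {W : Type} [Field W] [CharZero W] (R : Subalgebra ℚ W) (p : W[X])
    (hp : ∀ c ∈ p.coeffs, c ∈ R) (n : ℕ) : p.coeff n ∈ R := by
  by_cases h : p.coeff n = 0
  · rw [h]
    exact R.zero_mem
  · exact hp _ (Polynomial.coeff_mem_coeffs h)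

theorem descend_R (G : Type) [Group G] [Finite G] (W : Type) [Field W] [CharZero W]
    (C : Cert G (RatFunc W)) (f0 : W[X][X]) (hm : f0.Monic)
    (hf : f0.map (algebraMap W[X] (RatFunc W)) = C.f) (S : Finset W) :
    ∃ R : Subalgebra ℚ W, R.FG ∧ (∀ s ∈ S, s ∈ R) ∧ ∃ (δ : Polynomial R) (f1 : Polynomial (Polynomial R)), δ.Monic ∧
      f1.Monic ∧ f1.map (Polynomial.mapRingHom (R.val : R →+* W)) = f0 ∧
      ∃ C' : Cert G (Localization.Away δ),
        C'.f = f1.map (algebraMap (Polynomial R) (Localization.Away δ)) := by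
  classical
  haveI : Fintype G := Fintype.ofFinite G
  let Cf : Finset (RatFunc W) :=
    Finset.univ.biUnion (fun g : G => (C.r g).coeffs ∪ (C.w g).coeffs)
  obtain ⟨b, hb⟩ := IsLocalization.exist_integer_multiples_of_finset (nonZeroDivisors W[X]) Cf
  have hb0 : (b : W[X]) ≠ 0 := nonZeroDivisors.coe_ne_zero b
  let δ₀ : W[X] := (b : W[X]) * Polynomial.C (b : W[X]).leadingCoeff⁻¹
  have hδ₀ : δ₀.Monic := Polynomial.monic_mul_leadingCoeff_inv hb0
  have hδ₀0 : algebraMap W[X] (RatFunc W) δ₀ ≠ 0 := by
    intro h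
    exact hδ₀.ne_zero ((IsFractionRing.injective W[X] (RatFunc W)) (by rw [h, map_zero]))
  have hint : ∀ a : RatFunc W, ∃ n : W[X], a ∈ Cf →
      algebraMap W[X] (RatFunc W) n = algebraMap W[X] (RatFunc W) δ₀ * a := by
    intro a
    by_cases ha : a ∈ Cf
    · obtain ⟨n, hn⟩ := hb a ha
      refine ⟨Polynomial.C (b : W[X]).leadingCoeff⁻¹ * n, fun _ => ?_⟩
      rw [map_mul, hn, map_mul, Algebra.smul_def]
      ring
    · exact ⟨0, fun h => absurd h ha⟩
  choose ν hν using hint
  let T : Finset W := S ∪ (f0.coeffs.biUnion Polynomial.coeffs) ∪ δ₀.coeffs ∪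
    Cf.biUnion (fun a => (ν a).coeffs)
  let R : Subalgebra ℚ W := Algebra.adjoin ℚ (T : Set W)
  have hTR : ∀ t ∈ T, t ∈ R := fun t ht => Algebra.subset_adjoin ht
  have hRS : ∀ s ∈ S, s ∈ R := fun s hs => hTR s (by simp [T, hs])
  -- lift of `δ₀`
  obtain ⟨δ, hδ, -, hδm⟩ := Polynomial.lifts_and_degree_eq_and_monic
    (descR_lift R δ₀ (descR_coeff R δ₀ (fun c hc => hTR c (by
      simp only [T, Finset.mem_union]
      exact Or.inl (Or.inr hc))))) hδ₀
  -- lift of `f0`
  have hf0 : f0 ∈ Polynomial.lifts (Polynomial.mapRingHom (R.val : R →+* W)) := by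
    rw [Polynomial.lifts_iff_coeff_lifts]
    intro n
    have h1 : f0.coeff n ∈ Polynomial.lifts (R.val : R →+* W) := by
      refine descR_lift R _ (descR_coeff R _ (fun c hc => hTR c ?_))
      simp only [T, Finset.mem_union, Finset.mem_biUnion]
      refine Or.inl (Or.inl (Or.inr ⟨f0.coeff n, ?_, hc⟩))
      refine Polynomial.coeff_mem_coeffs ?_
      intro h
      rw [h] at hc
      simp at hc
    rw [Polynomial.mem_lifts] at h1
    obtain ⟨q, hq⟩ := h1
    exact ⟨q, hq⟩
  obtain ⟨f1, hf1, -, hf1m⟩ := Polynomial.lifts_and_degree_eq_and_monic hf0 hm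
  refine ⟨R, ⟨T, rfl⟩, hRS, δ, f1, hδm, hf1m, hf1, ?_⟩
  -- the homomorphism
  let gg : Polynomial R →+* RatFunc W :=
    (algebraMap W[X] (RatFunc W)).comp (Polynomial.mapRingHom (R.val : R →+* W))
  have hgg : Function.Injective gg := by
    refine (IsFractionRing.injective W[X] (RatFunc W)).comp ?_
    exact Polynomial.map_injective _ Subtype.val_injective
  have hggδ : gg δ = algebraMap W[X] (RatFunc W) δ₀ := by
    change algebraMap W[X] (RatFunc W) (δ.map (R.val : R →+* W)) = _
    rw [hδ]
  have hu : IsUnit (gg δ) := by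
    rw [hggδ]
    exact hδ₀0.isUnit
  let ι : Localization.Away δ →+* RatFunc W := IsLocalization.Away.lift δ hu
  have hιa : ∀ p : Polynomial R, ι (algebraMap (Polynomial R) (Localization.Away δ) p) = gg p :=
    fun p => IsLocalization.Away.lift_eq δ hu p
  have hle : Submonoid.powers δ ≤ nonZeroDivisors (Polynomial R) :=
    powers_le_nonZeroDivisors_of_noZeroDivisors hδm.ne_zero
  have hinj : Function.Injective (algebraMap (Polynomial R) (Localization.Away δ)) :=
    IsLocalization.injective _ hle
  haveI : Nontrivial (Localization.Away δ) := hinj.nontrivial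
  have hι : Function.Injective ι := by
    rw [injective_iff_map_eq_zero]
    intro x hx
    obtain ⟨p, ⟨s, hs⟩, rfl⟩ := IsLocalization.exists_mk'_eq (Submonoid.powers δ) x
    have h1 : IsLocalization.mk' (Localization.Away δ) p ⟨s, hs⟩ *
        algebraMap (Polynomial R) (Localization.Away δ) s =
        algebraMap (Polynomial R) (Localization.Away δ) p := IsLocalization.mk'_spec _ _ _
    have h2 := congrArg ι h1
    rw [map_mul, hx, zero_mul, hιa] at h2
    have h3 : p = 0 := hgg (by rw [← h2, map_zero])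
    rw [h3, IsLocalization.mk'_zero]
  -- elements in the range
  have hrange : ∀ a ∈ Cf, ∃ x, ι x = a := by
    intro a ha
    have h1 : ν a ∈ Polynomial.lifts (R.val : R →+* W) := by
      refine descR_lift R _ (descR_coeff R _ (fun c hc => hTR c ?_))
      simp only [T, Finset.mem_union, Finset.mem_biUnion]
      exact Or.inr ⟨a, ha, hc⟩
    rw [Polynomial.mem_lifts] at h1
    obtain ⟨q, hq⟩ := h1
    refine ⟨algebraMap (Polynomial R) (Localization.Away δ) q * IsLocalization.Away.invSelf δ, ?_⟩
    have h2 : ι (IsLocalization.Away.invSelf δ) = (gg δ)⁻¹ := by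
      have h3 := congrArg ι (IsLocalization.Away.mul_invSelf (S := Localization.Away δ) δ)
      rw [map_mul, hιa, map_one] at h3
      exact eq_inv_of_mul_eq_one_right h3
    have h4 : gg q = algebraMap W[X] (RatFunc W) (ν a) := by
      change algebraMap W[X] (RatFunc W) (q.map (R.val : R →+* W)) = _
      rw [hq]
    rw [map_mul, hιa, h2, h4, hggδ, hν a ha]
    field_simp
  have hliftp : ∀ p : (RatFunc W)[X], (∀ c ∈ p.coeffs, c ∈ Cf) → ∃ q, Polynomial.map ι q = p := by
    intro p hp
    rw [← Polynomial.mem_lifts, Polynomial.lifts_iff_coeff_lifts]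
    intro n
    by_cases h : p.coeff n = 0
    · rw [h]
      exact ⟨0, map_zero _⟩
    · exact hrange _ (hp _ (Polynomial.coeff_mem_coeffs h))
  have hr : ∀ g, ∃ q, Polynomial.map ι q = C.r g := fun g => hliftp _ (fun c hc => by
    simp only [Cf, Finset.mem_biUnion, Finset.mem_univ, true_and, Finset.mem_union]
    exact ⟨g, Or.inl hc⟩)
  have hw : ∀ g, ∃ q, Polynomial.map ι q = C.w g := fun g => hliftp _ (fun c hc => by
    simp only [Cf, Finset.mem_biUnion, Finset.mem_univ, true_and, Finset.mem_union]
    exact ⟨g, Or.inr hc⟩)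
  choose r hr using hr
  choose w hw using hw
  have hf' : (f1.map (algebraMap (Polynomial R) (Localization.Away δ))).map ι = C.f := by
    have h1 : ι.comp (algebraMap (Polynomial R) (Localization.Away δ)) = gg :=
      RingHom.ext hιa
    rw [Polynomial.map_map, h1, ← hf, ← hf1, Polynomial.map_map]
  exact ⟨Cert.descend ι hι C _ r w hf' (hf1m.map _) hr hw, rfl⟩

end H36.RT
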