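import Mathlib

/-!
# [H36 RT FD] finite differences of powers

`wt s i = ∏_{l ≠ i} (s i - s l)⁻¹`.

Proof. (1) For a polynomial `p` over `ℝ` of degree `≤ k`: `∑ i, wt s i * p(s i) = p.coeff k` (Lagrange
interpolation at the `k+1` distinct nodes `s i`: `Lagrange.interpolate`,
`Polynomial.eq_interpolate_of_eval_eq`; the leading coefficient of the basis polynomial `i` is
`wt s i`). (2) `fd_zero`: `p = (T + X)^e`, `e < k`. (3) `fd_neg`: put `ε = 1/T`;
`T^(k+r) ∑ wt s i ((T + s i)^r)⁻¹ = ε^(-k) ∑ wt s i (1 + ε s i)^(-r)`. There are real numbers `c_j`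
(`c_j = (-1)^j * choose (r+j-1) j`) and a polynomial `R` with
`(1 + x)^r * ∑_{j ≤ k} c_j x^j = 1 + x^(k+1) R(x)`
(the inverse of `(1+X)^r` as a power series, truncated), so
`(1 + x)^(-r) = ∑_{j ≤ k} c_j x^j - x^(k+1) R(x) (1+x)^(-r)` for `x ≥ 0`. Insert `x = ε s i` and
use (1): the sum is `c_k ε^k + O(ε^(k+1))`. So the limit is `c_k = (-1)^k * choose (r+k-1) k ≠ 0`.
(Or: any other proof that the limit exists and is not `0`.)
-/

open Filter Topology

noncomputable section

namespace H36.RT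

/-- The weights of the divided difference at the nodes `s`. -/
def wt {k : ℕ} (s : Fin (k + 1) → ℕ) (i : Fin (k + 1)) : ℝ :=
  ∏ l ∈ Finset.univ.erase i, ((s i : ℝ) - (s l : ℝ))⁻¹

theorem fd_coeff {k : ℕ} (s : Fin (k + 1) → ℕ) (hs : Function.Injective s) (p : Polynomial ℝ)
    (hp : p.natDegree ≤ k) : ∑ i, wt s i * p.eval (s i : ℝ) = p.coeff k := by
  have hinj : Set.InjOn (fun i : Fin (k + 1) => (s i : ℝ)) (Finset.univ : Finset (Fin (k + 1))) := by
    intro i _ j _ hij
    have hij' : (s i : ℝ) = (s j : ℝ) := hij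
    exact hs (by exact_mod_cast hij')
  have hdeg : p.degree < (Finset.univ : Finset (Fin (k + 1))).card := by
    rw [Finset.card_univ, Fintype.card_fin]
    refine lt_of_le_of_lt Polynomial.degree_le_natDegree ?_
    exact_mod_cast Nat.lt_succ_of_le hp
  have h := Lagrange.coeff_eq_sum hinj hdeg
  rw [Finset.card_univ, Fintype.card_fin, Nat.add_sub_cancel] at h
  rw [h]
  refine Finset.sum_congr rfl fun i _ => ?_
  unfold wt
  rw [Finset.prod_inv_distrib, div_eq_mul_inv, mul_comm]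

theorem fd_zero {k : ℕ} (s : Fin (k + 1) → ℕ) (hs : Function.Injective s) (e : ℕ) (he : e < k)
    (T : ℝ) : ∑ i, wt s i * (T + s i) ^ e = 0 := by
  have hp : ((Polynomial.C T + Polynomial.X : Polynomial ℝ) ^ e).natDegree ≤ e := by
    refine Polynomial.natDegree_pow_le.trans ?_
    have : (Polynomial.C T + Polynomial.X : Polynomial ℝ).natDegree ≤ 1 := by
      rw [add_comm]
      exact (Polynomial.natDegree_X_add_C T).le
    calc e * _ ≤ e * 1 := Nat.mul_le_mul_left _ this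
      _ = e := mul_one e
  have h := fd_coeff s hs ((Polynomial.C T + Polynomial.X) ^ e) (hp.trans he.le)
  rw [Polynomial.coeff_eq_zero_of_natDegree_lt (lt_of_le_of_lt hp he)] at h
  rw [← h]
  refine Finset.sum_congr rfl fun i _ => ?_
  simp

theorem fd_neg {k : ℕ} (s : Fin (k + 1) → ℕ) (hs : Function.Injective s) (r : ℕ) (hr : 0 < r) :
    ∃ c : ℝ, c ≠ 0 ∧ Tendsto (fun T : ℕ => (T : ℝ) ^ (k + r) *
      ∑ i, wt s i * (((T : ℝ) + s i) ^ r)⁻¹) atTop (𝓝 c) := by
  -- the truncated inverse of (1+X)^r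
  obtain ⟨F, hF⟩ : ∃ F : PowerSeries ℝ, F = PowerSeries.binomialSeries ℝ (-(r : ℤ)) := ⟨_, rfl⟩
  have hF1 : F * (1 + PowerSeries.X) ^ r = 1 := by
    rw [hF, ← PowerSeries.binomialSeries_nat (R := ℤ), ← PowerSeries.binomialSeries_add,
      neg_add_cancel, PowerSeries.binomialSeries_zero]
  obtain ⟨P, hP⟩ : ∃ P : Polynomial ℝ, P = PowerSeries.trunc (k + 1) F := ⟨_, rfl⟩
  have hPdeg : P.natDegree ≤ k := by
    rw [hP]
    exact Nat.le_of_lt_succ (PowerSeries.natDegree_trunc_lt F k)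
  have hPc : P.coeff k ≠ 0 := by
    rw [hP, PowerSeries.coeff_trunc, if_pos (Nat.lt_succ_self k), hF,
      PowerSeries.binomialSeries_coeff, Ring.choose_neg]
    have h1 : ((r : ℤ) + (k : ℤ) - 1) = ((r + k - 1 : ℕ) : ℤ) := by
      rw [Nat.cast_sub (by omega)]
      push_cast
      ring
    rw [h1, Ring.choose_natCast]
    have h2 : (Nat.choose (r + k - 1) k : ℤ) ≠ 0 := by
      have : 0 < Nat.choose (r + k - 1) k := Nat.choose_pos (by omega)
      exact_mod_cast this.ne'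
    have h3 : ((Int.negOnePow k : ℤˣ) • (Nat.choose (r + k - 1) k : ℤ)) ≠ 0 := by
      rw [Units.smul_def, smul_eq_mul]
      exact mul_ne_zero (Units.ne_zero _) h2
    intro h0
    rw [zsmul_eq_mul, mul_one, Int.cast_eq_zero] at h0
    exact h3 h0
  obtain ⟨R, hR⟩ : ∃ R : Polynomial ℝ, P * (1 + Polynomial.X) ^ r - 1 = Polynomial.X ^ (k + 1) * R := by
    have : Polynomial.X ^ (k + 1) ∣ P * (1 + Polynomial.X) ^ r - 1 := by
      rw [Polynomial.X_pow_dvd_iff]
      intro d hd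
      have h1 : (P * (1 + Polynomial.X) ^ r).coeff d =
          PowerSeries.coeff d (F * (1 + PowerSeries.X) ^ r) := by
        rw [Polynomial.coeff_mul, PowerSeries.coeff_mul]
        refine Finset.sum_congr rfl fun x hx => ?_
        have hx' : x.1 + x.2 = d := Finset.HasAntidiagonal.mem_antidiagonal.1 hx
        have hx1 : x.1 < k + 1 := by omega
        rw [hP, PowerSeries.coeff_trunc, if_pos hx1]
        congr 1
        have : ((1 : PowerSeries ℝ) + PowerSeries.X) ^ r =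
            (((1 + Polynomial.X) ^ r : Polynomial ℝ) : PowerSeries ℝ) := by simp
        rw [this, Polynomial.coeff_coe]
      rw [Polynomial.coeff_sub, h1, hF1, PowerSeries.coeff_one, Polynomial.coeff_one]
      ring
    exact this
  refine ⟨P.coeff k, hPc, ?_⟩
  -- pointwise identity
  have hid : ∀ x : ℝ, 0 ≤ x → ((1 + x) ^ r)⁻¹ = P.eval x - x ^ (k + 1) * R.eval x * ((1 + x) ^ r)⁻¹ := by
    intro x hx
    have h := congrArg (Polynomial.eval x) hR
    simp only [Polynomial.eval_sub, Polynomial.eval_mul, Polynomial.eval_pow, Polynomial.eval_add,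
      Polynomial.eval_one, Polynomial.eval_X] at h
    have hne : (1 + x) ^ r ≠ 0 := by positivity
    field_simp
    linarith
  have hmain : ∀ T : ℕ, 1 ≤ T → (T : ℝ) ^ (k + r) * ∑ i, wt s i * (((T : ℝ) + s i) ^ r)⁻¹ =
      P.coeff k - ∑ i, (1 / (T : ℝ)) * (wt s i * (s i : ℝ) ^ (k + 1) *
        (R.eval ((s i : ℝ) / T) * ((1 + (s i : ℝ) / T) ^ r)⁻¹)) := by
    intro T hT
    have hT0 : (0 : ℝ) < T := by exact_mod_cast hT
    have h1 : ∀ i, (T : ℝ) ^ r * (((T : ℝ) + s i) ^ r)⁻¹ = ((1 + (s i : ℝ) / T) ^ r)⁻¹ := by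
      intro i
      have h2 : (T : ℝ) + s i = T * (1 + (s i : ℝ) / T) := by field_simp
      have h3 : (1 + (s i : ℝ) / T) ^ r ≠ 0 := by positivity
      rw [h2, mul_pow, mul_inv, ← mul_assoc, mul_inv_cancel₀ (by positivity), one_mul]
    have h4 : (T : ℝ) ^ (k + r) * ∑ i, wt s i * (((T : ℝ) + s i) ^ r)⁻¹ =
        (T : ℝ) ^ k * ∑ i, wt s i * ((1 + (s i : ℝ) / T) ^ r)⁻¹ := by
      rw [pow_add, mul_assoc, Finset.mul_sum]
      congr 1
      refine Finset.sum_congr rfl fun i _ => ?_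
      rw [← h1 i]
      ring
    have h5 : ∑ i, wt s i * P.eval ((s i : ℝ) / T) = P.coeff k * (1 / (T : ℝ)) ^ k := by
      have h6 := fd_coeff s hs (P.comp (Polynomial.C (1 / (T : ℝ)) * Polynomial.X)) (by
        refine Polynomial.natDegree_comp_le.trans ?_
        refine (Nat.mul_le_mul hPdeg ((Polynomial.natDegree_C_mul_le _ _).trans
          Polynomial.natDegree_X_le)).trans ?_
        omega)
      rw [Polynomial.comp_C_mul_X_coeff] at h6
      rw [← h6]
      refine Finset.sum_congr rfl fun i _ => ?_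
      rw [Polynomial.eval_comp]
      simp only [Polynomial.eval_mul, Polynomial.eval_C, Polynomial.eval_X]
      rw [one_div, inv_mul_eq_div]
    rw [h4]
    have h7 : ∀ i ∈ (Finset.univ : Finset (Fin (k + 1))), wt s i * ((1 + (s i : ℝ) / T) ^ r)⁻¹ =
        wt s i * P.eval ((s i : ℝ) / T) - wt s i * (((s i : ℝ) / T) ^ (k + 1) *
          R.eval ((s i : ℝ) / T) * ((1 + (s i : ℝ) / T) ^ r)⁻¹) := by
      intro i _
      have h8 := hid ((s i : ℝ) / T) (by positivity)
      calc wt s i * ((1 + (s i : ℝ) / T) ^ r)⁻¹ = wt s i * (P.eval ((s i : ℝ) / T) -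
            ((s i : ℝ) / T) ^ (k + 1) * R.eval ((s i : ℝ) / T) * ((1 + (s i : ℝ) / T) ^ r)⁻¹) := by
            rw [← h8]
        _ = _ := by ring
    rw [Finset.sum_congr rfl h7, Finset.sum_sub_distrib, h5, mul_sub, Finset.mul_sum]
    congr 1
    · rw [one_div, inv_pow]
      field_simp
    · refine Finset.sum_congr rfl fun i _ => ?_
      rw [div_pow, pow_succ (T : ℝ) k]
      field_simp
  have hlim : Tendsto (fun T : ℕ => P.coeff k - ∑ i, (1 / (T : ℝ)) * (wt s i * (s i : ℝ) ^ (k + 1) *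
        (R.eval ((s i : ℝ) / T) * ((1 + (s i : ℝ) / T) ^ r)⁻¹))) atTop (𝓝 (P.coeff k)) := by
    have h1 : Tendsto (fun T : ℕ => 1 / (T : ℝ)) atTop (𝓝 0) := tendsto_one_div_atTop_nhds_zero_nat
    have h2 : ∀ i, Tendsto (fun T : ℕ => (s i : ℝ) / T) atTop (𝓝 0) := fun i =>
      tendsto_const_div_atTop_nhds_zero_nat _
    have h3 : ∀ i, Tendsto (fun T : ℕ => (1 / (T : ℝ)) * (wt s i * (s i : ℝ) ^ (k + 1) *
        (R.eval ((s i : ℝ) / T) * ((1 + (s i : ℝ) / T) ^ r)⁻¹))) atTop (𝓝 0) := by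
      intro i
      have h4 : Tendsto (fun T : ℕ => R.eval ((s i : ℝ) / T)) atTop (𝓝 (R.eval 0)) :=
        (R.continuous.tendsto 0).comp (h2 i)
      have h5 : Tendsto (fun T : ℕ => ((1 + (s i : ℝ) / T) ^ r)⁻¹) atTop (𝓝 (((1 + 0) ^ r)⁻¹)) :=
        ((tendsto_const_nhds.add (h2 i)).pow r).inv₀ (by norm_num)
      have h6 := h1.mul ((tendsto_const_nhds (x := wt s i * (s i : ℝ) ^ (k + 1))).mul (h4.mul h5))
      rw [zero_mul] at h6
      exact h6
    have h7 := tendsto_finsetSum (Finset.univ : Finset (Fin (k + 1))) fun i _ => h3 i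
    rw [Finset.sum_const_zero] at h7
    have h8 := (tendsto_const_nhds (x := P.coeff k)).sub h7
    rw [sub_zero] at h8
    exact h8
  refine hlim.congr' ?_
  filter_upwards [eventually_ge_atTop 1] with T hT
  exact (hmain T hT).symm

end H36.RT
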