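import Pool.Agent.H36.RT.Bdd

/-!
# [H36 RT FRAC] `E` is the field of fractions of `k⟦t⟧[x]`, and isomorphic to `K(x)`

`j0_injective`: `i0_injective` and the injectivity of `RR k → QQ k`. `j0_surj`: `mem_fr`
(`S0` is the range of `i0`). `ratfunc_equiv`: let `A = k⟦t⟧[x]`, `K = FractionRing (k⟦t⟧)`. `RatFunc K`
is a fraction field of `A` (`IsFractionRing A (RatFunc K)`: the map `A → K[X] → RatFunc K` is
injective, and every element of `K[X]` is `a / c` with `a ∈ A`, `0 ≠ c ∈ k⟦t⟧`
(`IsLocalization.integerNormalization`), so every element of `RatFunc K` is a quotient of elements of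
`A`), and so is `EE k` through `j0` . Use `IsFractionRing.lift`/`IsLocalization.ringEquivOfRingEquiv`,
or `IsFractionRing.lift` of an injective map `A → EE k` precomposed with the isomorphism
`FractionRing A ≃ RatFunc K`; surjectivity from `j0_surj`.
-/

open Polynomial

noncomputable section

namespace H36.RT

variable (k : Type) [Field k]

/-- The inclusion of `k⟦t⟧[x]` in `E`. -/
def j0 : (PowerSeries k)[X] →+* EE k :=
  ((algebraMap (RR k) (QQ k)).comp (i0 k)).codRestrict (EE k)
    (fun a => Subfield.subset_closure ⟨i0 k a, ⟨a, rfl⟩, rfl⟩)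

theorem j0_coe (a : (PowerSeries k)[X]) :
    ((j0 k a : EE k) : QQ k) = algebraMap (RR k) (QQ k) (i0 k a) := rfl

theorem j0_injective : Function.Injective (j0 k) := by
  intro a b hab
  have h := congrArg (fun z : EE k => (z : QQ k)) hab
  simp only [j0_coe] at h
  exact i0_injective k (IsFractionRing.injective (RR k) (QQ k) h)

theorem j0_surj (x : EE k) : ∃ a b : (PowerSeries k)[X], b ≠ 0 ∧ x = j0 k a / j0 k b := by
  obtain ⟨_, ⟨a, rfl⟩, _, ⟨b, rfl⟩, hb, hx⟩ := mem_fr.1 x.2
  refine ⟨a, b, ?_, Subtype.ext hx⟩
  rintro rfl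
  exact hb (map_zero _)

theorem ratfunc_equiv : ∃ e : RatFunc (FractionRing (PowerSeries k)) ≃+* EE k,
    ∀ a : (PowerSeries k)[X],
      e (algebraMap (FractionRing (PowerSeries k))[X] (RatFunc (FractionRing (PowerSeries k)))
        (a.map (algebraMap (PowerSeries k) (FractionRing (PowerSeries k))))) = j0 k a := by
  let c : PowerSeries k →+* EE k := (j0 k).comp Polynomial.C
  have hc : Function.Injective c := (j0_injective k).comp Polynomial.C_injective
  let cK : FractionRing (PowerSeries k) →+* EE k := IsFractionRing.lift hc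
  have hcK : ∀ b, cK (algebraMap (PowerSeries k) (FractionRing (PowerSeries k)) b) =
      j0 k (Polynomial.C b) := fun b => IsFractionRing.lift_algebraMap hc b
  let ψ : (FractionRing (PowerSeries k))[X] →+* EE k :=
    Polynomial.eval₂RingHom cK (j0 k Polynomial.X)
  have hψ : ∀ a : (PowerSeries k)[X],
      ψ (a.map (algebraMap (PowerSeries k) (FractionRing (PowerSeries k)))) = j0 k a := by
    intro a
    have h1 : ψ.comp (Polynomial.mapRingHom
        (algebraMap (PowerSeries k) (FractionRing (PowerSeries k)))) = j0 k := by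
      refine Polynomial.ringHom_ext (fun b => ?_) ?_
      · rw [RingHom.comp_apply, Polynomial.coe_mapRingHom, Polynomial.map_C]
        show Polynomial.eval₂ cK (j0 k Polynomial.X) (Polynomial.C _) = _
        rw [Polynomial.eval₂_C, hcK]
      · rw [RingHom.comp_apply, Polynomial.coe_mapRingHom, Polynomial.map_X]
        show Polynomial.eval₂ cK (j0 k Polynomial.X) Polynomial.X = _
        rw [Polynomial.eval₂_X]
    exact RingHom.congr_fun h1 a
  have hψi : Function.Injective ψ := by
    rw [injective_iff_map_eq_zero]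
    intro p hp
    obtain ⟨b, -, hb⟩ := IsLocalization.integerNormalization_spec
      (nonZeroDivisors (PowerSeries k)) p
    have h1 : j0 k (IsLocalization.integerNormalization (nonZeroDivisors (PowerSeries k)) p) =
        0 := by
      rw [← hψ, hb]
      have h2 : (b • p : (FractionRing (PowerSeries k))[X]) =
          Polynomial.C (algebraMap (PowerSeries k) (FractionRing (PowerSeries k)) b) * p := by
        rw [← Polynomial.smul_eq_C_mul, algebraMap_smul]
      rw [h2, map_mul, hp, mul_zero]
    have h3 := (injective_iff_map_eq_zero _).1 (j0_injective k) _ h1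
    exact IsFractionRing.integerNormalization_eq_zero_iff.1 h3
  let Ψ : RatFunc (FractionRing (PowerSeries k)) →+* EE k := IsFractionRing.lift hψi
  have hΨ : ∀ p, Ψ (algebraMap (FractionRing (PowerSeries k))[X]
      (RatFunc (FractionRing (PowerSeries k))) p) = ψ p := fun p =>
    IsFractionRing.lift_algebraMap hψi p
  have hbij : Function.Bijective Ψ := by
    refine ⟨Ψ.injective, fun x => ?_⟩
    obtain ⟨a, b, _, rfl⟩ := j0_surj k x
    refine ⟨algebraMap _ _ (a.map (algebraMap (PowerSeries k) (FractionRing (PowerSeries k)))) /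
      algebraMap _ _ (b.map (algebraMap (PowerSeries k) (FractionRing (PowerSeries k)))), ?_⟩
    rw [map_div₀, hΨ, hΨ, hψ, hψ]
  refine ⟨RingEquiv.ofBijective Ψ hbij, fun a => ?_⟩
  rw [RingEquiv.ofBijective_apply, hΨ, hψ]

end H36.RT
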