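import Mathlib

/-!
# [H36 RT HENS] Hensel factorisation over `K⟦z⟧`

Proof. For each `i` the residue `r i` is a simple root of `f` modulo `z` (the `r i` are distinct), so
there is `θ i ∈ K⟦z⟧` with constant coefficient `r i` and `f(θ i) = 0` (Hensel: Mathlib's
`IsAdicComplete` instance for power series and `HenselianRing.is_henselian`). The `θ i` are `n`
distinct roots of the monic polynomial of degree `n` over the domain `K⟦z⟧`, so it is the product
(the product divides, both monic of degree `n`).
-/

open Polynomial

noncomputable section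

namespace H36.RT

/-- The product over distinct roots divides the polynomial. -/
theorem prod_X_sub_C_dvd_of_roots {R : Type} [CommRing R] [IsDomain R] (F : R[X])
    (hF : F.Monic) (n : ℕ) (θ : Fin n → R) (hθ : Function.Injective θ)
    (hroot : ∀ i, F.IsRoot (θ i)) : (∏ i, (X - C (θ i))) ∣ F := by
  classical
  have hF0 : F ≠ 0 := hF.ne_zero
  have h1 : (Finset.univ.val.map θ) ≤ F.roots := by
    rw [Multiset.le_iff_subset (Multiset.Nodup.map hθ Finset.univ.nodup)]
    intro a ha
    rw [Multiset.mem_map] at ha
    obtain ⟨i, -, rfl⟩ := ha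
    exact (Polynomial.mem_roots hF0).2 (hroot i)
  have h2 := (Multiset.prod_X_sub_C_dvd_iff_le_roots hF0 (Finset.univ.val.map θ)).2 h1
  rw [Multiset.map_map] at h2
  exact h2

theorem hensel_factor (K : Type) [Field K] (f : K[X][X]) (hf : f.Monic) (n : ℕ)
    (hn : f.natDegree = n) (r : Fin n → K) (hr : Function.Injective r)
    (h0 : f.map (Polynomial.evalRingHom 0) = ∏ i, (X - C (r i))) :
    ∃ θ : Fin n → PowerSeries K,
      f.map (Polynomial.coeToPowerSeries.ringHom : K[X] →+* PowerSeries K) =
        ∏ i, (X - C (θ i)) ∧ ∀ i, PowerSeries.constantCoeff (θ i) = r i := by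
  classical
  set φ : K[X] →+* PowerSeries K := Polynomial.coeToPowerSeries.ringHom with hφ
  set F : (PowerSeries K)[X] := f.map φ with hFdef
  have hFm : F.Monic := hf.map φ
  have hFn : F.natDegree = n := by rw [hFdef, hf.natDegree_map, hn]
  have hcomp : (PowerSeries.constantCoeff (R := K)).comp φ = Polynomial.evalRingHom 0 := by
    ext x
    · simp [hφ]
    · simp [hφ]
  have hF0 : F.map (PowerSeries.constantCoeff (R := K)) = ∏ i, (X - C (r i)) := by
    rw [hFdef, Polynomial.map_map, hcomp, h0]
  have hcc : ∀ (G : (PowerSeries K)[X]) (a : K),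
      PowerSeries.constantCoeff (G.eval (PowerSeries.C a)) =
        (G.map (PowerSeries.constantCoeff (R := K))).eval a := by
    intro G a
    rw [Polynomial.eval_map, Polynomial.eval, Polynomial.hom_eval₂, RingHom.comp_id,
      PowerSeries.constantCoeff_C]
  have hex : ∀ i, ∃ a : PowerSeries K, F.IsRoot a ∧ PowerSeries.constantCoeff a = r i := by
    intro i
    have h1 : F.eval (PowerSeries.C (r i)) ∈ (Ideal.span {PowerSeries.X} : Ideal (PowerSeries K)) := by
      rw [Ideal.mem_span_singleton, PowerSeries.X_dvd_iff, hcc, hF0, Polynomial.eval_prod]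
      exact Finset.prod_eq_zero (Finset.mem_univ i) (by simp)
    have h2 : IsUnit (F.derivative.eval (PowerSeries.C (r i))) := by
      rw [PowerSeries.isUnit_iff_constantCoeff, hcc, ← Polynomial.derivative_map, hF0,
        Polynomial.derivative_prod_finset, Polynomial.eval_finsetSum, isUnit_iff_ne_zero]
      rw [Finset.sum_eq_single i]
      · simp only [derivative_sub, derivative_X, derivative_C, sub_zero, mul_one,
          Polynomial.eval_prod, eval_sub, eval_X, eval_C]
        refine Finset.prod_ne_zero_iff.2 fun j hj => sub_ne_zero.2 fun h => ?_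
        exact (Finset.mem_erase.1 hj).1 (hr h).symm
      · intro j _ hj
        rw [Polynomial.eval_mul, Polynomial.eval_prod]
        rw [Finset.prod_eq_zero (i := i) (Finset.mem_erase.2 ⟨hj.symm, Finset.mem_univ i⟩)
          (by simp), zero_mul]
      · intro h; exact absurd (Finset.mem_univ i) h
    obtain ⟨a, ha, hb⟩ := HenselianRing.is_henselian
      (I := (Ideal.span {PowerSeries.X} : Ideal (PowerSeries K))) F hFm
      (PowerSeries.C (r i)) h1 (h2.map _)
    refine ⟨a, ha, ?_⟩
    rw [Ideal.mem_span_singleton, PowerSeries.X_dvd_iff, map_sub,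
      PowerSeries.constantCoeff_C, sub_eq_zero] at hb
    exact hb
  choose θ hθ hθ0 using hex
  have hinj : Function.Injective θ := by
    intro i j hij
    apply hr
    rw [← hθ0 i, ← hθ0 j, hij]
  refine ⟨θ, ?_, hθ0⟩
  have hdvd := prod_X_sub_C_dvd_of_roots F hFm n θ hinj hθ
  have hpm : (∏ i, (X - C (θ i))).Monic := Polynomial.monic_prod_of_monic _ _
    fun i _ => Polynomial.monic_X_sub_C _
  have hdeg : (∏ i, (X - C (θ i))).natDegree = n := by
    rw [Polynomial.natDegree_prod_of_monic _ _ fun i _ => Polynomial.monic_X_sub_C _]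
    simp
  exact (Polynomial.eq_of_monic_of_dvd_of_natDegree_le hpm hFm hdvd (by rw [hFn, hdeg]))

end H36.RT
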