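import Mathlib

/-!
# [H36 RT INTEG] integrality of the coefficients of factors of `f(1/t, Y)`

Proof. Let `N` be a bound for the `natDegree` of all coefficients of `f` and `D > 0` an integer such
that `D` times every coefficient of every coefficient of `f` is integral over `ℤ` (finitely many
elements of the number field `K`; `exists_integral_multiples` or `IsIntegral`/`IsAlgebraic`). Let
`f_t = f.map (evalRingHom t⁻¹)`, `n = natDegree f`, `s = D * t^N`. The polynomial
`F = f_t.scaleRoots s` is monic with coefficients `s^(n-i) * (coefficient i of f)(1/t)`, integral over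
`ℤ` for `i < n` (`s * c(1/t) = ∑ (D c_l) t^(N-l)`, and further factors `s` are integral). If
`u ∣ f_t` is monic then `u.scaleRoots s ∣ f_t.scaleRoots s` (`Polynomial.scaleRoots_dvd` or through the
factorisation `f_t = u * u'`, `Polynomial.mul_scaleRoots`), so
its coefficients `s^(deg u - j) * u.coeff j` are integral over `ℤ`: a monic divisor over `K` of a
monic polynomial over `𝓞 K` has coefficients in `𝓞 K` (`IsIntegrallyClosed.eq_map_mul_C_of_dvd`), or
in an algebraic closure the roots of `u` are integral, and so are the coefficients.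
-/

open Polynomial

noncomputable section

namespace H36.RT

theorem integ_clear (K : Type) [Field K] [NumberField K] (S : Finset K) :
    ∃ D : ℕ, 0 < D ∧ ∀ x ∈ S, IsIntegral ℤ ((D : K) * x) := by
  obtain ⟨y, hy, h⟩ := exists_integral_multiples ℤ ℚ S
  refine ⟨y.natAbs, Int.natAbs_pos.2 hy, fun x hx => ?_⟩
  have h1 := h x hx
  rw [zsmul_eq_mul] at h1
  rcases Int.natAbs_eq y with e | e
  · rw [e, Int.cast_natCast] at h1
    exact h1
  · rw [e, Int.cast_neg, Int.cast_natCast, neg_mul] at h1
    have h2 := h1.neg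
    rwa [neg_neg] at h2

theorem integ_eval (K : Type) [Field K] [NumberField K] (c : K[X]) (D N t : ℕ) (ht : 0 < t)
    (hN : c.natDegree ≤ N) (hD : ∀ l, IsIntegral ℤ ((D : K) * c.coeff l)) :
    IsIntegral ℤ ((D : K) * (t : K) ^ N * c.eval ((t : K)⁻¹)) := by
  have ht0 : (t : K) ≠ 0 := by exact_mod_cast ht.ne'
  rw [Polynomial.eval_eq_sum_range' (Nat.lt_succ_of_le hN), Finset.mul_sum]
  refine IsIntegral.sum _ (fun l hl => ?_)
  have hl' : l ≤ N := Nat.lt_succ_iff.1 (Finset.mem_range.1 hl)
  have e : (D : K) * (t : K) ^ N * (c.coeff l * ((t : K)⁻¹) ^ l) =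
      ((D : K) * c.coeff l) * (t : K) ^ (N - l) := by
    have e2 : (t : K) ^ N = (t : K) ^ (N - l) * (t : K) ^ l := by
      rw [← pow_add, Nat.sub_add_cancel hl']
    rw [e2, inv_pow]
    field_simp
  rw [e]
  exact (hD l).mul ((isIntegral_natCast (R := ℤ) (B := K) (a := t)).pow _)

theorem integ (K : Type) [Field K] [NumberField K] (f : K[X][X]) (hf : f.Monic) :
    ∃ D N : ℕ, 0 < D ∧ ∀ t : ℕ, 0 < t → ∀ u : K[X], u.Monic →
      u ∣ f.map (Polynomial.evalRingHom ((t : K)⁻¹)) → ∀ j ≤ u.natDegree,
        IsIntegral ℤ (((D : K) * (t : K) ^ N) ^ (u.natDegree - j) * u.coeff j) := by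
  classical
  set N := (Finset.range (f.natDegree + 1)).sup (fun i => (f.coeff i).natDegree) with hN
  obtain ⟨D, hD0, hD⟩ := integ_clear K (((Finset.range (f.natDegree + 1)) ×ˢ
    (Finset.range (N + 1))).image (fun x => (f.coeff x.1).coeff x.2))
  have hND : ∀ i ≤ f.natDegree, (f.coeff i).natDegree ≤ N := fun i hi =>
    Finset.le_sup (f := fun i => (f.coeff i).natDegree) (Finset.mem_range.2 (Nat.lt_succ_of_le hi))
  have hDD : ∀ i ≤ f.natDegree, ∀ l, IsIntegral ℤ ((D : K) * (f.coeff i).coeff l) := by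
    intro i hi l
    by_cases hl : l ≤ N
    · refine hD _ (Finset.mem_image.2 ⟨(i, l), ?_, rfl⟩)
      rw [Finset.mem_product]
      exact ⟨Finset.mem_range.2 (Nat.lt_succ_of_le hi), Finset.mem_range.2 (Nat.lt_succ_of_le hl)⟩
    · rw [Polynomial.coeff_eq_zero_of_natDegree_lt (lt_of_le_of_lt (hND i hi) (not_le.1 hl)), mul_zero]
      exact isIntegral_zero
  refine ⟨D, N, hD0, fun t ht u hu hdvd j hj => ?_⟩
  set s : K := (D : K) * (t : K) ^ N with hs
  have hsI : IsIntegral ℤ s :=
    (isIntegral_natCast (R := ℤ) (B := K) (a := D)).mul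
      ((isIntegral_natCast (R := ℤ) (B := K) (a := t)).pow _)
  set ft := f.map (Polynomial.evalRingHom ((t : K)⁻¹)) with hft
  have hftm : ft.Monic := hf.map _
  have hftd : ft.natDegree = f.natDegree := hf.natDegree_map _
  -- the scaled polynomial has integral coefficients
  have hF : ∀ i, IsIntegral ℤ ((ft.scaleRoots s).coeff i) := by
    intro i
    rw [Polynomial.coeff_scaleRoots, hftd]
    rcases lt_trichotomy i f.natDegree with hi | hi | hi
    · have e1 : ft.coeff i = (f.coeff i).eval ((t : K)⁻¹) := by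
        rw [hft, Polynomial.coeff_map]
        rfl
      have e2 : f.natDegree - i = (f.natDegree - i - 1) + 1 := by omega
      rw [e1, e2, pow_succ, mul_comm, mul_assoc]
      exact (hsI.pow _).mul (integ_eval K (f.coeff i) D N t ht (hND i hi.le) (hDD i hi.le))
    · have e1 : ft.coeff i = 1 := by
        rw [hi, ← hftd]
        exact hftm.coeff_natDegree
      rw [e1, one_mul]
      exact hsI.pow _
    · rw [Polynomial.coeff_eq_zero_of_natDegree_lt (by rw [hftd]; exact hi), zero_mul]
      exact isIntegral_zero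
  have hlift : ft.scaleRoots s ∈ Polynomial.lifts (algebraMap (NumberField.RingOfIntegers K) K) := by
    rw [Polynomial.lifts_iff_coeff_lifts]
    intro i
    exact ⟨⟨_, hF i⟩, rfl⟩
  obtain ⟨q, hq, -, hqm⟩ := Polynomial.lifts_and_natDegree_eq_and_monic hlift
    ((Polynomial.monic_scaleRoots_iff s).2 hftm)
  have hdvd2 : u.scaleRoots s ∣ q.map (algebraMap (NumberField.RingOfIntegers K) K) := by
    rw [hq]
    obtain ⟨v, hv⟩ := hdvd
    rw [hv, Polynomial.mul_scaleRoots_of_noZeroDivisors]
    exact dvd_mul_right _ _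
  obtain ⟨g, hg⟩ := IsIntegrallyClosed.eq_map_mul_C_of_dvd K hqm hdvd2
  rw [((Polynomial.monic_scaleRoots_iff s).2 hu).leadingCoeff, C_1, mul_one] at hg
  have e : s ^ (u.natDegree - j) * u.coeff j = algebraMap (NumberField.RingOfIntegers K) K (g.coeff j) := by
    rw [← Polynomial.coeff_map, hg, Polynomial.coeff_scaleRoots, mul_comm]
  rw [e]
  exact (g.coeff j).2

end H36.RT
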