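import Mathlib

/-!
# [H36 RT NONPOLY] a proper subproduct has a coefficient that is not a polynomial of small degree

Proof. Otherwise, for every `j < |I|`, all coefficients of `z^m`, `m > N (|I| - j)`, of the power series
`(∏_{i ∈ I} (X - C (θ i))).coeff j` vanish, so it is a polynomial in `z`; the coefficient `j = |I|` is
`1`. So `∏_{i ∈ I} (X - C (θ i)) = g.map _` with `g : K[X][X]` monic of degree `|I|`. `g.map _` divides
`f.map _` (`Finset.prod_dvd_prod_of_subset`), so `g ∣ f` (`Polynomial.map_dvd_map`, the inclusion
`K[z] → K⟦z⟧` is injective), `0 < natDegree g < n = natDegree f`: contradiction to the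
irreducibility of `f` (`g` monic is not a unit, `f = g h`, `h` is monic of positive degree).
-/

open Polynomial

noncomputable section

namespace H36.RT

theorem nonpoly (K : Type) [Field K] (f : K[X][X]) (hf : f.Monic) (hirr : Irreducible f) (n : ℕ)
    (θ : Fin n → PowerSeries K)
    (hθ : f.map (Polynomial.coeToPowerSeries.ringHom : K[X] →+* PowerSeries K) =
      ∏ i, (X - C (θ i)))
    (I : Finset (Fin n)) (hI : I.Nonempty) (hI' : I ≠ Finset.univ) (N : ℕ) :
    ∃ j < I.card, ∃ m, N * (I.card - j) < m ∧
      PowerSeries.coeff m ((∏ i ∈ I, (X - C (θ i))).coeff j) ≠ 0 := by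
  classical
  by_contra hcon
  push Not at hcon
  set φ : K[X] →+* PowerSeries K := Polynomial.coeToPowerSeries.ringHom with hφ
  have hφi : Function.Injective φ := Polynomial.coe_injective K
  set P : (PowerSeries K)[X] := ∏ i ∈ I, (X - C (θ i)) with hP
  have hPm : P.Monic := monic_prod_of_monic _ _ fun i _ => monic_X_sub_C _
  have hPd : P.natDegree = I.card := by
    rw [hP, natDegree_prod_of_monic _ _ fun i _ => monic_X_sub_C _]
    simp
  have hFd : (∏ i, (X - C (θ i)) : (PowerSeries K)[X]).natDegree = n := by
    rw [natDegree_prod_of_monic _ _ fun i _ => monic_X_sub_C _]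
    simp
  -- the coefficients of `P` are polynomials
  set M : ℕ := N * I.card + 1 with hM
  have hcoef : ∀ j, φ (PowerSeries.trunc M (P.coeff j)) = P.coeff j := by
    intro j
    ext m
    show PowerSeries.coeff m ((PowerSeries.trunc M (P.coeff j) : K[X]) : PowerSeries K) = _
    rw [Polynomial.coeff_coe, PowerSeries.coeff_trunc]
    split_ifs with hm
    · rfl
    · symm
      rcases lt_trichotomy j I.card with hj | hj | hj
      · refine hcon j hj m ?_
        have h1 : N * (I.card - j) ≤ N * I.card := Nat.mul_le_mul_left _ (Nat.sub_le _ _)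
        omega
      · have h1 : P.coeff j = 1 := by
          rw [hj, ← hPd]
          exact hPm
        rw [h1, PowerSeries.coeff_one, if_neg (by omega)]
      · rw [coeff_eq_zero_of_natDegree_lt (by omega)]
        simp
  -- the polynomial `g`
  set g : K[X][X] := ∑ j ∈ Finset.range (I.card + 1),
    C (PowerSeries.trunc M (P.coeff j)) * X ^ j with hg
  have hgP : g.map φ = P := by
    ext1 j
    rw [coeff_map, hg, finsetSum_coeff]
    simp only [coeff_C_mul, coeff_X_pow, mul_ite, mul_one, mul_zero]
    rw [Finset.sum_ite_eq]
    split_ifs with hj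
    · exact hcoef j
    · rw [Finset.mem_range] at hj
      rw [map_zero, coeff_eq_zero_of_natDegree_lt (by omega)]
  have hgm : g.Monic := monic_of_injective hφi (by rw [hgP]; exact hPm)
  have hgd : g.natDegree = I.card := by
    rw [← natDegree_map_eq_of_injective hφi g, hgP, hPd]
  have hfd : f.natDegree = n := by
    rw [← natDegree_map_eq_of_injective hφi f, hθ, hFd]
  have hdvd : g ∣ f := by
    rw [← map_dvd_map φ hφi hgm, hgP, hθ]
    exact Finset.prod_dvd_prod_of_subset _ _ _ (Finset.subset_univ I)
  obtain ⟨h, hh⟩ := hdvd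
  have hh0 : h ≠ 0 := by
    rintro rfl
    rw [mul_zero] at hh
    exact hf.ne_zero hh
  have hdeg : f.natDegree = g.natDegree + h.natDegree := by
    rw [hh, natDegree_mul hgm.ne_zero hh0]
  have hIc : 0 < I.card := Finset.card_pos.2 hI
  have hIn : I.card < n := by
    have h1 := Finset.card_lt_univ_of_notMem (s := I) (x := (Finset.ssubset_univ_iff.2 hI' |>
      fun hs => (Finset.exists_of_ssubset hs).choose)) (by
        exact ((Finset.exists_of_ssubset (Finset.ssubset_univ_iff.2 hI')).choose_spec).2)
    rwa [Fintype.card_fin] at h1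
  rcases hirr.isUnit_or_isUnit hh with hu | hu
  · have := natDegree_eq_zero_of_isUnit hu
    omega
  · have := natDegree_eq_zero_of_isUnit hu
    omega

end H36.RT
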