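import Pool.Agent.H36.RT.Hens
import Pool.Agent.H36.RT.Integ
import Pool.Agent.H36.RT.Approx2
import Pool.Agent.H36.RT.NonPoly
import Pool.Agent.H36.RT.Core

/-!
# [H36 RT HITZERO] Hilbert irreducibility, the case of a totally split point at `0`

Proof. Suppose that `f_t = f.map (evalRingHom t⁻¹)` is reducible for all `t ≥ B`, `t > 0`. `n ≥ 1`
(`f` is irreducible), `f_t` is monic of degree `n`, so there is a monic `u_t ∣ f_t` with
`0 < natDegree (u_t) < n`. Let `θ` be as in `hensel_factor`, `D`, `N` as in `integ`, and for each of the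
finitely many embeddings `v : K →+* ℂ` let `t₀(v)`, `ρ_v` be as in `approx_coeff`; `t₁` = maximum of
`B`, `1` and all `t₀(v)`. For `t ≥ t₁` and each `v`, `(u_t).map v` is a monic divisor of
`∏ i, (X - C (ρ_v t i))`, so `(u_t).map v = ∏ i ∈ I_v(t), (X - C (ρ_v t i))` for some
`I_v(t) : Finset (Fin n)` of cardinality `natDegree u_t` (roots: a submultiset of
`Finset.univ.val.map (ρ_v t)`). Colour `t` by `(I_v(t))_v`, an element of the finite type
`(K →+* ℂ) → Finset (Fin n)`. Let `k = N * n + 1`. In every window `{T, …, T + W - 1}`, `W = (k+1) * #colours`,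
some `k + 1` numbers have the same colour (pigeonhole), that is, there are a colour and an injective
`s : Fin (k+1) → ℕ` with values `< W`. There are finitely many pairs (colour, `s`), so one pair works for
all `T` in an infinite set `𝒯` (of numbers `≥ t₁`). Let `I_v` be the colour, `a` the common
cardinality (`= natDegree (u_t)`, `t = T + s i`; the same for all `v` and all these `t`),
`v₀` any embedding, and `j < a`, `m₀ > N (a - j)` as in `nonpoly` for `I_(v₀)`. Put `q = N (a - j) < k`,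
`x t = (D t^N)^(a-j) * (u_t).coeff j` (integral), and
`e v m = D^(a-j) * v (coeff m ((∏ i ∈ I_v, (X - C (θ i))).coeff j))`. From `approx_coeff` with `m = M`,
multiplied by `(D t^N)^(a-j)`, `t = T + s i ≥ T`, `t ≤ (W+1) T`:
`|v (x t) - ∑_{m < M} e v m t^(q-m)| ≤ B' t^(q-M) ≤ B'' T^(q-M)`
(`(trunc M F).eval₂` written as a sum over `range M`). `core` gives the contradiction.
-/

open Polynomial

noncomputable section

namespace H36.RT

/-- monic divisors of a product of different linear factors are subproducts -/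
private theorem hz_sub {ι F : Type} [DecidableEq ι] [Field F] (ρ : ι → F) (s : Finset ι) :
    ∀ p : F[X], p.Monic → p ∣ ∏ i ∈ s, (X - C (ρ i)) →
      ∃ I : Finset ι, I ⊆ s ∧ p = ∏ i ∈ I, (X - C (ρ i)) := by
  induction s using Finset.induction_on with
  | empty =>
    intro p hp hdvd
    rw [Finset.prod_empty] at hdvd
    exact ⟨∅, Finset.Subset.refl _,
      by rw [Finset.prod_empty]; exact hp.eq_one_of_isUnit (isUnit_of_dvd_one hdvd)⟩
  | insert a s ha ih =>
    intro p hp hdvd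
    rw [Finset.prod_insert ha] at hdvd
    by_cases hroot : p.eval (ρ a) = 0
    · obtain ⟨p', hp'⟩ := dvd_iff_isRoot.2 hroot
      have hmon' : p'.Monic := by
        apply (monic_X_sub_C (ρ a)).of_mul_monic_left
        rw [← hp']
        exact hp
      have hdvd' : p' ∣ ∏ i ∈ s, (X - C (ρ i)) := by
        rw [hp'] at hdvd
        exact (mul_dvd_mul_iff_left (X_sub_C_ne_zero (ρ a))).1 hdvd
      obtain ⟨I, hIs, hI⟩ := ih p' hmon' hdvd'
      refine ⟨insert a I, Finset.insert_subset_insert a hIs, ?_⟩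
      rw [Finset.prod_insert (fun h => ha (hIs h)), ← hI, hp']
    · have hcop : IsCoprime p (X - C (ρ a)) := by
        rw [isCoprime_comm, (irreducible_X_sub_C (ρ a)).coprime_iff_not_dvd, dvd_iff_isRoot]
        exact hroot
      obtain ⟨I, hIs, hI⟩ := ih p hp (hcop.dvd_of_dvd_mul_left hdvd)
      exact ⟨I, hIs.trans (Finset.subset_insert a s), hI⟩

/-- power comparison -/
private theorem hz_zpow {T t W : ℝ} (hT : 0 < T) (hTt : T ≤ t) (htW : t ≤ W * T) (hW : 1 ≤ W)
    (z : ℤ) : t ^ z ≤ W ^ z.natAbs * T ^ z := by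
  have ht : 0 < t := lt_of_lt_of_le hT hTt
  rcases le_total 0 z with h | h
  · obtain ⟨m, rfl⟩ := Int.eq_ofNat_of_zero_le h
    rw [Int.natAbs_natCast, zpow_natCast, zpow_natCast, ← mul_pow]
    exact pow_le_pow_left₀ ht.le htW m
  · obtain ⟨m, hm⟩ := Int.eq_ofNat_of_zero_le (neg_nonneg.2 h)
    obtain rfl : z = -(m : ℤ) := by omega
    rw [Int.natAbs_neg, Int.natAbs_natCast, zpow_neg, zpow_neg, zpow_natCast, zpow_natCast]
    have h1 : (t ^ m)⁻¹ ≤ (T ^ m)⁻¹ := by
      apply inv_anti₀ (by positivity)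
      exact pow_le_pow_left₀ hT.le hTt m
    have h2 : 1 ≤ W ^ m := one_le_pow₀ hW
    have h3 : 0 ≤ (T ^ m)⁻¹ := by positivity
    nlinarith

/-- the final estimate -/
private theorem hz_end {A B t T W E : ℝ} (hA : 0 ≤ A) (hT : 0 < T) (hTt : T ≤ t)
    (htW : t ≤ (W + 1) * T) (hW : 0 ≤ W) (q M : ℕ) (hE : E ≤ B / t ^ M) :
    A * t ^ q * E ≤ A * |B| * (W + 1) ^ ((q : ℤ) - (M : ℤ)).natAbs * T ^ ((q : ℤ) - (M : ℤ)) := by
  have htr : 0 < t := lt_of_lt_of_le hT hTt
  have h4 : t ^ ((q : ℤ) - (M : ℤ)) ≤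
      (W + 1) ^ ((q : ℤ) - (M : ℤ)).natAbs * T ^ ((q : ℤ) - (M : ℤ)) :=
    hz_zpow hT hTt htW (by linarith) _
  have h8 : B / t ^ M ≤ |B| / t ^ M :=
    div_le_div_of_nonneg_right (le_abs_self _) (by positivity)
  have h9 : t ^ q * (|B| / t ^ M) = |B| * t ^ ((q : ℤ) - (M : ℤ)) := by
    rw [zpow_sub₀ htr.ne', zpow_natCast, zpow_natCast]
    ring
  calc A * t ^ q * E ≤ A * t ^ q * (|B| / t ^ M) :=
        mul_le_mul_of_nonneg_left (hE.trans h8) (by positivity)
    _ = A * |B| * t ^ ((q : ℤ) - (M : ℤ)) := by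
        rw [mul_assoc, h9, mul_assoc]
    _ ≤ A * |B| * ((W + 1) ^ ((q : ℤ) - (M : ℤ)).natAbs * T ^ ((q : ℤ) - (M : ℤ))) :=
        mul_le_mul_of_nonneg_left h4 (by positivity)
    _ = _ := by ring

/-- evaluation of the truncation -/
private theorem hz_trunc {K : Type} [Field K] (v : K →+* ℂ) (M : ℕ) (F : PowerSeries K) (y : ℂ) :
    ((PowerSeries.trunc M F).map v).eval y =
      ∑ m ∈ Finset.range M, v (PowerSeries.coeff m F) * y ^ m := by
  have hdeg : ((PowerSeries.trunc M F).map v).natDegree < M ∨ M = 0 := by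
    rcases Nat.eq_zero_or_pos M with h | h
    · exact Or.inr h
    · left
      refine lt_of_le_of_lt natDegree_map_le ?_
      obtain ⟨m, rfl⟩ : ∃ m, M = m + 1 := ⟨M - 1, by omega⟩
      exact PowerSeries.natDegree_trunc_lt F m
  rcases hdeg with h | h
  · rw [eval_eq_sum_range' h]
    apply Finset.sum_congr rfl
    intro m hm
    rw [coeff_map, PowerSeries.coeff_trunc, if_pos (Finset.mem_range.1 hm)]
  · subst h
    have h1 : PowerSeries.trunc 0 F = 0 := by
      ext i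
      simp
    rw [h1]
    simp

/-- pigeonhole: many numbers of the same colour in similar positions -/
private theorem hz_pigeon {Col : Type} [Fintype Col] [DecidableEq Col] (col : ℕ → Col) (k t₁ : ℕ) :
    ∃ (c : Col) (s : Fin (k + 1) → ℕ) (W : ℕ) (𝒯 : Set ℕ), Function.Injective s ∧ 𝒯.Infinite ∧
      (∀ i, s i < W) ∧ ∀ T ∈ 𝒯, t₁ ≤ T ∧ ∀ i, col (T + s i) = c := by
  classical
  obtain ⟨W, hW⟩ : ∃ W, W = (k + 1) * Fintype.card Col := ⟨_, rfl⟩
  have hcol0 : 0 < Fintype.card Col := Fintype.card_pos_iff.2 ⟨col 0⟩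
  have h1 : ∀ T : ℕ, ∃ p : Col × (Fin (k + 1) → Fin W), Function.Injective p.2 ∧
      ∀ i, col (T + p.2 i) = p.1 := by
    intro T
    have hlt : Fintype.card Col * k < Fintype.card (Fin W) := by
      rw [Fintype.card_fin, hW]
      nlinarith
    obtain ⟨y, hy⟩ := Fintype.exists_lt_card_fiber_of_mul_lt_card
      (fun i : Fin W => col (T + i)) hlt
    obtain ⟨S, hS⟩ : ∃ S : Finset (Fin W),
        S = Finset.univ.filter (fun i : Fin W => col (T + i) = y) := ⟨_, rfl⟩
    have h2 : Fintype.card (Fin (k + 1)) ≤ Fintype.card S := by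
      rw [Fintype.card_fin, Fintype.card_coe, hS]
      exact hy
    obtain ⟨e⟩ := Function.Embedding.nonempty_of_card_le h2
    refine ⟨(y, fun i => (e i).1), ?_, ?_⟩
    · intro i j hij
      exact e.injective (Subtype.ext hij)
    · intro i
      have h4 : ∀ z ∈ S, col (T + z) = y := by
        intro z hz
        rw [hS, Finset.mem_filter] at hz
        exact hz.2
      exact h4 _ (e i).2
  choose p hp1 hp2 using h1
  obtain ⟨y, hy⟩ := Finite.exists_infinite_fiber (fun T : ℕ => p (T + t₁))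
  refine ⟨y.1, fun i => (y.2 i : ℕ), W,
    (fun T => T + t₁) '' ((fun T : ℕ => p (T + t₁)) ⁻¹' {y}), ?_, ?_, fun i => (y.2 i).2, ?_⟩
  · obtain ⟨T, hT⟩ := (Set.infinite_coe_iff.1 hy).nonempty
    have hT' : p (T + t₁) = y := hT
    intro i j hij
    have h3 := hp1 (T + t₁)
    rw [hT'] at h3
    exact h3 (Fin.ext hij)
  · exact (Set.infinite_coe_iff.1 hy).image (fun a _ b _ h => Nat.add_right_cancel h)
  · rintro _ ⟨T, hT, rfl⟩
    have hT' : p (T + t₁) = y := hT
    refine ⟨Nat.le_add_left _ _, fun i => ?_⟩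
    have h3 := hp2 (T + t₁) i
    rw [hT'] at h3
    exact h3

theorem hit_zero (K : Type) [Field K] [NumberField K] (f : K[X][X]) (hf : f.Monic)
    (hirr : Irreducible f) (n : ℕ) (hn : f.natDegree = n) (r : Fin n → K)
    (hr : Function.Injective r)
    (h0 : f.map (Polynomial.evalRingHom 0) = ∏ i, (X - C (r i))) (B : ℕ) :
    ∃ t : ℕ, B ≤ t ∧ 0 < t ∧ Irreducible (f.map (Polynomial.evalRingHom ((t : K)⁻¹))) := by
  classical
  by_contra hcon
  push Not at hcon
  have hn0 : 0 < n := by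
    rw [← hn]
    by_contra h
    have h1 : f = 1 := hf.natDegree_eq_zero.1 (by omega)
    rw [h1] at hirr
    exact not_irreducible_one hirr
  have hmon : ∀ t : ℕ, (f.map (Polynomial.evalRingHom ((t : K)⁻¹))).Monic := fun t => hf.map _
  have hdeg : ∀ t : ℕ, (f.map (Polynomial.evalRingHom ((t : K)⁻¹))).natDegree = n := fun t => by
    rw [hf.natDegree_map, hn]
  have hex : ∀ t : ℕ, B ≤ t ∧ 0 < t → ∃ u : K[X], u.Monic ∧
      u ∣ f.map (Polynomial.evalRingHom ((t : K)⁻¹)) ∧ 0 < u.natDegree ∧ u.natDegree < n := by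
    intro t ht
    have h1 := hcon t ht.1 ht.2
    rw [(hmon t).irreducible_iff_natDegree'] at h1
    push Not at h1
    have h2 : f.map (Polynomial.evalRingHom ((t : K)⁻¹)) ≠ 1 := by
      intro h
      have := hdeg t
      rw [h, natDegree_one] at this
      omega
    obtain ⟨g, u, hg, hu, hgu, hdu⟩ := h1 h2
    rw [hdeg t, Finset.mem_Ioc] at hdu
    refine ⟨u, hu, ⟨g, by rw [← hgu, mul_comm]⟩, hdu.1, ?_⟩
    omega
  choose! u hum hud hu0 hun using hex
  obtain ⟨θ, hθ, hθr⟩ := hensel_factor K f hf n hn r hr h0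
  have hinj : Function.Injective fun i => PowerSeries.constantCoeff (θ i) := by
    intro i l hil
    simp only [hθr] at hil
    exact hr hil
  obtain ⟨D, N, hD, hint⟩ := integ K f hf
  choose t₀ ρ ht₀ hfac hap using fun v : K →+* ℂ => approx_coeff K f hf n θ hθ hinj v
  obtain ⟨t₁, hBt₁, ht₁0, ht₁v⟩ : ∃ t₁ : ℕ, B ≤ t₁ ∧ 0 < t₁ ∧ ∀ v, t₀ v ≤ t₁ :=
    ⟨max (max B 1) (Finset.univ.sup t₀), by omega, by omega,
      fun v => le_trans (Finset.le_sup (Finset.mem_univ v)) (le_max_right _ _)⟩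
  have hcol : ∀ t : ℕ, t₁ ≤ t → ∃ c : (K →+* ℂ) → Finset (Fin n),
      ∀ v, (u t).map v = ∏ i ∈ c v, (X - C (ρ v t i)) := by
    intro t ht
    have h1 : ∀ v : K →+* ℂ, ∃ I : Finset (Fin n), (u t).map v = ∏ i ∈ I, (X - C (ρ v t i)) := by
      intro v
      obtain ⟨I, -, hI⟩ := hz_sub (ρ v t) Finset.univ _ ((hum t ⟨by omega, by omega⟩).map v) (by
        rw [← hfac v t (le_trans (ht₁v v) ht)]
        exact Polynomial.map_dvd v (hud t ⟨by omega, by omega⟩))
      exact ⟨I, hI⟩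
    choose c hc using h1
    exact ⟨c, hc⟩
  choose! col hcol using hcol
  obtain ⟨c, s, W, 𝒯, hs, h𝒯, hsW, hT⟩ := hz_pigeon col (N * n + 1) t₁
  have hcard : ∀ (v : K →+* ℂ), ∀ T ∈ 𝒯, ∀ i, (c v).card = (u (T + s i)).natDegree := by
    intro v T hTm i
    have h1 := hcol (T + s i) (by have := (hT T hTm).1; omega) v
    rw [(hT T hTm).2 i] at h1
    have h2 := congrArg natDegree h1
    rw [natDegree_finsetProd_X_sub_C_eq_card, natDegree_map] at h2
    exact h2.symm
  obtain ⟨T₀, hT₀⟩ := h𝒯.nonempty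
  obtain ⟨v₀⟩ : Nonempty (K →+* ℂ) := inferInstance
  obtain ⟨a, ha⟩ : ∃ a, a = (c v₀).card := ⟨_, rfl⟩
  have hcv : ∀ v, (c v).card = a := by
    intro v
    rw [ha, hcard v T₀ hT₀ 0, hcard v₀ T₀ hT₀ 0]
  have hua : ∀ T ∈ 𝒯, ∀ i, (u (T + s i)).natDegree = a := by
    intro T hTm i
    rw [ha, hcard v₀ T hTm i]
  have hrange : ∀ T ∈ 𝒯, ∀ i, B ≤ T + s i ∧ 0 < T + s i := by
    intro T hTm i
    have := (hT T hTm).1
    omega
  have ha0 : 0 < a := by
    rw [← hua T₀ hT₀ 0]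
    exact hu0 _ (hrange T₀ hT₀ 0)
  have han : a < n := by
    rw [← hua T₀ hT₀ 0]
    exact hun _ (hrange T₀ hT₀ 0)
  have hI : (c v₀).Nonempty := by
    rw [← Finset.card_pos, ← ha]
    exact ha0
  have hI' : c v₀ ≠ Finset.univ := by
    intro h
    rw [h, Finset.card_univ, Fintype.card_fin] at ha
    omega
  obtain ⟨j, hj, m₀, hm₀, he⟩ := nonpoly K f hf hirr n θ hθ (c v₀) hI hI' N
  rw [← ha] at hj hm₀
  have hqk : N * (a - j) < N * n + 1 := by
    have h1 : a - j ≤ n := by omega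
    have h2 := Nat.mul_le_mul_left N h1
    omega
  have hDc : (D : ℂ) ≠ 0 := by exact_mod_cast hD.ne'
  obtain ⟨x, hx⟩ : ∃ x : ℕ → K, ∀ t, x t = ((D : K) * (t : K) ^ N) ^ (a - j) * (u t).coeff j :=
    ⟨_, fun _ => rfl⟩
  obtain ⟨e, hee⟩ : ∃ e : (K →+* ℂ) → ℕ → ℂ, ∀ v m, e v m = (D : ℂ) ^ (a - j) *
      v (PowerSeries.coeff m ((∏ i ∈ c v, (X - C (θ i))).coeff j)) := ⟨_, fun _ _ => rfl⟩
  refine core K (N * n + 1) (N * (a - j)) hqk s hs 𝒯 h𝒯 x ?_ e v₀ m₀ hm₀ ?_ ?_
  · intro T hTm i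
    rw [hx]
    have hr' := hrange T hTm i
    have h1 := hint (T + s i) hr'.2 (u (T + s i)) (hum _ hr') (hud _ hr') j
      (by rw [hua T hTm i]; exact hj.le)
    rw [hua T hTm i] at h1
    exact h1
  · rw [hee]
    exact mul_ne_zero (pow_ne_zero _ hDc) ((map_ne_zero v₀).2 he)
  · intro v M
    obtain ⟨B', hB'⟩ := hap v M
    refine ⟨(D : ℝ) ^ (a - j) * |B'| *
      ((W : ℝ) + 1) ^ (((N * (a - j) : ℕ) : ℤ) - (M : ℤ)).natAbs, ?_⟩
    intro T hTm hT0 i
    have hr' := hrange T hTm i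
    obtain ⟨t, ht⟩ : ∃ t, t = T + s i := ⟨_, rfl⟩
    rw [← ht] at hr'
    have hut : (u t).map v = ∏ i ∈ c v, (X - C (ρ v t i)) := by
      have h1 := hcol t (by have := (hT T hTm).1; omega) v
      rw [ht, (hT T hTm).2 i] at h1
      rw [ht]
      exact h1
    have hcoeff : v ((u t).coeff j) = (∏ i ∈ c v, (X - C (ρ v t i))).coeff j := by
      rw [← hut, coeff_map]
    have hB2 := hB' t (by have := (hT T hTm).1; have := ht₁v v; omega) (c v) j
    rw [hz_trunc, ← hcoeff] at hB2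
    have htr : (0 : ℝ) < t := by exact_mod_cast hr'.2
    have htc : (t : ℂ) ≠ 0 := by exact_mod_cast hr'.2.ne'
    have hTr : (0 : ℝ) < T := by exact_mod_cast hT0
    obtain ⟨q, hq⟩ : ∃ q, q = N * (a - j) := ⟨_, rfl⟩
    have h3 : v (x t) - ∑ m ∈ Finset.range M, e v m *
            (t : ℂ) ^ (((N * (a - j) : ℕ) : ℤ) - (m : ℤ)) =
        ((D : ℂ) ^ (a - j) * (t : ℂ) ^ q) * (v ((u t).coeff j) -
          ∑ m ∈ Finset.range M, v (PowerSeries.coeff m ((∏ i ∈ c v, (X - C (θ i))).coeff j)) *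
            ((t : ℂ)⁻¹) ^ m) := by
      rw [mul_sub, Finset.mul_sum]
      congr 1
      · rw [hx, map_mul, map_pow, map_mul, map_pow, map_natCast, map_natCast, mul_pow, ← pow_mul,
          hq]
      · apply Finset.sum_congr rfl
        intro m _
        rw [hee, ← hq, zpow_sub₀ htc, zpow_natCast, zpow_natCast, inv_pow]
        field_simp
    rw [← ht, h3, norm_mul, norm_mul, norm_pow, norm_pow, Complex.norm_natCast, Complex.norm_natCast,
      ← hq]
    refine hz_end (pow_nonneg (Nat.cast_nonneg D) _) hTr ?_ ?_ (Nat.cast_nonneg W) q M hB2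
    · rw [ht]; push_cast
      have : (0 : ℝ) ≤ s i := Nat.cast_nonneg _
      linarith
    · rw [ht]; push_cast
      have h5 : (s i : ℝ) ≤ W := by exact_mod_cast (hsW i).le
      have h6 : (1 : ℝ) ≤ T := by exact_mod_cast hT0
      have h7 : (0 : ℝ) ≤ W := Nat.cast_nonneg _
      nlinarith

end H36.RT
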