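import Mathlib

/-!
# [H36 RT IRRCERT] a finite certificate of irreducibility (Nullstellensatz)

Proof. Let `n = natDegree f` and `D` a bound for the `natDegree` of all coefficients of `f`.
(1) Degrees. Let `F` be a field and `f' : F[X][X]` monic of degree `n` with coefficients of
`natDegree ≤ D`. If `f'` is not irreducible (and `n ≥ 1`), then `f' = g h`, `g, h` monic of degrees
`a, b ≥ 1`, `a + b = n`, and all coefficients of `g` and `h` have `natDegree ≤ D`: exchange the
variables (`Polynomial.Bivariate.swap`, or argue with the coefficient of the highest power of `x`: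
if `d_g` is the largest `x`-degree among the coefficients of `g`, `d_h` for `h`, then the part of
`x`-degree `d_g + d_h` of `g h` is the product of two nonzero polynomials in `Y`, so
`d_g + d_h ≤ D`).
(2) For `a + b = n`, `a, b ≥ 1`, let `σ = (Fin a × Fin (D+1)) ⊕ (Fin b × Fin (D+1))`. For a comm. ring
`A` and `v : σ → A` let `g_v = Y^a + ∑ v(i,j) x^j Y^i`, `h_v` similar, in `A[X][X]`; they are compatible
with ring homomorphisms. Over `A = MvPolynomial σ W` and `v = X` (the generic one) consider the
finitely many elements `E_(i,j) = coeff j (coeff i (g_v h_v - f))`, `i ≤ n`, `j ≤ 2D`. They have no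
common zero in `W^σ` (a zero gives a factorisation of the irreducible `f`), so by the Nullstellensatz
(`MvPolynomial.vanishingIdeal_zeroLocus_eq_radical`, `W` algebraically closed, `σ` finite) the ideal
they generate is `⊤`: `1 = ∑ P_(i,j) E_(i,j)`. Let `S` be the set of all coefficients of all
`P_(i,j)`, for all `a, b`.
(3) Let `S ⊆ R`, `f₀`, `φ : R →+* F` as in the statement. The `P_(i,j)` come from
`MvPolynomial σ R` (`MvPolynomial.mem_range_map_iff_coeffs_subset` or so) and the identity holds there
(`MvPolynomial.map` of an injective homomorphism is injective). If `f' = f₀.map _` were not irreducible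
over `F[X]`, (1) (the degrees of the coefficients of `f₀` are those of `f`) gives `v : σ → F` with
`g_v h_v = f'`; apply `MvPolynomial.eval₂Hom φ v` to the identity: `1 = 0` in `F`.
-/

open Polynomial

noncomputable section

namespace H36.RT

theorem coeff_swap {R : Type} [CommRing R] (p : R[X][X]) (i j : ℕ) :
    ((Bivariate.swap (R := R) p).coeff i).coeff j = (p.coeff j).coeff i := by
  induction p using Polynomial.induction_on' with
  | add p q hp hq => simp [map_add, hp, hq]
  | monomial n a =>
    induction a using Polynomial.induction_on' with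
    | add p q hp hq =>
      rw [map_add (monomial n), map_add]
      simp [hp, hq]
    | monomial m r =>
      rw [Bivariate.swap_monomial_monomial]
      simp only [coeff_monomial]
      split_ifs with h1 h2 h2 <;> simp_all [coeff_monomial]

theorem natDegree_swap_le {R : Type} [CommRing R] (p : R[X][X]) (D : ℕ) :
    (Bivariate.swap (R := R) p).natDegree ≤ D ↔ ∀ j, (p.coeff j).natDegree ≤ D := by
  simp only [natDegree_le_iff_coeff_eq_zero]
  constructor
  · intro h j N hN
    rw [← coeff_swap, h N hN, coeff_zero]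
  · intro h N hN
    ext j
    rw [coeff_swap, h j N hN, coeff_zero]

theorem deg_factor {F : Type} [Field F] (g h : F[X][X]) (hg : g ≠ 0) (hh : h ≠ 0) (D : ℕ)
    (H : ∀ j, ((g * h).coeff j).natDegree ≤ D) :
    (∀ j, (g.coeff j).natDegree ≤ D) ∧ (∀ j, (h.coeff j).natDegree ≤ D) := by
  rw [← natDegree_swap_le] at H
  have hg' : Bivariate.swap (R := F) g ≠ 0 := by
    intro h0
    exact hg ((map_eq_zero_iff _ (Bivariate.swap (R := F)).injective).1 h0)
  have hh' : Bivariate.swap (R := F) h ≠ 0 := by
    intro h0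
    exact hh ((map_eq_zero_iff _ (Bivariate.swap (R := F)).injective).1 h0)
  rw [map_mul, natDegree_mul hg' hh'] at H
  rw [← natDegree_swap_le, ← natDegree_swap_le]
  constructor <;> omega

/-- the generic monic polynomial with bounded degrees -/
def gpol (A : Type) [CommRing A] (a D : ℕ) (w : Fin a × Fin (D + 1) → A) : A[X][X] :=
  X ^ a + ∑ i : Fin a, C (∑ j : Fin (D + 1), C (w (i, j)) * X ^ (j : ℕ)) * X ^ (i : ℕ)

theorem gpol_map {A B : Type} [CommRing A] [CommRing B] (φ : A →+* B) (a D : ℕ)
    (w : Fin a × Fin (D + 1) → A) :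
    (gpol A a D w).map (mapRingHom φ) = gpol B a D (fun x => φ (w x)) := by
  simp [gpol, Polynomial.map_sum]

theorem gpol_deg {A : Type} [CommRing A] (a D : ℕ) (w : Fin a × Fin (D + 1) → A) :
    degree (∑ i : Fin a, C (∑ j : Fin (D + 1), C (w (i, j)) * X ^ (j : ℕ)) * X ^ (i : ℕ) :
      A[X][X]) < a :=
  degree_sum_fin_lt _

theorem gpol_monic {A : Type} [CommRing A] (a D : ℕ) (w : Fin a × Fin (D + 1) → A) :
    (gpol A a D w).Monic := monic_X_pow_add (gpol_deg a D w)

theorem gpol_natDegree {A : Type} [CommRing A] [Nontrivial A] (a D : ℕ)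
    (w : Fin a × Fin (D + 1) → A) : (gpol A a D w).natDegree = a := by
  apply natDegree_eq_of_degree_eq_some
  unfold gpol
  rw [degree_add_eq_left_of_degree_lt]
  · exact degree_X_pow a
  · rw [degree_X_pow]
    exact gpol_deg a D w

theorem gpol_repr {F : Type} [CommRing F] (g : F[X][X]) (hg : g.Monic) (a D : ℕ)
    (ha : g.natDegree = a) (hD : ∀ j, (g.coeff j).natDegree ≤ D) : ∃ w, g = gpol F a D w := by
  refine ⟨fun x => (g.coeff x.1).coeff x.2, ?_⟩
  conv_lhs => rw [hg.as_sum]
  unfold gpol
  rw [ha, Finset.sum_range]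
  congr 1
  refine Finset.sum_congr rfl fun i _ => ?_
  congr 2
  have h1 := (g.coeff i).as_sum_range' (D + 1) (Nat.lt_succ_of_le (hD i))
  conv_lhs => rw [h1]
  rw [Finset.sum_range]
  refine Finset.sum_congr rfl fun j _ => ?_
  rw [C_mul_X_pow_eq_monomial]

/-- the equations for a factorisation -/
def Ecoef (A : Type) [CommRing A] (a b D : ℕ) (f : A[X][X]) (w1 : Fin a × Fin (D + 1) → A)
    (w2 : Fin b × Fin (D + 1) → A) (x : ℕ × ℕ) : A :=
  ((gpol A a D w1 * gpol A b D w2 - f).coeff x.1).coeff x.2

theorem Ecoef_map {A B : Type} [CommRing A] [CommRing B] (φ : A →+* B) (a b D : ℕ) (f : A[X][X])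
    (w1 : Fin a × Fin (D + 1) → A) (w2 : Fin b × Fin (D + 1) → A) (x : ℕ × ℕ) :
    φ (Ecoef A a b D f w1 w2 x) =
      Ecoef B a b D (f.map (mapRingHom φ)) (fun x => φ (w1 x)) (fun x => φ (w2 x)) x := by
  unfold Ecoef
  rw [← gpol_map, ← gpol_map, ← Polynomial.map_mul, ← Polynomial.map_sub, coeff_map,
    coe_mapRingHom, coeff_map]

theorem Ecoef_zero {A : Type} [CommRing A] (a b D : ℕ) (f : A[X][X])
    (w1 : Fin a × Fin (D + 1) → A) (w2 : Fin b × Fin (D + 1) → A)
    (h : ∀ x, Ecoef A a b D f w1 w2 x = 0) : gpol A a D w1 * gpol A b D w2 = f := by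
  rw [← sub_eq_zero]
  ext i j
  exact h (i, j)

theorem cert_ab (W : Type) [Field W] [IsAlgClosed W] (f : W[X][X]) (a b D : ℕ)
    (hno : ∀ w1 w2, gpol W a D w1 * gpol W b D w2 ≠ f) :
    ∃ S : Finset W, ∀ R : Subring W, (∀ s ∈ S, s ∈ R) → ∀ f₀ : Polynomial (Polynomial R),
      f₀.map (Polynomial.mapRingHom R.subtype) = f → ∀ (F : Type) [Field F] (φ : R →+* F),
        ∀ w1 w2, gpol F a D w1 * gpol F b D w2 ≠ f₀.map (Polynomial.mapRingHom φ) := by
  classical
  let σ : Type := (Fin a × Fin (D + 1)) ⊕ (Fin b × Fin (D + 1))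
  let EW : ℕ × ℕ → MvPolynomial σ W := Ecoef (MvPolynomial σ W) a b D
    (f.map (mapRingHom MvPolynomial.C)) (fun y => MvPolynomial.X (Sum.inl y))
    (fun y => MvPolynomial.X (Sum.inr y))
  have htop : Ideal.span (Set.range EW) = ⊤ := by
    have h1 : MvPolynomial.zeroLocus W (Ideal.span (Set.range EW)) = ∅ := by
      rw [Set.eq_empty_iff_forall_notMem]
      intro v hv
      rw [MvPolynomial.zeroLocus_span] at hv
      refine hno (fun y => v (Sum.inl y)) (fun y => v (Sum.inr y)) (Ecoef_zero _ _ _ _ _ _ ?_)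
      intro x
      have h2 := hv (EW x) ⟨x, rfl⟩
      have h3 := Ecoef_map (MvPolynomial.aeval (R := W) v : MvPolynomial σ W →+* W) a b D
        (f.map (mapRingHom MvPolynomial.C)) (fun y => MvPolynomial.X (Sum.inl y))
        (fun y => MvPolynomial.X (Sum.inr y)) x
      have h4 : (f.map (mapRingHom MvPolynomial.C)).map
          (mapRingHom (MvPolynomial.aeval (R := W) v : MvPolynomial σ W →+* W)) = f := by
        rw [Polynomial.map_map]
        have : (mapRingHom (MvPolynomial.aeval (R := W) v : MvPolynomial σ W →+* W)).comp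
            (mapRingHom MvPolynomial.C) = RingHom.id _ := by
          ext <;> simp
        rw [this, Polynomial.map_id]
      rw [h4] at h3
      simp only [RingHom.coe_coe, MvPolynomial.aeval_X] at h3
      rw [← h3]
      exact h2
    have h2 := MvPolynomial.vanishingIdeal_zeroLocus_eq_radical (k := W) (K := W)
      (Ideal.span (Set.range EW))
    rw [h1, MvPolynomial.vanishingIdeal_empty] at h2
    exact Ideal.radical_eq_top.1 h2.symm
  have h1 : (1 : MvPolynomial σ W) ∈ Ideal.span (Set.range EW) := by rw [htop]; trivial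
  obtain ⟨c, hc⟩ := Finsupp.mem_ideal_span_range_iff_exists_finsupp.1 h1
  refine ⟨c.support.biUnion fun x => (c x).coeffs, ?_⟩
  intro R hR f₀ hf₀ F _ φ w1 w2 hfac
  have hlift : ∀ x, ∃ p : MvPolynomial σ R, MvPolynomial.map R.subtype p = c x := by
    intro x
    by_cases hx : x ∈ c.support
    · have h2 : c x ∈ Set.range (MvPolynomial.map R.subtype :
          MvPolynomial σ R →+* MvPolynomial σ W) := by
        rw [MvPolynomial.mem_range_map_iff_coeffs_subset]
        intro s hs
        exact ⟨⟨s, hR s (Finset.mem_biUnion.2 ⟨x, hx, hs⟩)⟩, rfl⟩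
      exact h2
    · exact ⟨0, by rw [map_zero, Finsupp.notMem_support_iff.1 hx]⟩
  choose c0 hc0 using hlift
  let ER : ℕ × ℕ → MvPolynomial σ R := Ecoef (MvPolynomial σ R) a b D
    (f₀.map (mapRingHom MvPolynomial.C)) (fun y => MvPolynomial.X (Sum.inl y))
    (fun y => MvPolynomial.X (Sum.inr y))
  have hER : ∀ x, MvPolynomial.map R.subtype (ER x) = EW x := by
    intro x
    have h3 := Ecoef_map (MvPolynomial.map R.subtype : MvPolynomial σ R →+* MvPolynomial σ W) a b D
      (f₀.map (mapRingHom MvPolynomial.C)) (fun y => MvPolynomial.X (Sum.inl y))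
      (fun y => MvPolynomial.X (Sum.inr y)) x
    have h4 : (f₀.map (mapRingHom MvPolynomial.C)).map
        (mapRingHom (MvPolynomial.map R.subtype : MvPolynomial σ R →+* MvPolynomial σ W)) =
        f.map (mapRingHom MvPolynomial.C) := by
      rw [← hf₀, Polynomial.map_map, Polynomial.map_map]
      congr 1
      ext <;> simp
    rw [h4] at h3
    simp only [MvPolynomial.map_X] at h3
    exact h3
  have hid : ∑ x ∈ c.support, c0 x * ER x = 1 := by
    apply MvPolynomial.map_injective R.subtype R.subtype_injective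
    rw [map_sum, map_one, ← hc]
    unfold Finsupp.sum
    refine Finset.sum_congr rfl fun x _ => ?_
    rw [map_mul, hc0, hER]
  let ev : MvPolynomial σ R →+* F := MvPolynomial.eval₂Hom φ (Sum.elim w1 w2)
  have hev : ∀ x, ev (ER x) = 0 := by
    intro x
    have h3 := Ecoef_map ev a b D
      (f₀.map (mapRingHom MvPolynomial.C)) (fun y => MvPolynomial.X (Sum.inl y))
      (fun y => MvPolynomial.X (Sum.inr y)) x
    have h4 : (f₀.map (mapRingHom MvPolynomial.C)).map (mapRingHom ev) =
        f₀.map (mapRingHom φ) := by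
      rw [Polynomial.map_map]
      congr 1
      ext <;> simp [ev]
    rw [h4] at h3
    have h5 : ev (ER x) = Ecoef F a b D (f₀.map (mapRingHom φ)) w1 w2 x := by
      refine h3.trans ?_
      congr 1 <;> funext y <;> simp [ev]
    rw [h5]
    unfold Ecoef
    rw [hfac, sub_self, coeff_zero, coeff_zero]
  have h6 := congrArg ev hid
  rw [map_sum, map_one] at h6
  refine zero_ne_one (α := F) ?_
  rw [← h6]
  symm
  refine Finset.sum_eq_zero fun x _ => ?_
  rw [map_mul, hev, mul_zero]

theorem irr_cert (W : Type) [Field W] [IsAlgClosed W] (f : W[X][X]) (hf : f.Monic)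
    (hirr : Irreducible f) :
    ∃ S : Finset W, ∀ R : Subring W, (∀ s ∈ S, s ∈ R) → ∀ f₀ : Polynomial (Polynomial R), f₀.Monic →
      f₀.map (Polynomial.mapRingHom R.subtype) = f → ∀ (F : Type) [Field F] (φ : R →+* F),
        Irreducible (f₀.map (Polynomial.mapRingHom φ)) := by
  classical
  set D : ℕ := (Finset.range (f.natDegree + 1)).sup fun j => (f.coeff j).natDegree with hD
  have hDle : ∀ j, (f.coeff j).natDegree ≤ D := by
    intro j
    by_cases hj : j ≤ f.natDegree
    · exact Finset.le_sup (f := fun j => (f.coeff j).natDegree)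
        (Finset.mem_range.2 (Nat.lt_succ_of_le hj))
    · rw [coeff_eq_zero_of_natDegree_lt (not_le.1 hj), natDegree_zero]
      exact Nat.zero_le _
  have hcert : ∀ x : ℕ × ℕ, ∃ S : Finset W, x.1 ≠ 0 → x.2 ≠ 0 → ∀ R : Subring W, (∀ s ∈ S, s ∈ R) →
      ∀ f₀ : Polynomial (Polynomial R),
      f₀.map (Polynomial.mapRingHom R.subtype) = f → ∀ (F : Type) [Field F] (φ : R →+* F),
        ∀ w1 w2, gpol F x.1 D w1 * gpol F x.2 D w2 ≠ f₀.map (Polynomial.mapRingHom φ) := by
    intro x
    by_cases h1 : x.1 = 0
    · exact ⟨∅, fun h => absurd h1 h⟩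
    by_cases h2 : x.2 = 0
    · exact ⟨∅, fun _ h => absurd h2 h⟩
    obtain ⟨S, hS⟩ := cert_ab W f x.1 x.2 D (by
      intro w1 w2 hfac
      have h3 := (hf.irreducible_iff_natDegree.1 hirr).2 _ _ (gpol_monic x.1 D w1)
        (gpol_monic x.2 D w2) hfac
      rw [gpol_natDegree, gpol_natDegree] at h3
      omega)
    exact ⟨S, fun _ _ => hS⟩
  choose S hS using hcert
  refine ⟨(Finset.HasAntidiagonal.antidiagonal f.natDegree).biUnion S, ?_⟩
  intro R hR f₀ hf₀ hfm F _ φ
  have hm : (f₀.map (Polynomial.mapRingHom φ)).Monic := hf₀.map _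
  have hdeg : (f₀.map (Polynomial.mapRingHom φ)).natDegree = f.natDegree := by
    rw [hf₀.natDegree_map, ← hfm, hf₀.natDegree_map]
  have hn : f.natDegree ≠ 0 := by
    intro h
    rw [hf.natDegree_eq_zero] at h
    rw [h] at hirr
    exact not_irreducible_one hirr
  rw [hm.irreducible_iff_natDegree]
  refine ⟨?_, ?_⟩
  · intro h
    rw [h, natDegree_one] at hdeg
    exact hn hdeg.symm
  · intro g h hg hh hgh
    by_contra hcon
    push Not at hcon
    have hdc : ∀ j, ((g * h).coeff j).natDegree ≤ D := by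
      intro j
      rw [hgh, coeff_map, coe_mapRingHom]
      refine natDegree_map_le.trans ?_
      have h1 := hDle j
      rw [← hfm, coeff_map, coe_mapRingHom,
        natDegree_map_eq_of_injective R.subtype_injective] at h1
      exact h1
    obtain ⟨h1, h2⟩ := deg_factor g h hg.ne_zero hh.ne_zero D hdc
    obtain ⟨w1, hw1⟩ := gpol_repr g hg g.natDegree D rfl h1
    obtain ⟨w2, hw2⟩ := gpol_repr h hh h.natDegree D rfl h2
    have hsum : g.natDegree + h.natDegree = f.natDegree := by
      rw [← hdeg, ← hgh, hg.natDegree_mul hh]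
    refine hS (g.natDegree, h.natDegree) hcon.1 hcon.2 R (fun s hs => hR s ?_) f₀ hfm F φ w1 w2 ?_
    · exact Finset.mem_biUnion.2 ⟨_, Finset.HasAntidiagonal.mem_antidiagonal.2 hsum, hs⟩
    · rw [← hw1, ← hw2, hgh]

end H36.RT
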