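import Pool.Agent.H36.RT.Defs

/-!
# Induced modules

Definitions for the patching of Galois extensions (Haran, Völklein). `NN G1 Q1 α` is the set of the
functions `φ : G → Q` with values in `Q1` and `φ (θ τ) = τ⁻¹ (φ θ)` for `τ ∈ G1`.
-/

namespace H36.RT

/-- The functions `φ : G → Q` with values in `Q1` and `φ (θ τ) = τ⁻¹ (φ θ)` for `τ ∈ G1`. -/
def NN {Q G : Type} [Field Q] [Group G] (G1 : Subgroup G) (Q1 : Subfield Q)
    (α : G1 →* (Q1 ≃+* Q1)) : Set (G → Q) :=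
  {φ | ∃ h : ∀ θ, φ θ ∈ Q1, ∀ (θ : G) (τ : G1), φ (θ * τ) = (α τ⁻¹ ⟨φ θ, h θ⟩ : Q1)}

end H36.RT
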