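import Pool.Agent.H36.RT.Frac

/-!
# [H36 RT OUT2] expansion at `x = 0`

Proof. The exchange map `χ₀ : k[x]⟦t⟧ = PowerSeries k[X] →+* PowerSeries (PowerSeries k)`,
`χ₀ f = mk (fun i => mk (fun j => (coeff j f).coeff i))` is an injective ring homomorphism
(multiplicativity: both coefficients are finite double sums over antidiagonals, exchange them;
`Polynomial.coeff_mul`, `PowerSeries.coeff_mul`, `Finset.sum_comm`). Compose with
`PowerSeries.map (algebraMap (PowerSeries k) K)` (injective) and the map to
`FractionRing (PowerSeries K)`. `P1 k = fr (range i1)` is a fraction field of `PowerSeries k[X]`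
through `i1` (`i1_injective`, `mem_fr`); extend the injective homomorphism
`PowerSeries k[X] →+* FractionRing (PowerSeries K)` to `P1 k` (`IsFractionRing.lift`, with
`IsFractionRing (PowerSeries k[X]) (P1 k)` for the algebra structure given by `i1`).
For `a ∈ k⟦t⟧[x]`: `i0 k a = i1 k (mk (fun j => ∑ i, C (coeff j (a.coeff i)) * X^i))`
(compare on monomials, `Polynomial.induction_on'`), and `χ₀` of this series is
`mk (fun i => a.coeff i)`, the power series of the polynomial `a`.
-/

open Polynomial

noncomputable section

namespace H36.RT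

/-- the exchange map `k[x]⟦t⟧ → k⟦t⟧⟦x⟧` -/
def out2Ex (k : Type) [Field k] : PowerSeries k[X] →+* PowerSeries (PowerSeries k) where
  toFun f := PowerSeries.mk fun i => PowerSeries.mk fun j => (PowerSeries.coeff j f).coeff i
  map_one' := by
    ext i j
    simp only [PowerSeries.coeff_mk, PowerSeries.coeff_one]
    by_cases hj : j = 0
    · by_cases hi : i = 0
      · simp [hi, hj]
      · simp [hi, hj, Polynomial.coeff_one]
    · by_cases hi : i = 0
      · simp [hi, hj, PowerSeries.coeff_one]
      · simp [hi, hj]
  map_zero' := by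
    ext i j
    simp
  map_add' f g := by
    ext i j
    simp
  map_mul' f g := by
    ext i j
    simp only [PowerSeries.coeff_mk, PowerSeries.coeff_mul, Polynomial.finsetSum_coeff,
      Polynomial.coeff_mul, map_sum]
    rw [Finset.sum_comm]

theorem out2Ex_coeff (k : Type) [Field k] (f : PowerSeries k[X]) (i j : ℕ) :
    PowerSeries.coeff j (PowerSeries.coeff i (out2Ex k f)) = (PowerSeries.coeff j f).coeff i := by
  change PowerSeries.coeff j (PowerSeries.coeff i
    (PowerSeries.mk fun i => PowerSeries.mk fun j => (PowerSeries.coeff j f).coeff i)) = _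
  rw [PowerSeries.coeff_mk, PowerSeries.coeff_mk]

theorem out2Ex_injective (k : Type) [Field k] : Function.Injective (out2Ex k) := by
  intro f g hfg
  ext j i
  rw [← out2Ex_coeff, ← out2Ex_coeff, hfg]

/-- the inclusion `k[x]⟦t⟧ → P1 k` -/
def out2I (k : Type) [Field k] : PowerSeries k[X] →+* P1 k :=
  ((algebraMap (RR k) (QQ k)).comp (i1 k)).codRestrict (P1 k)
    (fun a => Subfield.subset_closure ⟨i1 k a, ⟨a, rfl⟩, rfl⟩)

theorem out2I_coe (k : Type) [Field k] (a : PowerSeries k[X]) :
    ((out2I k a : P1 k) : QQ k) = algebraMap (RR k) (QQ k) (i1 k a) := rfl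

theorem out2I_injective (k : Type) [Field k] : Function.Injective (out2I k) := by
  intro a b hab
  have h := congrArg (fun x : P1 k => (x : QQ k)) hab
  simp only [out2I_coe] at h
  exact i1_injective k (IsFractionRing.injective (RR k) (QQ k) h)

theorem expand (k : Type) [Field k] :
    ∃ χ : P1 k →+* FractionRing (PowerSeries (FractionRing (PowerSeries k))),
      ∀ (a : (PowerSeries k)[X]) (h : algebraMap (RR k) (QQ k) (i0 k a) ∈ P1 k),
        χ ⟨_, h⟩ = algebraMap (PowerSeries (FractionRing (PowerSeries k))) _
          ((a.map (algebraMap (PowerSeries k) (FractionRing (PowerSeries k))) :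
            (FractionRing (PowerSeries k))[X]) : PowerSeries (FractionRing (PowerSeries k))) := by
  let χ₁ : PowerSeries k[X] →+* FractionRing (PowerSeries (FractionRing (PowerSeries k))) :=
    (algebraMap (PowerSeries (FractionRing (PowerSeries k)))
      (FractionRing (PowerSeries (FractionRing (PowerSeries k))))).comp
      ((PowerSeries.map (algebraMap (PowerSeries k) (FractionRing (PowerSeries k)))).comp
        (out2Ex k))
  have hχ₁ : Function.Injective χ₁ := by
    refine (IsFractionRing.injective (PowerSeries (FractionRing (PowerSeries k)))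
      (FractionRing (PowerSeries (FractionRing (PowerSeries k))))).comp ?_
    exact (PowerSeries.map_injective _
      (IsFractionRing.injective (PowerSeries k) (FractionRing (PowerSeries k)))).comp
      (out2Ex_injective k)
  let Ψ : FractionRing (PowerSeries k[X]) →+* P1 k := IsFractionRing.lift (out2I_injective k)
  have hΨ : ∀ a, Ψ (algebraMap (PowerSeries k[X]) (FractionRing (PowerSeries k[X])) a) =
      out2I k a := fun a => IsFractionRing.lift_algebraMap (out2I_injective k) a
  have hbij : Function.Bijective Ψ := by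
    refine ⟨Ψ.injective, ?_⟩
    rintro ⟨x, hx⟩
    have hx' : x ∈ fr (S1 k) := hx
    rw [mem_fr] at hx'
    obtain ⟨_, ⟨a, rfl⟩, _, ⟨b, rfl⟩, _, hab⟩ := hx'
    refine ⟨algebraMap _ _ a / algebraMap _ _ b, ?_⟩
    rw [map_div₀, hΨ, hΨ]
    apply Subtype.ext
    exact hab.symm
  let Ψe : FractionRing (PowerSeries k[X]) ≃+* P1 k := RingEquiv.ofBijective Ψ hbij
  refine ⟨(IsFractionRing.lift hχ₁).comp Ψe.symm.toRingHom, ?_⟩
  intro a h
  have h1 : (⟨algebraMap (RR k) (QQ k) (i0 k a), h⟩ : P1 k) =
      Ψe (algebraMap (PowerSeries k[X]) (FractionRing (PowerSeries k[X])) (i01 k a)) := by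
    change _ = Ψ _
    rw [hΨ]
    apply Subtype.ext
    rw [out2I_coe, ← i0_apply]
  rw [RingHom.comp_apply, h1]
  have h2 : Ψe.symm.toRingHom (Ψe (algebraMap (PowerSeries k[X])
      (FractionRing (PowerSeries k[X])) (i01 k a))) =
      algebraMap (PowerSeries k[X]) (FractionRing (PowerSeries k[X])) (i01 k a) :=
    Ψe.symm_apply_apply _
  rw [h2, IsFractionRing.lift_algebraMap]
  have h3 : χ₁ (i01 k a) = algebraMap (PowerSeries (FractionRing (PowerSeries k)))
      (FractionRing (PowerSeries (FractionRing (PowerSeries k))))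
      (PowerSeries.map (algebraMap (PowerSeries k) (FractionRing (PowerSeries k)))
        (out2Ex k (i01 k a))) := rfl
  rw [h3]
  congr 1
  ext i
  change PowerSeries.coeff i (PowerSeries.map (algebraMap (PowerSeries k)
    (FractionRing (PowerSeries k))) (out2Ex k (i01 k a))) = _
  rw [PowerSeries.coeff_map, Polynomial.coeff_coe, Polynomial.coeff_map]
  congr 1
  ext j
  rw [out2Ex_coeff, i01_coeff]

end H36.RT
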