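import Pool.Agent.H36.RT.AllReal
import Pool.Agent.H36.RT.Out2

/-!
# [H36 RT PARTA] every finite group over `K(x)`, regular, with a rational point

Proof. `all_real k _ G rfl` for `k = AlgebraicClosure ℚ` gives `L ≤ P1 k`, Galois over `EE k` with group `G`.
`K := FractionRing (PowerSeries k)`, `e : RatFunc K ≃+* EE k` from `ratfunc_equiv`. The type `L` is an
algebra over `RatFunc K` through `(algebraMap (EE k) L).comp e` (`RingHom.toAlgebra`, use
`letI`); finite, Galois, and with the same automorphism group (an automorphism of `L` fixes the image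
of `RatFunc K` iff it fixes `EE k`, the images are equal; `IsGalois.of_equiv_equiv`,
`Module.Finite.of_equiv_equiv`). `χ := expand`-map restricted to `L ≤ P1 k`
(`Subfield.inclusion`). For `p ∈ K[X]` there are `a ∈ k⟦t⟧[x]` and `0 ≠ c ∈ k⟦t⟧` with
`C c * p = a.map _` (`IsLocalization.integerNormalization` or a common denominator of the
coefficients), which gives the formula for `p` from the formulas for `a` and `C c`.
-/

open Polynomial

noncomputable section

namespace H36.RT

theorem partA (G : Type) [Group G] [Finite G] :
    ∃ (K : Type) (_ : Field K) (_ : CharZero K) (L : Type) (_ : Field L)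
      (_ : Algebra (RatFunc K) L) (_ : FiniteDimensional (RatFunc K) L)
      (_ : IsGalois (RatFunc K) L) (χ : L →+* FractionRing (PowerSeries K)),
      Nonempty (Gal(L/RatFunc K) ≃* G) ∧
      ∀ p : K[X], χ (algebraMap (RatFunc K) L (algebraMap K[X] (RatFunc K) p)) =
        algebraMap (PowerSeries K) (FractionRing (PowerSeries K)) (p : PowerSeries K) := by
  classical
  let k : Type := AlgebraicClosure ℚ
  obtain ⟨L, hLP, hfin, hgal, ⟨e0⟩⟩ := all_real k _ G rfl
  obtain ⟨χ₀, hχ₀⟩ := expand k
  obtain ⟨e, he⟩ := ratfunc_equiv k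
  let K : Type := FractionRing (PowerSeries k)
  let alg : PowerSeries k →+* K := algebraMap (PowerSeries k) K
  haveI hK0 : CharZero K :=
    charZero_of_injective_ringHom (f := alg.comp (PowerSeries.C : k →+* PowerSeries k))
      (RingHom.injective _)
  letI algL : Algebra (RatFunc K) L := ((algebraMap (EE k) L).comp e.toRingHom).toAlgebra
  have hal : ∀ y : RatFunc K, algebraMap (RatFunc K) L y = algebraMap (EE k) L (e y) :=
    fun _ => rfl
  have hcomp : (algebraMap (RatFunc K) L).comp (e.symm : EE k →+* RatFunc K) =
      ((RingEquiv.refl L : L ≃+* L) : L →+* L).comp (algebraMap (EE k) L) := by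
    ext x
    simp only [RingHom.comp_apply, RingHom.coe_coe, hal]
    rw [RingEquiv.apply_symm_apply]
    rfl
  haveI hfin' : FiniteDimensional (RatFunc K) L := Module.Finite.of_equiv_equiv e.symm
    (RingEquiv.refl L) hcomp
  haveI hgal' : IsGalois (RatFunc K) L := IsGalois.of_equiv_equiv (f := e.symm)
    (g := RingEquiv.refl L) hcomp
  let inc : L →+* P1 k :=
    { toFun := fun x => ⟨x.1, hLP x.2⟩
      map_one' := rfl
      map_mul' := fun _ _ => rfl
      map_zero' := rfl
      map_add' := fun _ _ => rfl }
  let ge : Gal(L/RatFunc K) ≃* Gal(L/EE k) :=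
    { toFun := fun σ => AlgEquiv.ofRingEquiv (f := σ.toRingEquiv) (fun x => by
        have h1 : algebraMap (EE k) L x = algebraMap (RatFunc K) L (e.symm x) := by
          rw [hal, RingEquiv.apply_symm_apply]
        rw [h1]
        exact σ.commutes _)
      invFun := fun σ => AlgEquiv.ofRingEquiv (f := σ.toRingEquiv) (fun x => σ.commutes _)
      left_inv := fun σ => by
        ext x
        rfl
      right_inv := fun σ => by
        ext x
        rfl
      map_mul' := fun σ τ => by
        ext x
        rfl }
  refine ⟨K, inferInstance, hK0, L, inferInstance, algL, hfin', hgal', χ₀.comp inc,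
    ⟨ge.trans e0⟩, ?_⟩
  let F : Type := FractionRing (PowerSeries K)
  let φ₁ : K[X] →+* F := ((χ₀.comp inc).comp (algebraMap (RatFunc K) L)).comp
    (algebraMap K[X] (RatFunc K))
  let φ₂ : K[X] →+* F := (algebraMap (PowerSeries K) F).comp Polynomial.coeToPowerSeries.ringHom
  have hagree : ∀ a : (PowerSeries k)[X], φ₁ (a.map alg) = φ₂ (a.map alg) := by
    intro a
    have h1 : ((algebraMap (RatFunc K) L (algebraMap K[X] (RatFunc K) (a.map alg)) : L) : QQ k) =
        algebraMap (RR k) (QQ k) (i0 k a) := by
      rw [hal]
      have h2 := he a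
      have h3 : e (algebraMap K[X] (RatFunc K) (a.map alg)) = j0 k a := h2
      rw [h3]
      exact j0_coe k a
    have hmem : algebraMap (RR k) (QQ k) (i0 k a) ∈ P1 k := by
      rw [← h1]
      exact hLP (Subtype.mem _)
    have h2 : inc (algebraMap (RatFunc K) L (algebraMap K[X] (RatFunc K) (a.map alg))) =
        ⟨algebraMap (RR k) (QQ k) (i0 k a), hmem⟩ := Subtype.ext h1
    have h3 : φ₁ (a.map alg) = χ₀ (inc (algebraMap (RatFunc K) L
      (algebraMap K[X] (RatFunc K) (a.map alg)))) := rfl
    rw [h3, h2, hχ₀]
    rfl
  have hφ : φ₁ = φ₂ := by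
    refine Polynomial.ringHom_ext' ?_ ?_
    · refine IsLocalization.ringHom_ext (nonZeroDivisors (PowerSeries k)) ?_
      ext c
      have := hagree (Polynomial.C c)
      rw [Polynomial.map_C] at this
      exact this
    · have := hagree Polynomial.X
      rwa [Polynomial.map_X] at this
  intro p
  have := RingHom.congr_fun hφ p
  exact this

end H36.RT
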