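import Mathlib

/-!
# [H36 RT POINT] a finitely generated `ℚ`-algebra has a point over a number field

Proof. `R` is a nontrivial `ℚ`-algebra of finite type; it has a maximal ideal `m`, and `R/m` is a
field of finite type over `ℚ`, so finite over `ℚ` (Zariski's lemma:
`finite_of_finite_type_of_isJacobsonRing` or `Algebra.FiniteType` + `IsJacobsonRing`), so it embeds in
`AlgebraicClosure ℚ` (`IsAlgClosed.lift`). The range of the resulting `R →ₐ[ℚ] AlgebraicClosure ℚ`
is a field, finite over `ℚ`; take it as `K₁` (`AlgHom.fieldRange` of `R/m →ₐ[ℚ] AlgebraicClosure ℚ`).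
-/

namespace H36.RT

theorem point (R : Type) [CommRing R] [Nontrivial R] [Algebra ℚ R] [Algebra.FiniteType ℚ R] :
    ∃ K₁ : IntermediateField ℚ (AlgebraicClosure ℚ), FiniteDimensional ℚ K₁ ∧
      Nonempty (R →ₐ[ℚ] K₁) := by
  obtain ⟨m, hm⟩ := Ideal.exists_maximal R
  let : Field (R ⧸ m) := Ideal.Quotient.field m
  have h1 : Algebra.FiniteType ℚ (R ⧸ m) :=
    Algebra.FiniteType.of_surjective (Ideal.Quotient.mkₐ ℚ m) (Ideal.Quotient.mkₐ_surjective ℚ m)
  have h2 : Module.Finite ℚ (R ⧸ m) := finite_of_finite_type_of_isJacobsonRing ℚ (R ⧸ m)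
  have h3 : Algebra.IsAlgebraic ℚ (R ⧸ m) := Algebra.IsAlgebraic.of_finite ℚ (R ⧸ m)
  let f : (R ⧸ m) →ₐ[ℚ] AlgebraicClosure ℚ := IsAlgClosed.lift
  refine ⟨f.fieldRange, ?_, ⟨?_⟩⟩
  · exact LinearMap.finiteDimensional_range f.toLinearMap
  · exact f.rangeRestrict.comp (Ideal.Quotient.mkₐ ℚ m)

end H36.RT
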