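import Pool.Agent.H36.RT.IrrCert
import Pool.Agent.H36.RT.DescR
import Pool.Agent.H36.RT.Point

/-!
# [H36 RT SPREAD] from `W(x)` to a number field

Proof. `irr_cert` gives `S`; `descend_R` with this `S` gives `R`, `δ`, `f1`, `C'` over
`Localization.Away δ`. `R` is a finitely generated `ℚ`-algebra (`Subalgebra.fg_iff_finiteType`), a
domain, so `point` gives `s : R →ₐ[ℚ] K₁`. Put `δ₁ = δ.map s` (monic, so nonzero) and
`f₁ = f1.map (mapRingHom s)`. Irreducibility over `AlgebraicClosure ℚ`: `irr_cert` applied to the
subring underlying `R` and `φ : R →+* AlgebraicClosure ℚ`, `s` followed by the inclusion.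
For `F`, `c` with `aeval c δ₁ ≠ 0`: the homomorphism `R[X] →+* F`, `s` on the coefficients and
`X ↦ c`, sends `δ` to the unit `aeval c δ₁`, so it extends to `Localization.Away δ →+* F`
(`IsLocalization.Away.lift`); take `C'.map` of it.
-/

open Polynomial

noncomputable section

namespace H36.RT

/-- The data over a number field which part B produces. -/
structure NFData (G : Type) [Group G] where
  K₁ : IntermediateField ℚ (AlgebraicClosure ℚ)
  fin : FiniteDimensional ℚ K₁
  δ : Polynomial K₁
  f : Polynomial (Polynomial K₁)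
  δ_ne : δ ≠ 0
  monic : f.Monic
  deg : f.natDegree = Nat.card G
  irr : Irreducible (f.map (Polynomial.mapRingHom (algebraMap K₁ (AlgebraicClosure ℚ))))
  cert : ∀ (F : Type) [Field F] [Algebra K₁ F] (c : F), Polynomial.aeval c δ ≠ 0 →
    ∃ C : Cert G F, C.f = f.map (Polynomial.aeval c : Polynomial K₁ →ₐ[K₁] F).toRingHom

theorem spread (G : Type) [Group G] [Finite G] (W : Type) [Field W] [CharZero W] [IsAlgClosed W]
    (C : Cert G (RatFunc W)) (f0 : Polynomial (Polynomial W)) (hm : f0.Monic)
    (hf : f0.map (algebraMap (Polynomial W) (RatFunc W)) = C.f) (hirr : Irreducible f0) :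
    Nonempty (NFData G) := by
  obtain ⟨S, hS⟩ := irr_cert W f0 hm hirr
  obtain ⟨R, hRfg, hSR, δ, f1, hδ, hf1, hf1f0, C', hC'⟩ := descend_R G W C f0 hm hf S
  have : Algebra.FiniteType ℚ R := (Subalgebra.fg_iff_finiteType R).1 hRfg
  obtain ⟨K₁, hK₁, ⟨s⟩⟩ := point R
  have := hK₁
  have hdeg : f1.natDegree = Nat.card G := by
    have h1 := C'.deg
    have hnt : Nontrivial (Localization.Away δ) :=
      (IsLocalization.injective (Localization.Away δ)
        (powers_le_nonZeroDivisors_of_noZeroDivisors hδ.ne_zero)).nontrivial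
    rw [hC', hf1.natDegree_map] at h1
    exact h1
  refine ⟨{
    K₁ := K₁
    fin := hK₁
    δ := δ.map (s : R →+* K₁)
    f := f1.map (Polynomial.mapRingHom (s : R →+* K₁))
    δ_ne := (hδ.map _).ne_zero
    monic := hf1.map _
    deg := by rw [hf1.natDegree_map, hdeg]
    irr := ?_
    cert := ?_ }⟩
  · have h1 := hS R.toSubring (fun x hx => hSR x hx) f1 hf1 hf1f0 (AlgebraicClosure ℚ)
      ((algebraMap K₁ (AlgebraicClosure ℚ)).comp (s : R →+* K₁))
    have h2 : (Polynomial.mapRingHom (algebraMap K₁ (AlgebraicClosure ℚ))).comp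
        (Polynomial.mapRingHom (s : R →+* K₁)) =
        Polynomial.mapRingHom ((algebraMap K₁ (AlgebraicClosure ℚ)).comp (s : R →+* K₁)) := by
      apply Polynomial.ringHom_ext
      · intro x
        simp
      · simp
    rw [Polynomial.map_map, h2]
    exact h1
  · intro F _ _ c hc
    let g : Polynomial R →+* F :=
      Polynomial.eval₂RingHom ((algebraMap K₁ F).comp (s : R →+* K₁)) c
    have hg : g δ = Polynomial.aeval c (δ.map (s : R →+* K₁)) := by
      simp [g, Polynomial.aeval_def, Polynomial.eval₂_map]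
    have hu : IsUnit (g δ) := by
      rw [hg]
      exact hc.isUnit
    let g' : Localization.Away δ →+* F := IsLocalization.Away.lift δ hu
    refine ⟨C'.map g', ?_⟩
    change C'.f.map g' = _
    rw [hC', Polynomial.map_map, Polynomial.map_map]
    congr 1
    rw [IsLocalization.Away.lift_comp]
    apply Polynomial.ringHom_ext
    · intro x
      simp [g]
    · simp [g]

end H36.RT
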