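import Pool.Agent.H36.RT.PartA
import Pool.Agent.H36.RT.CertGal
import Pool.Agent.H36.RT.AbsIrr
import Pool.Agent.H36.RT.Spread

/-!
# [H36 RT PARTB] assembly of part B

Proof. `partA G` gives `K`, `L`, `χ`; `cert_of_galois` gives `C`, `f0`, `θ`. Put
`W = AlgebraicClosure K`. `abs_irr K W f0` with `χ θ` for `θ`: `f0.eval₂ (toFW K) (χ θ) = 0` because
`toFW K p = χ (algebraMap _ L (algebraMap _ _ p))` and `aeval θ C.f = 0`; if `g` is monic with
`g.eval₂ (toFW K) (χ θ) = 0` then `θ` is a root of `g` (`χ` is injective), so
`natDegree f0 = natDegree (minpoly (RatFunc K) θ) ≤ natDegree g` (`minpoly.natDegree_le_of...`,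
`minpoly.min`); the degree `|G|` is positive. So `f0.map (mapRingHom (algebraMap K W))` is
irreducible. The certificate `C` over `RatFunc K` maps to one over `RatFunc W` (`Cert.map` with
`RatFunc.map`-type homomorphism `RatFunc K →+* RatFunc W` induced by `K[X] → W[X]`,
`RatFunc.mapRingHom` or `IsFractionRing.map`/`IsLocalization.map`). Conclude with `spread`.
-/

open Polynomial

noncomputable section

namespace H36.RT

theorem partB (G : Type) [Group G] [Finite G] : Nonempty (NFData G) := by
  obtain ⟨K, _, _, L, _, _, _, _, χ, ⟨e⟩, hχ⟩ := partA G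
  obtain ⟨C, f0, θ, hm, hf, hθ⟩ := cert_of_galois G K L e
  have hdeg : f0.natDegree = Nat.card G := by
    rw [← C.deg, ← hf, hm.natDegree_map]
  have hpos : 0 < f0.natDegree := by
    rw [hdeg]
    exact Nat.card_pos
  have hev : ∀ g : K[X][X], g.eval₂ (toFW K) (χ θ) =
      χ (aeval θ (g.map (algebraMap K[X] (RatFunc K)))) := by
    intro g
    rw [Polynomial.aeval_def, Polynomial.eval₂_map, Polynomial.hom_eval₂]
    congr 1
    exact RingHom.ext fun p => (hχ p).symm
  have habs := abs_irr K (AlgebraicClosure K) f0 hm hpos (χ θ)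
    (by rw [hev, hf, hθ, minpoly.aeval, map_zero])
    (by
      intro g hg h0
      rw [hev] at h0
      have h1 : aeval θ (g.map (algebraMap K[X] (RatFunc K))) = 0 := (map_eq_zero χ).1 h0
      have h2 := minpoly.min (RatFunc K) θ (hg.map _) h1
      have h3 := Polynomial.natDegree_le_natDegree h2
      rw [hg.natDegree_map, ← hθ, ← hf, hm.natDegree_map] at h3
      exact h3)
  have : CharZero (AlgebraicClosure K) := charZero_of_injective_algebraMap
    (algebraMap K (AlgebraicClosure K)).injective
  have hinj : Function.Injective ((algebraMap (AlgebraicClosure K)[X]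
      (RatFunc (AlgebraicClosure K))).comp
        (Polynomial.mapRingHom (algebraMap K (AlgebraicClosure K)))) :=
    (IsFractionRing.injective _ _).comp
      (Polynomial.map_injective _ (algebraMap K (AlgebraicClosure K)).injective)
  let ψ : RatFunc K →+* RatFunc (AlgebraicClosure K) := IsFractionRing.lift hinj
  refine spread G (AlgebraicClosure K) (C.map ψ) (f0.map (Polynomial.mapRingHom
    (algebraMap K (AlgebraicClosure K)))) (hm.map _) ?_ habs
  change _ = C.f.map ψ
  rw [← hf, Polynomial.map_map, Polynomial.map_map]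
  congr 1
  exact RingHom.ext fun p => (IsFractionRing.lift_algebraMap hinj p).symm

end H36.RT
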