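import Mathlib

/-!
# [H36 RT ROOT] an `n`-th root of `1 + a t`

Proof. Strong recursion on the coefficients (`u_0 = 1`; the coefficient of `t^j` in `u^n` is
`n u_j` plus a polynomial in `u_1, …, u_(j-1)`, and `n` is invertible in `R`), or from
`PowerSeries.binomialSeries` if its multiplicativity is in Mathlib, or from Hensel's lemma
(`R⟦t⟧` is `t`-adically complete, `HenselianRing`), or from `exp ((1/n) log (1 + a t))`. A convenient
way by recursion: prove by induction on `j` that there is a polynomial (or power series) `u_j` with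
`u_j^n ≡ 1 + a t mod t^(j+1)`, `u_(j+1) ≡ u_j mod t^(j+1)`, constant coefficient `1` : if
`u_j^n = 1 + a t + c t^(j+1) + …` put `u_(j+1) = u_j - (c/n) t^(j+1)`.
-/

namespace H36.RT

theorem exists_root {R : Type} [CommRing R] [Algebra ℚ R] (n : ℕ) (hn : 0 < n) (a : R) :
    ∃ u : PowerSeries R, u ^ n = 1 + PowerSeries.C a * PowerSeries.X := by
  have key : ∀ k : ℕ, (PowerSeries.binomialSeries R (1 / n : ℚ)) ^ k =
      PowerSeries.binomialSeries R (k * (1 / n) : ℚ) := by
    intro k
    induction k with
    | zero => simp
    | succ k ih =>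
      rw [pow_succ, ih, ← PowerSeries.binomialSeries_add]
      congr 1
      push_cast
      ring
  have hn' : (n : ℚ) ≠ 0 := by exact_mod_cast hn.ne'
  have h1 : (PowerSeries.binomialSeries R (1 / n : ℚ)) ^ n = 1 + PowerSeries.X := by
    rw [key n, mul_one_div_cancel hn']
    have := PowerSeries.binomialSeries_nat (R := ℚ) (A := R) 1
    simpa using this
  refine ⟨PowerSeries.rescale a (PowerSeries.binomialSeries R (1 / n : ℚ)), ?_⟩
  rw [← map_pow, h1, map_add, map_one, PowerSeries.rescale_X]

end H36.RT
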