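import Pool.Agent.H36.RT.Defs

/-!
# [H36 RT TDIV] division in `R⟦t⟧`

Proof. Choose for every `a : R` elements `Q a`, `V a` with `V a ∈ V` and `a = Q a * p₀ + V a`
(`choose`). Define by strong recursion on `j` (for instance with `Nat.strongRec`, or with
`Nat.strong_induction` on the statement that there are partial sequences) the coefficients
`q_j = Q (b_j - ∑_{(i, l) ∈ antidiagonal j, i < j} q_i p_l)` and `r_j = V (the same element)`; put
`q = PowerSeries.mk (q_j)`, `r = PowerSeries.mk (r_j)`. Compare coefficients (`PowerSeries.ext`,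
`PowerSeries.coeff_mul`): the term `(j, 0)` of the antidiagonal gives `q_j * p₀`.
-/

namespace H36.RT

theorem tdiv {R : Type} [CommRing R] (V : AddSubgroup R) (p : PowerSeries R)
    (hp : ∀ a : R, ∃ q r : R, r ∈ V ∧ a = q * PowerSeries.constantCoeff p + r)
    (b : PowerSeries R) :
    ∃ q r : PowerSeries R, (∀ j, PowerSeries.coeff j r ∈ V) ∧ b = q * p + r := by
  choose Q W hW hQ using hp
  let F : (n : ℕ) → ((m : ℕ) → m < n → R) → R := fun n rec =>
    Q (PowerSeries.coeff n b - ∑ i : Fin n, rec i i.2 * PowerSeries.coeff (n - i) p)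
  let s : ℕ → R := WellFounded.fix (r := (· < ·)) (C := fun _ => R) Nat.lt_wfRel.wf F
  have hs : ∀ n, s n =
      Q (PowerSeries.coeff n b - ∑ i : Fin n, s i * PowerSeries.coeff (n - i) p) := by
    intro n
    exact WellFounded.fix_eq (r := (· < ·)) (C := fun _ => R) Nat.lt_wfRel.wf F n
  refine ⟨PowerSeries.mk s, PowerSeries.mk fun n =>
    W (PowerSeries.coeff n b - ∑ i : Fin n, s i * PowerSeries.coeff (n - i) p), ?_, ?_⟩
  · intro j
    rw [PowerSeries.coeff_mk]
    exact hW _
  · ext1 n
    rw [map_add, PowerSeries.coeff_mk, PowerSeries.coeff_mul,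
      Finset.Nat.sum_antidiagonal_eq_sum_range_succ
        (fun i j => PowerSeries.coeff i (PowerSeries.mk s) * PowerSeries.coeff j p) n,
      Finset.sum_range_succ, Nat.sub_self, PowerSeries.coeff_mk,
      PowerSeries.coeff_zero_eq_constantCoeff_apply]
    have h1 := hQ (PowerSeries.coeff n b - ∑ i : Fin n, s i * PowerSeries.coeff (n - i) p)
    rw [← hs n] at h1
    have h2 : ∑ i : Fin n, s i * PowerSeries.coeff (n - i) p =
        ∑ i ∈ Finset.range n, PowerSeries.coeff i (PowerSeries.mk s) *
          PowerSeries.coeff (n - i) p := by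
      rw [Finset.sum_range]
      simp only [PowerSeries.coeff_mk]
    rw [add_assoc, ← h1, h2]
    ring

end H36.RT
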