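import Pool.Agent.H36.RT.TDiv

/-!
# [H36 RT WPREP] Weierstrass preparation in `k[x, 1/x]⟦t⟧`, and division

`div_laurent` (division by `p`): for `p₀ ∈ k[x]` of degree `d` with `p₀(0) ≠ 0` every Laurent
polynomial `a` is `q * p₀ + r` with `r ∈ k[x]`, `r = 0` or `deg r < d`. Proof: `a = x^(-N) * c`
with `c ∈ k[x]` (`LaurentPolynomial.exists_T_pow`); as `p₀` and `x^N` are coprime in `k[x]`
(`p₀(0) ≠ 0`), `c = u * x^N + v * p₀` with polynomials `u, v`, so `a = u + x^(-N) v p₀`, and divide
`u` by `p₀` with remainder (`Polynomial.mod_add_div`, `Polynomial.degree_mod_lt`; `p₀ ≠ 0`). Then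
use `tdiv` with `V` = image of the polynomials of degree `< d` (`Polynomial.degreeLT k d`, mapped by
`toLaurent`); lift the coefficients of the remainder to polynomials (`choose`, `PowerSeries.mk`).

`wprep`: `h = t^m h'` with `h'₀ ≠ 0` (`PowerSeries.X_pow_order_mul_divXPowOrder` or take the least
`m` with nonzero coefficient; `PowerSeries.X_pow_dvd_iff`), and `h'₀ = x^(-N) c`, `c ∈ k[x]`,
`c = x^M p₀` with `p₀(0) ≠ 0` (`Polynomial.exists_eq_pow_rootMultiplicity_mul_and_not_dvd` at `0`),
`d := natDegree p₀`. So `h'₀ = (unit T^(M-N)) * p₀`. Divide `T^d = x^d` by `h'`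
(`tdiv` with `p = h'`, whose constant coefficient is unit times `p₀`, so the hypothesis follows from
the division above): `x^d = q h' + r`, all coefficients of `r` polynomials of degree `< d` (or `0`).
Put `p = x^d - r` (coefficients `x^d - r_0`, `-r_j`, all of `natDegree ≤ d`; the constant
coefficient is monic of degree `d`). Modulo `t`: `x^d - r_0 = q_0 x^(M-N) p₀` in `k[x, 1/x]`.
Multiply by a power of `x`: `x^a (x^d - r_0) = e p₀` with `e ∈ k[x]`, and `x^a ∣ e` because `p₀` is
prime to `x`; hence `x^d - r_0 = e' p₀` in `k[x]` and by degrees `e'` is a nonzero constant. Hence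
`q_0 = e' x^(N-M)` is a unit of `k[x,1/x]`, `q` is a unit
(`PowerSeries.isUnit_iff_constantCoeff`), `h = t^m q^(-1) p`, and
`p₀(0) ≠ 0` gives `(constantCoeff p).coeff 0 = e' p₀(0) ≠ 0`.
-/

open Polynomial

namespace H36.RT

theorem wprep_coprime {k : Type} [Field k] {p₀ : k[X]} (h0 : p₀.coeff 0 ≠ 0) (n : ℕ) :
    IsCoprime (X ^ n) p₀ := by
  have h1 : IsCoprime (X : k[X]) p₀ := by
    rw [Polynomial.irreducible_X.coprime_iff_not_dvd, Polynomial.X_dvd_iff]
    exact h0
  exact h1.pow_left

theorem wprep_div {k : Type} [Field k] {p₀ : k[X]} (h0 : p₀.coeff 0 ≠ 0)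
    (a : LaurentPolynomial k) :
    ∃ (q : LaurentPolynomial k) (f : k[X]), f.degree < p₀.natDegree ∧
      a = q * toLaurent p₀ + toLaurent f := by
  have hp0 : p₀ ≠ 0 := by
    rintro rfl
    exact h0 (by simp)
  obtain ⟨n, c, hc⟩ := LaurentPolynomial.exists_T_pow a
  obtain ⟨u, v, huv⟩ := wprep_coprime h0 n
  have ha : a = toLaurent c * LaurentPolynomial.T (-n) := by
    rw [hc, mul_assoc, ← LaurentPolynomial.T_add]
    simp
  have hT : toLaurent (X ^ n : k[X]) * (LaurentPolynomial.T (-n) : LaurentPolynomial k) = 1 := by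
    rw [Polynomial.toLaurent_X_pow, ← LaurentPolynomial.T_add]
    simp
  have hc2 : c = (c * u) * X ^ n + (c * v) * p₀ := by
    calc c = c * (u * X ^ n + v * p₀) := by rw [huv, mul_one]
      _ = _ := by ring
  refine ⟨toLaurent ((c * u) / p₀) + toLaurent (c * v) * LaurentPolynomial.T (-n),
    (c * u) % p₀, ?_, ?_⟩
  · rw [← Polynomial.degree_eq_natDegree hp0]
    exact Polynomial.degree_mod_lt _ hp0
  · have hdm : c * u = p₀ * ((c * u) / p₀) + (c * u) % p₀ := by
      rw [add_comm]
      exact (EuclideanDomain.mod_add_div _ _).symm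
    calc a = toLaurent ((c * u) * X ^ n + (c * v) * p₀) * LaurentPolynomial.T (-n) := by
          rw [← hc2]; exact ha
      _ = toLaurent (c * u) * (toLaurent (X ^ n : k[X]) * LaurentPolynomial.T (-n)) +
          toLaurent (c * v) * toLaurent p₀ * LaurentPolynomial.T (-n) := by
          rw [map_add, map_mul toLaurent (c * u), map_mul toLaurent (c * v) p₀]
          ring
      _ = toLaurent (p₀ * ((c * u) / p₀) + (c * u) % p₀) +
          toLaurent (c * v) * toLaurent p₀ * LaurentPolynomial.T (-n) := by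
          rw [hT, mul_one, ← hdm]
      _ = _ := by
          rw [map_add, map_mul]
          ring

theorem wprep_div2 {k : Type} [Field k] {p₀ : k[X]} (h0 : p₀.coeff 0 ≠ 0)
    (c c' : LaurentPolynomial k) (hc : c' * c = 1) (p : RR k)
    (hp : PowerSeries.constantCoeff p = c * toLaurent p₀) (b : RR k) :
    ∃ (q : RR k) (r : PowerSeries k[X]),
      (∀ j, (PowerSeries.coeff j r).degree < p₀.natDegree) ∧ b = q * p + i1 k r := by
  let V : AddSubgroup (LaurentPolynomial k) :=
    (Polynomial.degreeLT k p₀.natDegree).toAddSubgroup.map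
      (toLaurent : k[X] →+* LaurentPolynomial k).toAddMonoidHom
  have hV : ∀ a : LaurentPolynomial k, ∃ q r : LaurentPolynomial k, r ∈ V ∧
      a = q * PowerSeries.constantCoeff p + r := by
    intro a
    obtain ⟨q, f, hf, ha⟩ := wprep_div h0 a
    refine ⟨q * c', toLaurent f, ?_, ?_⟩
    · refine ⟨f, ?_, rfl⟩
      exact Polynomial.mem_degreeLT.mpr hf
    · rw [ha, hp]
      calc q * toLaurent p₀ + toLaurent f = q * (c' * c) * toLaurent p₀ + toLaurent f := by
            rw [hc, mul_one]
        _ = _ := by ring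
  obtain ⟨q, r, hr, hb⟩ := tdiv V p hV b
  have h2 : ∀ j, ∃ f : k[X], f.degree < p₀.natDegree ∧ toLaurent f = PowerSeries.coeff j r := by
    intro j
    obtain ⟨f, hf, hfe⟩ := hr j
    exact ⟨f, Polynomial.mem_degreeLT.mp hf, hfe⟩
  choose f hf1 hf2 using h2
  refine ⟨q, PowerSeries.mk f, ?_, ?_⟩
  · intro j
    rw [PowerSeries.coeff_mk]
    exact hf1 j
  · rw [hb]
    congr 1
    ext1 j
    rw [i1, PowerSeries.coeff_map, PowerSeries.coeff_mk]
    exact (hf2 j).symm

theorem div_laurent (k : Type) [Field k] (d : ℕ) (p : PowerSeries k[X])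
    (hp : ∀ j, (PowerSeries.coeff j p).natDegree ≤ d)
    (hd : (PowerSeries.constantCoeff p).natDegree = d)
    (h0 : (PowerSeries.constantCoeff p).coeff 0 ≠ 0) (b : RR k) :
    ∃ (q : RR k) (r : PowerSeries k[X]), (∀ j, (PowerSeries.coeff j r).natDegree ≤ d) ∧
      b = q * i1 k p + i1 k r := by
  have hcc : PowerSeries.constantCoeff (i1 k p) = 1 * toLaurent (PowerSeries.constantCoeff p) := by
    rw [one_mul, ← PowerSeries.coeff_zero_eq_constantCoeff_apply,
      ← PowerSeries.coeff_zero_eq_constantCoeff_apply, i1, PowerSeries.coeff_map]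
  obtain ⟨q, r, hr, hb⟩ := wprep_div2 h0 1 1 (one_mul 1) (i1 k p) hcc b
  refine ⟨q, r, ?_, hb⟩
  intro j
  have h1 := hr j
  rw [hd] at h1
  exact Polynomial.natDegree_le_of_degree_le h1.le

theorem wprep (k : Type) [Field k] (h : RR k) (hh : h ≠ 0) :
    ∃ (m : ℕ) (u : (RR k)ˣ) (d : ℕ) (p : PowerSeries k[X]),
      (∀ j, (PowerSeries.coeff j p).natDegree ≤ d) ∧
      (PowerSeries.constantCoeff p).natDegree = d ∧
      (PowerSeries.constantCoeff p).coeff 0 ≠ 0 ∧
      h = PowerSeries.X ^ m * (u : RR k) * i1 k p := by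
  set m := h.order.toNat with hm
  set h' := PowerSeries.divXPowOrder h with hh'
  have e1 : PowerSeries.X ^ m * h' = h := PowerSeries.X_pow_order_mul_divXPowOrder
  have ha0 : PowerSeries.constantCoeff h' ≠ 0 := by
    rw [hh', Ne, PowerSeries.constantCoeff_divXPowOrder_eq_zero_iff]
    exact hh
  obtain ⟨N, c, hc⟩ := LaurentPolynomial.exists_T_pow (PowerSeries.constantCoeff h')
  have hc0 : c ≠ 0 := by
    rintro rfl
    rw [map_zero] at hc
    rcases mul_eq_zero.mp hc.symm with h1 | h1
    · exact ha0 h1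
    · exact (LaurentPolynomial.isUnit_T (R := k) (N : ℤ)).ne_zero h1
  obtain ⟨p₀, hp₀, hnd⟩ := Polynomial.exists_eq_pow_rootMultiplicity_mul_and_not_dvd c hc0 0
  set M := Polynomial.rootMultiplicity 0 c with hM
  rw [Polynomial.C_0, sub_zero] at hp₀ hnd
  have h0 : p₀.coeff 0 ≠ 0 := fun h => hnd (Polynomial.X_dvd_iff.mpr h)
  have hp0 : p₀ ≠ 0 := by
    rintro rfl
    exact h0 (by simp)
  have hcc : PowerSeries.constantCoeff h' =
      LaurentPolynomial.T ((M : ℤ) - N) * toLaurent p₀ := by
    have h1 : PowerSeries.constantCoeff h' = toLaurent c * LaurentPolynomial.T (-N) := by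
      rw [hc, mul_assoc, ← LaurentPolynomial.T_add]
      simp
    rw [h1, hp₀, map_mul, Polynomial.toLaurent_X_pow, sub_eq_add_neg, LaurentPolynomial.T_add]
    ring
  have hTT : (LaurentPolynomial.T ((N : ℤ) - M) : LaurentPolynomial k) *
      LaurentPolynomial.T ((M : ℤ) - N) = 1 := by
    rw [← LaurentPolynomial.T_add]
    simp
  set d := p₀.natDegree with hd
  obtain ⟨q, r, hr, hb⟩ := wprep_div2 h0 _ _ hTT h' hcc (i1 k (PowerSeries.C (X ^ d)))
  set p : PowerSeries k[X] := PowerSeries.C (X ^ d) - r with hpdef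
  have hp : i1 k p = q * h' := by
    rw [hpdef, map_sub, hb]
    ring
  have hpc : PowerSeries.constantCoeff p = X ^ d - PowerSeries.coeff 0 r := by
    rw [hpdef, map_sub, PowerSeries.constantCoeff_C, PowerSeries.coeff_zero_eq_constantCoeff_apply]
  have hpn : (PowerSeries.constantCoeff p).natDegree = d := by
    rw [hpc]
    have h1 : (PowerSeries.coeff 0 r).degree < (X ^ d : k[X]).degree := by
      rw [Polynomial.degree_X_pow]
      exact hr 0
    have h2 := Polynomial.degree_sub_eq_left_of_degree_lt h1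
    rw [Polynomial.degree_X_pow] at h2
    exact Polynomial.natDegree_eq_of_degree_eq_some h2
  have hpj : ∀ j, (PowerSeries.coeff j p).natDegree ≤ d := by
    intro j
    have h1 : PowerSeries.coeff j p = (if j = 0 then X ^ d else 0) - PowerSeries.coeff j r := by
      rw [hpdef, map_sub, PowerSeries.coeff_C]
    rw [h1]
    refine (Polynomial.natDegree_sub_le _ _).trans ?_
    apply max_le
    · split_ifs
      · rw [Polynomial.natDegree_X_pow]
      · simp
    · exact Polynomial.natDegree_le_of_degree_le (hr j).le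
  -- the constant coefficient
  have hq0 : toLaurent (PowerSeries.constantCoeff p) =
      (PowerSeries.constantCoeff q * LaurentPolynomial.T ((M : ℤ) - N)) * toLaurent p₀ := by
    have h1 : PowerSeries.constantCoeff (i1 k p) = toLaurent (PowerSeries.constantCoeff p) := by
      rw [← PowerSeries.coeff_zero_eq_constantCoeff_apply,
        ← PowerSeries.coeff_zero_eq_constantCoeff_apply, i1, PowerSeries.coeff_map]
    rw [← h1, hp, map_mul, hcc]
    ring
  obtain ⟨a, e', he'⟩ := LaurentPolynomial.exists_T_pow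
    (PowerSeries.constantCoeff q * LaurentPolynomial.T ((M : ℤ) - N))
  have h3 : PowerSeries.constantCoeff p * X ^ a = e' * p₀ := by
    apply Polynomial.toLaurent_injective
    rw [map_mul, map_mul, he', hq0, Polynomial.toLaurent_X_pow]
    ring
  have h4 : (X ^ a : k[X]) ∣ e' := by
    apply (wprep_coprime h0 a).dvd_of_dvd_mul_right
    rw [← h3]
    exact dvd_mul_left _ _
  obtain ⟨e2, he2⟩ := h4
  have h5 : PowerSeries.constantCoeff p = e2 * p₀ := by
    have hX : (X ^ a : k[X]) ≠ 0 := pow_ne_zero _ Polynomial.X_ne_zero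
    apply mul_right_cancel₀ hX
    rw [h3, he2]
    ring
  have hpne : PowerSeries.constantCoeff p ≠ 0 := by
    rw [hpc]
    intro h6
    have h7 : (PowerSeries.coeff 0 r) = X ^ d := (sub_eq_zero.mp h6).symm
    have h8 := hr 0
    rw [h7, Polynomial.degree_X_pow] at h8
    exact lt_irrefl _ h8
  have he20 : e2 ≠ 0 := by
    rintro rfl
    rw [zero_mul] at h5
    exact hpne h5
  have he2n : e2.natDegree = 0 := by
    have h6 := hpn
    rw [h5, Polynomial.natDegree_mul he20 hp0] at h6
    omega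
  obtain ⟨s, hs⟩ : ∃ s, e2 = Polynomial.C s := ⟨_, Polynomial.eq_C_of_natDegree_eq_zero he2n⟩
  have hs0 : s ≠ 0 := by
    rintro rfl
    rw [Polynomial.C_0] at hs
    exact he20 hs
  have h6 : PowerSeries.constantCoeff q * LaurentPolynomial.T ((M : ℤ) - N) =
      LaurentPolynomial.C s := by
    have h7 : toLaurent p₀ ≠ 0 := by
      rw [Ne, Polynomial.toLaurent_eq_zero]
      exact hp0
    apply mul_right_cancel₀ h7
    rw [← hq0, h5, hs, Polynomial.toLaurent_C_mul_eq]
  have hqu : IsUnit (PowerSeries.constantCoeff q) := by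
    have h7 : PowerSeries.constantCoeff q =
        LaurentPolynomial.C s * LaurentPolynomial.T ((N : ℤ) - M) := by
      rw [← h6, mul_assoc, mul_comm (LaurentPolynomial.T ((M : ℤ) - N)), hTT, mul_one]
    rw [h7]
    apply IsUnit.mul _ (LaurentPolynomial.isUnit_T _)
    exact (isUnit_iff_ne_zero.mpr hs0).map LaurentPolynomial.C
  have hqU : IsUnit q := PowerSeries.isUnit_iff_constantCoeff.mpr hqu
  obtain ⟨w, hw⟩ := hqU
  refine ⟨m, w⁻¹, d, p, hpj, hpn, ?_, ?_⟩
  · rw [h5, hs, Polynomial.coeff_C_mul]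
    exact mul_ne_zero hs0 h0
  · rw [hp, ← hw, mul_assoc, ← mul_assoc (↑w⁻¹ : RR k), Units.inv_mul, one_mul, e1]

end H36.RT
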