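import Pool.Agent.H36.RT.TDiv

/-!
# [H36 RT WPREP1] Weierstrass preparation in `k[x]⟦t⟧`

Proof. `h = t^m h'` with `h'₀ ≠ 0` (the least `m` with nonzero coefficient;
`PowerSeries.X_pow_dvd_iff`), `d := natDegree h'₀`. Division with remainder in `k[x]` by `h'₀`
(`Polynomial.div_add_mod`, `Polynomial.degree_mod_lt`) is the hypothesis of `tdiv` for `p = h'`, `V`
= polynomials of degree `< d` (`(Polynomial.degreeLT k d).toAddSubgroup`). Apply it to `b = C (X^d)`:
`x^d = q h' + r`. Put `p = x^d - r` (all coefficients of `natDegree ≤ d`, the constant coefficient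
`x^d - r_0` is monic of degree `d`). Modulo `t`: `x^d - r_0 = q_0 h'₀`, so by degrees `q_0` is a
nonzero constant, a unit; `q` is a unit (`PowerSeries.isUnit_iff_constantCoeff`) and
`h = t^m q^(-1) p`.
-/

open Polynomial

namespace H36.RT

theorem wprep1_div {k : Type} [Field k] (h' : PowerSeries k[X])
    (h0 : PowerSeries.constantCoeff h' ≠ 0) (b : PowerSeries k[X]) :
    ∃ q r : PowerSeries k[X],
      (∀ j, (PowerSeries.coeff j r).degree < (PowerSeries.constantCoeff h').natDegree) ∧
      b = q * h' + r := by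
  obtain ⟨q, r, hr, hb⟩ := tdiv
    (Polynomial.degreeLT k (PowerSeries.constantCoeff h').natDegree).toAddSubgroup h' (by
      intro a
      refine ⟨a / PowerSeries.constantCoeff h', a % PowerSeries.constantCoeff h', ?_, ?_⟩
      · have h1 := Polynomial.degree_mod_lt a h0
        rw [Polynomial.degree_eq_natDegree h0] at h1
        exact Polynomial.mem_degreeLT.mpr h1
      · rw [mul_comm, add_comm]
        exact (EuclideanDomain.mod_add_div _ _).symm) b
  exact ⟨q, r, fun j => Polynomial.mem_degreeLT.mp (hr j), hb⟩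

theorem wprep1 (k : Type) [Field k] (h : PowerSeries k[X]) (hh : h ≠ 0) :
    ∃ (m : ℕ) (u : (PowerSeries k[X])ˣ) (d : ℕ) (p : PowerSeries k[X]),
      (∀ j, (PowerSeries.coeff j p).natDegree ≤ d) ∧ p ≠ 0 ∧
      h = PowerSeries.X ^ m * (u : PowerSeries k[X]) * p := by
  set m := h.order.toNat with hm
  set h' := PowerSeries.divXPowOrder h with hh'
  have e1 : PowerSeries.X ^ m * h' = h := PowerSeries.X_pow_order_mul_divXPowOrder
  have ha0 : PowerSeries.constantCoeff h' ≠ 0 := by
    rw [hh', Ne, PowerSeries.constantCoeff_divXPowOrder_eq_zero_iff]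
    exact hh
  set d := (PowerSeries.constantCoeff h').natDegree with hd
  obtain ⟨q, r, hr, hb⟩ := wprep1_div h' ha0 (PowerSeries.C (X ^ d))
  rw [← hd] at hr
  set p : PowerSeries k[X] := PowerSeries.C (X ^ d) - r with hpdef
  have hp : p = q * h' := by
    rw [hpdef, hb]
    ring
  have hpc : PowerSeries.constantCoeff p = X ^ d - PowerSeries.coeff 0 r := by
    rw [hpdef, map_sub, PowerSeries.constantCoeff_C, PowerSeries.coeff_zero_eq_constantCoeff_apply]
  have hpn : (PowerSeries.constantCoeff p).natDegree = d := by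
    rw [hpc]
    have h1 : (PowerSeries.coeff 0 r).degree < (X ^ d : k[X]).degree := by
      rw [Polynomial.degree_X_pow]
      exact hr 0
    have h2 := Polynomial.degree_sub_eq_left_of_degree_lt h1
    rw [Polynomial.degree_X_pow] at h2
    exact Polynomial.natDegree_eq_of_degree_eq_some h2
  have hpj : ∀ j, (PowerSeries.coeff j p).natDegree ≤ d := by
    intro j
    have h1 : PowerSeries.coeff j p = (if j = 0 then X ^ d else 0) - PowerSeries.coeff j r := by
      rw [hpdef, map_sub, PowerSeries.coeff_C]
    rw [h1]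
    refine (Polynomial.natDegree_sub_le _ _).trans ?_
    apply max_le
    · split_ifs
      · rw [Polynomial.natDegree_X_pow]
      · simp
    · exact Polynomial.natDegree_le_of_degree_le (hr j).le
  have hpne : PowerSeries.constantCoeff p ≠ 0 := by
    rw [hpc]
    intro h6
    have h7 : (PowerSeries.coeff 0 r) = X ^ d := (sub_eq_zero.mp h6).symm
    have h8 := hr 0
    rw [h7, Polynomial.degree_X_pow] at h8
    exact lt_irrefl _ h8
  have h5 : PowerSeries.constantCoeff p =
      PowerSeries.constantCoeff q * PowerSeries.constantCoeff h' := by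
    rw [hp, map_mul]
  have hq0 : PowerSeries.constantCoeff q ≠ 0 := by
    intro h6
    rw [h6, zero_mul] at h5
    exact hpne h5
  have hqn : (PowerSeries.constantCoeff q).natDegree = 0 := by
    have h6 := hpn
    rw [h5, Polynomial.natDegree_mul hq0 ha0] at h6
    omega
  have hqu : IsUnit (PowerSeries.constantCoeff q) := by
    obtain ⟨s, hs⟩ : ∃ s, PowerSeries.constantCoeff q = Polynomial.C s :=
      ⟨_, Polynomial.eq_C_of_natDegree_eq_zero hqn⟩
    have hs0 : s ≠ 0 := by
      rintro rfl
      rw [Polynomial.C_0] at hs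
      exact hq0 hs
    rw [hs]
    exact (isUnit_iff_ne_zero.mpr hs0).map Polynomial.C
  obtain ⟨w, hw⟩ := PowerSeries.isUnit_iff_constantCoeff.mpr hqu
  refine ⟨m, w⁻¹, d, p, hpj, ?_, ?_⟩
  · intro h6
    rw [h6, map_zero] at hpne
    exact hpne rfl
  · rw [hp, ← hw, mul_assoc, ← mul_assoc (↑w⁻¹ : PowerSeries k[X]), Units.inv_mul, one_mul, e1]

end H36.RT
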